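import Mathlib

/-!
# The windowed covering lemma (module B)

If every large value of a nonnegative sequence is dominated by the lengths of the
intervals to the left and to the right on which the sum is small, then the averages of the
sequence over windows are bounded.
-/

open Finset

namespace Pool.Agent.Lib.MP_79f2f8_an

section Cover

variable {κ : ℤ → ℝ}

/-- `x ≥ i` is reached from `i` before the sum of the values reaches `⌊κ i⌋`. -/
def Rr (κ : ℤ → ℝ) (i x : ℤ) : Prop := i ≤ x ∧ ∑ l ∈ Ioc i x, κ l < (⌊κ i⌋₊ : ℝ)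

/-- `x ≤ i` is reached from `i` before the sum of the values reaches `⌊κ i⌋`. -/
def Ll (κ : ℤ → ℝ) (i x : ℤ) : Prop := x ≤ i ∧ ∑ l ∈ Ico x i, κ l < (⌊κ i⌋₊ : ℝ)

lemma Rr_mono (h0 : ∀ j, 0 ≤ κ j) {i x y : ℤ} (h : Rr κ i x) (h1 : i ≤ y) (h2 : y ≤ x) :
    Rr κ i y :=
  ⟨h1, lt_of_le_of_lt (sum_le_sum_of_subset_of_nonneg (Ioc_subset_Ioc_right h2)
    (fun j _ _ => h0 j)) h.2⟩

lemma Ll_mono (h0 : ∀ j, 0 ≤ κ j) {i x y : ℤ} (h : Ll κ i x) (h1 : y ≤ i) (h2 : x ≤ y) :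
    Ll κ i y :=
  ⟨h1, lt_of_le_of_lt (sum_le_sum_of_subset_of_nonneg (Ico_subset_Ico_left h2)
    (fun j _ _ => h0 j)) h.2⟩

lemma Rr_self {i : ℤ} (h : 1 ≤ κ i) : Rr κ i i := by
  refine ⟨le_rfl, ?_⟩
  have : 1 ≤ ⌊κ i⌋₊ := Nat.floor_pos.2 h
  simp
  omega

lemma Ll_self {i : ℤ} (h : 1 ≤ κ i) : Ll κ i i := by
  refine ⟨le_rfl, ?_⟩
  have : 1 ≤ ⌊κ i⌋₊ := Nat.floor_pos.2 h
  simp
  omega

lemma Rr_lt (h0 : ∀ j, 0 ≤ κ j) {i x : ℤ} (h : Rr κ i x) (hne : i ≠ x) : κ x < κ i := by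
  have h1 : κ x ≤ ∑ l ∈ Ioc i x, κ l :=
    single_le_sum (fun j _ => h0 j) (mem_Ioc.2 ⟨lt_of_le_of_ne h.1 hne, le_rfl⟩)
  exact (h1.trans_lt h.2).trans_le (Nat.floor_le (h0 i))

lemma Ll_lt (h0 : ∀ j, 0 ≤ κ j) {i x : ℤ} (h : Ll κ i x) (hne : i ≠ x) : κ x < κ i := by
  have h1 : κ x ≤ ∑ l ∈ Ico x i, κ l :=
    single_le_sum (fun j _ => h0 j) (mem_Ico.2 ⟨le_rfl, lt_of_le_of_ne h.1 hne.symm⟩)
  exact (h1.trans_lt h.2).trans_le (Nat.floor_le (h0 i))

/-- greedy choice of the centres -/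
lemma exists_centres (h0 : ∀ j, 0 ≤ κ j) (W : Finset ℤ) : (∀ j ∈ W, 1 ≤ κ j) →
    ∃ G ⊆ W, (∀ j ∈ W, ∃ i ∈ G, Rr κ i j ∨ Ll κ i j) ∧
      (∀ i ∈ G, ∀ i' ∈ G, i ≠ i' → ¬ Rr κ i i' ∧ ¬ Ll κ i i') := by
  classical
  induction W using Finset.strongInduction with
  | H W ih =>
    intro h1
    rcases W.eq_empty_or_nonempty with rfl | hne
    · exact ⟨∅, by simp, by simp, by simp⟩
    obtain ⟨i, hi, hmax⟩ := exists_max_image W κ hne
    have hii : Rr κ i i := Rr_self (h1 i hi)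
    have hss : W.filter (fun j => ¬ (Rr κ i j ∨ Ll κ i j)) ⊂ W := by
      refine (Finset.ssubset_iff_of_subset (filter_subset _ _)).2 ⟨i, hi, ?_⟩
      simp [hii]
    obtain ⟨G, hGW, hcov, hsep⟩ := ih _ hss (fun j hj => h1 j (mem_filter.1 hj).1)
    refine ⟨insert i G, ?_, ?_, ?_⟩
    · intro j hj
      rcases mem_insert.1 hj with rfl | hj
      · exact hi
      · exact (mem_filter.1 (hGW hj)).1
    · intro j hj
      by_cases hij : Rr κ i j ∨ Ll κ i j
      · exact ⟨i, mem_insert_self _ _, hij⟩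
      · obtain ⟨i', hi', h'⟩ := hcov j (mem_filter.2 ⟨hj, hij⟩)
        exact ⟨i', mem_insert_of_mem hi', h'⟩
    · intro p hp q hq hpq
      rcases mem_insert.1 hp with hp1 | hp1
      · rcases mem_insert.1 hq with hq1 | hq1
        · exact absurd (hp1.trans hq1.symm) hpq
        · have := (mem_filter.1 (hGW hq1)).2
          rw [hp1]
          tauto
      · rcases mem_insert.1 hq with hq1 | hq1
        · rw [hq1]
          have hle := hmax p (mem_filter.1 (hGW hp1)).1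
          rw [hq1] at hpq
          exact ⟨fun h => absurd (Rr_lt h0 h hpq) (not_lt.2 hle),
            fun h => absurd (Ll_lt h0 h hpq) (not_lt.2 hle)⟩
        · exact hsep p hp1 q hq1 hpq

open Classical in
lemma card_Rr_le (h0 : ∀ j, 0 ≤ κ j) {G : Finset ℤ}
    (hsep : ∀ i ∈ G, ∀ i' ∈ G, i ≠ i' → ¬ Rr κ i i' ∧ ¬ Ll κ i i') (x : ℤ) :
    (G.filter (fun i => Rr κ i x)).card ≤ 1 := by
  refine card_le_one.2 ?_
  intro p hp q hq
  rw [mem_filter] at hp hq
  by_contra hne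
  rcases lt_or_gt_of_ne hne with h | h
  · exact (hsep p hp.1 q hq.1 hne).1 (Rr_mono h0 hp.2 h.le hq.2.1)
  · exact (hsep q hq.1 p hp.1 (Ne.symm hne)).1 (Rr_mono h0 hq.2 h.le hp.2.1)

open Classical in
lemma card_Ll_le (h0 : ∀ j, 0 ≤ κ j) {G : Finset ℤ}
    (hsep : ∀ i ∈ G, ∀ i' ∈ G, i ≠ i' → ¬ Rr κ i i' ∧ ¬ Ll κ i i') (x : ℤ) :
    (G.filter (fun i => Ll κ i x)).card ≤ 1 := by
  refine card_le_one.2 ?_
  intro p hp q hq
  rw [mem_filter] at hp hq
  by_contra hne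
  rcases lt_or_gt_of_ne hne with h | h
  · exact (hsep q hq.1 p hp.1 (Ne.symm hne)).2 (Ll_mono h0 hq.2 h.le hp.2.1)
  · exact (hsep p hp.1 q hq.1 hne).2 (Ll_mono h0 hp.2 h.le hq.2.1)

open Classical in
lemma sum_Rr_le (h0 : ∀ j, 0 ≤ κ j) {i : ℤ} (W : Finset ℤ) :
    ∑ j ∈ W.filter (fun j => Rr κ i j), κ j ≤ 2 * κ i := by
  set S := W.filter (fun j => Rr κ i j) with hS
  rcases S.eq_empty_or_nonempty with he | hne
  · rw [he]; simpa using h0 i
  set x := S.max' hne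
  have hx : x ∈ S := S.max'_mem hne
  have hRx : Rr κ i x := (mem_filter.1 hx).2
  have hsub : S ⊆ insert i (Ioc i x) := by
    intro j hj
    have h1 : Rr κ i j := (mem_filter.1 hj).2
    have h2 : j ≤ x := S.le_max' j hj
    rcases eq_or_lt_of_le h1.1 with h | h
    · simp [h]
    · exact mem_insert_of_mem (mem_Ioc.2 ⟨h, h2⟩)
  calc ∑ j ∈ S, κ j ≤ ∑ j ∈ insert i (Ioc i x), κ j :=
        sum_le_sum_of_subset_of_nonneg hsub (fun j _ _ => h0 j)
    _ = κ i + ∑ j ∈ Ioc i x, κ j := sum_insert (by simp)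
    _ ≤ κ i + κ i := by
        have := Nat.floor_le (h0 i)
        linarith [hRx.2]
    _ = 2 * κ i := by ring

open Classical in
lemma sum_Ll_le (h0 : ∀ j, 0 ≤ κ j) {i : ℤ} (W : Finset ℤ) :
    ∑ j ∈ W.filter (fun j => Ll κ i j), κ j ≤ 2 * κ i := by
  set S := W.filter (fun j => Ll κ i j) with hS
  rcases S.eq_empty_or_nonempty with he | hne
  · rw [he]; simpa using h0 i
  set x := S.min' hne
  have hx : x ∈ S := S.min'_mem hne
  have hRx : Ll κ i x := (mem_filter.1 hx).2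
  have hsub : S ⊆ insert i (Ico x i) := by
    intro j hj
    have h1 : Ll κ i j := (mem_filter.1 hj).2
    have h2 : x ≤ j := S.min'_le j hj
    rcases eq_or_lt_of_le h1.1 with h | h
    · simp [h]
    · exact mem_insert_of_mem (mem_Ico.2 ⟨h2, h⟩)
  calc ∑ j ∈ S, κ j ≤ ∑ j ∈ insert i (Ico x i), κ j :=
        sum_le_sum_of_subset_of_nonneg hsub (fun j _ _ => h0 j)
    _ = κ i + ∑ j ∈ Ico x i, κ j := sum_insert (by simp)
    _ ≤ κ i + κ i := by
        have := Nat.floor_le (h0 i)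
        linarith [hRx.2]
    _ = 2 * κ i := by ring

lemma sum_Icc_eq_Ioc (κ : ℤ → ℝ) (i : ℤ) (m : ℕ) :
    ∑ l ∈ Icc 1 m, κ (i + l) = ∑ l ∈ Ioc i (i + m), κ l := by
  refine sum_bij (fun l _ => i + l) ?_ ?_ ?_ ?_
  · intro l hl
    rw [mem_Icc] at hl
    rw [mem_Ioc]; omega
  · intro a _ b _ h
    simpa using h
  · intro x hx
    rw [mem_Ioc] at hx
    refine ⟨(x - i).toNat, ?_, ?_⟩
    · rw [mem_Icc]; omega
    · omega
  · intro l _; rfl

lemma sum_Icc_eq_Ico (κ : ℤ → ℝ) (i : ℤ) (m : ℕ) :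
    ∑ l ∈ Icc 1 m, κ (i - l) = ∑ l ∈ Ico (i - m) i, κ l := by
  refine sum_bij (fun l _ => i - l) ?_ ?_ ?_ ?_
  · intro l hl
    rw [mem_Icc] at hl
    rw [mem_Ico]; omega
  · intro a _ b _ h
    simpa using h
  · intro x hx
    rw [mem_Ico] at hx
    refine ⟨(i - x).toNat, ?_, ?_⟩
    · rw [mem_Icc]; omega
    · omega
  · intro l _; rfl

open Classical in
/-- if the end of the window is not reached, the first time exists and is counted by the
points of the window -/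
lemma exists_fwd {i a b : ℤ} (h1 : 1 ≤ κ i) (ha : a ≤ i) (hb : i < b)
    (h : ¬ Rr κ i (b - 1)) : ∃ m : ℕ, 1 ≤ m ∧ ∑ l ∈ Ico 1 m, κ (i + l) < (⌊κ i⌋₊ : ℝ) ∧
      (⌊κ i⌋₊ : ℝ) ≤ ∑ l ∈ Icc 1 m, κ (i + l) ∧
      m ≤ ((Ico a b).filter (fun x => Rr κ i x)).card := by
  have hex : ∃ m : ℕ, (⌊κ i⌋₊ : ℝ) ≤ ∑ l ∈ Icc 1 m, κ (i + l) := by
    refine ⟨(b - 1 - i).toNat, ?_⟩
    rw [sum_Icc_eq_Ioc]
    have : i + ((b - 1 - i).toNat : ℤ) = b - 1 := by omega
    rw [this]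
    by_contra hcon
    exact h ⟨by omega, not_le.1 hcon⟩
  have hfl : 1 ≤ ⌊κ i⌋₊ := Nat.floor_pos.2 h1
  refine ⟨Nat.find hex, ?_, ?_, Nat.find_spec hex, ?_⟩
  · by_contra hlt
    have h0' : Nat.find hex = 0 := by omega
    have := Nat.find_spec hex
    rw [h0'] at this
    simp at this
    linarith
  · rcases Nat.eq_zero_or_pos (Nat.find hex) with h0' | hpos
    · rw [h0']
      simp
      omega
    · have := Nat.find_min hex (m := Nat.find hex - 1) (by omega)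
      have h3 : Ico 1 (Nat.find hex) = Icc 1 (Nat.find hex - 1) := by
        ext l; simp only [mem_Ico, mem_Icc]; omega
      rw [h3]
      exact not_le.1 this
  · have hle : Nat.find hex ≤ (b - 1 - i).toNat := by
      refine Nat.find_min' hex ?_
      rw [sum_Icc_eq_Ioc]
      have : i + ((b - 1 - i).toNat : ℤ) = b - 1 := by omega
      rw [this]
      by_contra hcon
      exact h ⟨by omega, not_le.1 hcon⟩
    have hsub : (range (Nat.find hex)).image (fun d : ℕ => i + (d : ℤ)) ⊆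
        (Ico a b).filter (fun x => Rr κ i x) := by
      intro x hx
      obtain ⟨d, hd, rfl⟩ := mem_image.1 hx
      rw [mem_range] at hd
      rw [mem_filter, mem_Ico]
      refine ⟨by omega, by omega, ?_⟩
      have := Nat.find_min hex hd
      rw [sum_Icc_eq_Ioc] at this
      exact not_le.1 this
    calc Nat.find hex = ((range (Nat.find hex)).image (fun d : ℕ => i + (d : ℤ))).card := by
          rw [card_image_of_injective _ (fun p q h => by simpa using h), card_range]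
      _ ≤ _ := card_le_card hsub

open Classical in
lemma exists_bwd {i a b : ℤ} (h1 : 1 ≤ κ i) (ha : a ≤ i) (hb : i < b)
    (h : ¬ Ll κ i a) : ∃ m : ℕ, 1 ≤ m ∧ ∑ l ∈ Ico 1 m, κ (i - l) < (⌊κ i⌋₊ : ℝ) ∧
      (⌊κ i⌋₊ : ℝ) ≤ ∑ l ∈ Icc 1 m, κ (i - l) ∧
      m ≤ ((Ico a b).filter (fun x => Ll κ i x)).card := by
  have hex' : (⌊κ i⌋₊ : ℝ) ≤ ∑ l ∈ Icc 1 (i - a).toNat, κ (i - l) := by
    rw [sum_Icc_eq_Ico]
    have : i - ((i - a).toNat : ℤ) = a := by omega
    rw [this]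
    by_contra hcon
    exact h ⟨by omega, not_le.1 hcon⟩
  have hex : ∃ m : ℕ, (⌊κ i⌋₊ : ℝ) ≤ ∑ l ∈ Icc 1 m, κ (i - l) := ⟨_, hex'⟩
  have hfl : 1 ≤ ⌊κ i⌋₊ := Nat.floor_pos.2 h1
  refine ⟨Nat.find hex, ?_, ?_, Nat.find_spec hex, ?_⟩
  · by_contra hlt
    have h0' : Nat.find hex = 0 := by omega
    have := Nat.find_spec hex
    rw [h0'] at this
    simp at this
    linarith
  · rcases Nat.eq_zero_or_pos (Nat.find hex) with h0' | hpos
    · rw [h0']
      simp
      omega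
    · have := Nat.find_min hex (m := Nat.find hex - 1) (by omega)
      have h3 : Ico 1 (Nat.find hex) = Icc 1 (Nat.find hex - 1) := by
        ext l; simp only [mem_Ico, mem_Icc]; omega
      rw [h3]
      exact not_le.1 this
  · have hle : Nat.find hex ≤ (i - a).toNat := Nat.find_min' hex hex'
    have hsub : (range (Nat.find hex)).image (fun d : ℕ => i - (d : ℤ)) ⊆
        (Ico a b).filter (fun x => Ll κ i x) := by
      intro x hx
      obtain ⟨d, hd, rfl⟩ := mem_image.1 hx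
      rw [mem_range] at hd
      rw [mem_filter, mem_Ico]
      refine ⟨by omega, by omega, ?_⟩
      have := Nat.find_min hex hd
      rw [sum_Icc_eq_Ico] at this
      exact not_le.1 this
    calc Nat.find hex = ((range (Nat.find hex)).image (fun d : ℕ => i - (d : ℤ))).card := by
          rw [card_image_of_injective _ (fun p q h => by simpa using h), card_range]
      _ ≤ _ := card_le_card hsub

lemma sum_biUnion_le' {g : ℤ → ℝ} (hg : ∀ j, 0 ≤ g j) (G : Finset ℤ) (f : ℤ → Finset ℤ) :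
    ∑ x ∈ G.biUnion f, g x ≤ ∑ i ∈ G, ∑ x ∈ f i, g x := by
  classical
  induction G using Finset.induction_on with
  | empty => simp
  | insert i G hi ih =>
    rw [biUnion_insert, sum_insert hi]
    have h1 := sum_union_inter (s₁ := f i) (s₂ := G.biUnion f) (f := g)
    have h2 : 0 ≤ ∑ j ∈ f i ∩ G.biUnion f, g j := sum_nonneg (fun j _ => hg j)
    linarith

lemma sum_range_eq_Ico (κ : ℤ → ℝ) (a : ℤ) (b : ℕ) :
    ∑ j ∈ range b, κ (a + j) = ∑ j ∈ Ico a (a + b), κ j := by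
  refine sum_bij (fun l _ => a + l) ?_ ?_ ?_ ?_
  · intro l hl
    rw [mem_range] at hl
    rw [mem_Ico]; omega
  · intro p _ q _ h
    simpa using h
  · intro x hx
    rw [mem_Ico] at hx
    refine ⟨(x - a).toNat, ?_, ?_⟩
    · rw [mem_range]; omega
    · omega
  · intro l _; rfl

end Cover

/-- windowed covering lemma (module B, file Cover.lean) -/
theorem cover_window (A : ℝ) (hA : 1 ≤ A) : ∃ C : ℝ, 0 < C ∧ ∀ (K : ℕ) (κ : ℤ → ℝ),
    (∀ j, 0 ≤ κ j) → (∀ j, κ j ≤ K) →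
    (∀ (i : ℤ) (N m n : ℕ), (N : ℝ) ≤ κ i → 1 ≤ m → 1 ≤ n →
      ∑ l ∈ Ico 1 m, κ (i + l) < N → (N : ℝ) ≤ ∑ l ∈ Icc 1 m, κ (i + l) →
      ∑ l ∈ Ico 1 n, κ (i - l) < N → (N : ℝ) ≤ ∑ l ∈ Icc 1 n, κ (i - l) →
      (N : ℝ) ≤ A * (m + n)) →
    ∀ (a : ℤ) (b : ℕ), ∑ j ∈ range b, κ (a + j) ≤ C * (b + K + 1) := by
  classical
  refine ⟨17 * A, by positivity, ?_⟩
  intro K κ h0 hK hyp a b
  rw [sum_range_eq_Ico]
  set W := Ico a (a + b) with hW
  have hcardW : W.card = b := by simp [hW]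
  set W1 := W.filter (fun j => 1 ≤ κ j) with hW1
  obtain ⟨G, hGW, hcov, hsep⟩ := exists_centres h0 W1 (fun j hj => (mem_filter.1 hj).2)
  have hGmem : ∀ i ∈ G, a ≤ i ∧ i < a + b ∧ 1 ≤ κ i := by
    intro i hi
    have := mem_filter.1 (hGW hi)
    have h2 := mem_Ico.1 this.1
    exact ⟨h2.1, h2.2, this.2⟩
  -- small values
  have hsmall : ∑ j ∈ W.filter (fun j => ¬ 1 ≤ κ j), κ j ≤ b := by
    calc ∑ j ∈ W.filter (fun j => ¬ 1 ≤ κ j), κ j
        ≤ ∑ j ∈ W.filter (fun j => ¬ 1 ≤ κ j), (1 : ℝ) :=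
          sum_le_sum (fun j hj => (not_le.1 (mem_filter.1 hj).2).le)
      _ = ((W.filter (fun j => ¬ 1 ≤ κ j)).card : ℝ) := by simp
      _ ≤ (W.card : ℝ) := by exact_mod_cast card_le_card (filter_subset _ _)
      _ = b := by rw [hcardW]
  -- large values are covered
  have hlarge : ∑ j ∈ W1, κ j ≤ ∑ i ∈ G, 4 * κ i := by
    have hsub : W1 ⊆ G.biUnion (fun i => W.filter (fun j => Rr κ i j) ∪
        W.filter (fun j => Ll κ i j)) := by
      intro j hj
      obtain ⟨i, hi, h⟩ := hcov j hj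
      have hjW := (mem_filter.1 hj).1
      rw [mem_biUnion]
      refine ⟨i, hi, ?_⟩
      rw [mem_union, mem_filter, mem_filter]
      rcases h with h | h
      · exact Or.inl ⟨hjW, h⟩
      · exact Or.inr ⟨hjW, h⟩
    calc ∑ j ∈ W1, κ j ≤ ∑ j ∈ G.biUnion (fun i => W.filter (fun j => Rr κ i j) ∪
        W.filter (fun j => Ll κ i j)), κ j :=
          sum_le_sum_of_subset_of_nonneg hsub (fun j _ _ => h0 j)
      _ ≤ ∑ i ∈ G, ∑ j ∈ W.filter (fun j => Rr κ i j) ∪ W.filter (fun j => Ll κ i j), κ j := by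
          exact sum_biUnion_le' h0 G _
      _ ≤ ∑ i ∈ G, 4 * κ i := by
          refine sum_le_sum (fun i _ => ?_)
          have h1 : ∑ j ∈ W.filter (fun j => Rr κ i j) ∪ W.filter (fun j => Ll κ i j), κ j ≤
              ∑ j ∈ W.filter (fun j => Rr κ i j), κ j +
              ∑ j ∈ W.filter (fun j => Ll κ i j), κ j := by
            have := sum_union_inter (s₁ := W.filter (fun j => Rr κ i j))
              (s₂ := W.filter (fun j => Ll κ i j)) (f := κ)
            have h2 : 0 ≤ ∑ j ∈ W.filter (fun j => Rr κ i j) ∩ W.filter (fun j => Ll κ i j), κ j :=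
              sum_nonneg (fun j _ => h0 j)
            linarith
          linarith [sum_Rr_le h0 (i := i) W, sum_Ll_le h0 (i := i) W]
  -- the lengths
  have hlenR : ∑ i ∈ G, (((W.filter (fun x => Rr κ i x)).card : ℕ) : ℝ) ≤ b := by
    have h1 : ∑ i ∈ G, (W.filter (fun x => Rr κ i x)).card =
        ∑ x ∈ W, (G.filter (fun i => Rr κ i x)).card :=
      sum_card_bipartiteAbove_eq_sum_card_bipartiteBelow (Rr κ)
    have h2 : ∑ x ∈ W, (G.filter (fun i => Rr κ i x)).card ≤ b := by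
      calc ∑ x ∈ W, (G.filter (fun i => Rr κ i x)).card ≤ ∑ x ∈ W, 1 :=
            sum_le_sum (fun x _ => card_Rr_le h0 hsep x)
        _ = b := by simp [hcardW]
    rw [← Nat.cast_sum, h1]
    exact_mod_cast h2
  have hlenL : ∑ i ∈ G, (((W.filter (fun x => Ll κ i x)).card : ℕ) : ℝ) ≤ b := by
    have h1 : ∑ i ∈ G, (W.filter (fun x => Ll κ i x)).card =
        ∑ x ∈ W, (G.filter (fun i => Ll κ i x)).card :=
      sum_card_bipartiteAbove_eq_sum_card_bipartiteBelow (Ll κ)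
    have h2 : ∑ x ∈ W, (G.filter (fun i => Ll κ i x)).card ≤ b := by
      calc ∑ x ∈ W, (G.filter (fun i => Ll κ i x)).card ≤ ∑ x ∈ W, 1 :=
            sum_le_sum (fun x _ => card_Ll_le h0 hsep x)
        _ = b := by simp [hcardW]
    rw [← Nat.cast_sum, h1]
    exact_mod_cast h2
  -- centres whose interval is inside the window
  set P : ℤ → Prop := fun i => Rr κ i (a + b - 1) ∨ Ll κ i a with hP
  have hgood : ∑ i ∈ G.filter (fun i => ¬ P i), 4 * κ i ≤ 16 * A * b := by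
    have h1 : ∀ i ∈ G.filter (fun i => ¬ P i), 4 * κ i ≤
        8 * A * ((((W.filter (fun x => Rr κ i x)).card : ℕ) : ℝ) +
          (((W.filter (fun x => Ll κ i x)).card : ℕ) : ℝ)) := by
      intro i hi
      rw [mem_filter] at hi
      obtain ⟨ha, hb, h1⟩ := hGmem i hi.1
      have hnP : ¬ Rr κ i (a + b - 1) ∧ ¬ Ll κ i a := by
        have := hi.2
        simp only [hP] at this
        tauto
      obtain ⟨m, hm1, hm2, hm3, hm4⟩ := exists_fwd h1 ha hb hnP.1
      obtain ⟨n, hn1, hn2, hn3, hn4⟩ := exists_bwd h1 ha hb hnP.2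
      have hN := hyp i ⌊κ i⌋₊ m n (Nat.floor_le (h0 i)) hm1 hn1 hm2 hm3 hn2 hn3
      have hfl : (1 : ℝ) ≤ (⌊κ i⌋₊ : ℝ) := by exact_mod_cast Nat.floor_pos.2 h1
      have hlt := Nat.lt_floor_add_one (κ i)
      have hm5 : (m : ℝ) ≤ (((W.filter (fun x => Rr κ i x)).card : ℕ) : ℝ) := by
        exact_mod_cast hm4
      have hn5 : (n : ℝ) ≤ (((W.filter (fun x => Ll κ i x)).card : ℕ) : ℝ) := by
        exact_mod_cast hn4
      have h6 : A * (m + n) ≤ A * ((((W.filter (fun x => Rr κ i x)).card : ℕ) : ℝ) +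
          (((W.filter (fun x => Ll κ i x)).card : ℕ) : ℝ)) :=
        mul_le_mul_of_nonneg_left (add_le_add hm5 hn5) (by linarith)
      linarith
    calc ∑ i ∈ G.filter (fun i => ¬ P i), 4 * κ i
        ≤ ∑ i ∈ G.filter (fun i => ¬ P i), 8 * A *
          ((((W.filter (fun x => Rr κ i x)).card : ℕ) : ℝ) +
          (((W.filter (fun x => Ll κ i x)).card : ℕ) : ℝ)) := sum_le_sum h1
      _ ≤ ∑ i ∈ G, 8 * A *
          ((((W.filter (fun x => Rr κ i x)).card : ℕ) : ℝ) +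
          (((W.filter (fun x => Ll κ i x)).card : ℕ) : ℝ)) :=
          sum_le_sum_of_subset_of_nonneg (filter_subset _ _) (fun i _ _ => by positivity)
      _ = 8 * A * (∑ i ∈ G, (((W.filter (fun x => Rr κ i x)).card : ℕ) : ℝ) +
          ∑ i ∈ G, (((W.filter (fun x => Ll κ i x)).card : ℕ) : ℝ)) := by
          rw [← mul_sum, sum_add_distrib]
      _ ≤ 8 * A * (b + b) :=
          mul_le_mul_of_nonneg_left (add_le_add hlenR hlenL) (by linarith)
      _ = 16 * A * b := by ring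
  have hbad : ∑ i ∈ G.filter P, 4 * κ i ≤ 8 * K := by
    have hc : (G.filter P).card ≤ 2 := by
      calc (G.filter P).card ≤ ((G.filter (fun i => Rr κ i (a + b - 1))) ∪
            (G.filter (fun i => Ll κ i a))).card := by
            refine card_le_card ?_
            intro i hi
            rw [mem_filter] at hi
            rw [mem_union, mem_filter, mem_filter]
            rcases hi.2 with h | h
            · exact Or.inl ⟨hi.1, h⟩
            · exact Or.inr ⟨hi.1, h⟩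
        _ ≤ (G.filter (fun i => Rr κ i (a + b - 1))).card +
            (G.filter (fun i => Ll κ i a)).card := card_union_le _ _
        _ ≤ 1 + 1 := add_le_add (card_Rr_le h0 hsep _) (card_Ll_le h0 hsep _)
    calc ∑ i ∈ G.filter P, 4 * κ i ≤ ∑ i ∈ G.filter P, 4 * (K : ℝ) :=
          sum_le_sum (fun i _ => by linarith [hK i])
      _ = (G.filter P).card * (4 * (K : ℝ)) := by simp
      _ ≤ 2 * (4 * (K : ℝ)) := by
          refine mul_le_mul_of_nonneg_right ?_ (by positivity)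
          exact_mod_cast hc
      _ = 8 * K := by ring
  have hsplit : ∑ j ∈ W, κ j = ∑ j ∈ W1, κ j + ∑ j ∈ W.filter (fun j => ¬ 1 ≤ κ j), κ j :=
    (sum_filter_add_sum_filter_not W _ _).symm
  have hsplit2 : ∑ i ∈ G, 4 * κ i = ∑ i ∈ G.filter P, 4 * κ i +
      ∑ i ∈ G.filter (fun i => ¬ P i), 4 * κ i :=
    (sum_filter_add_sum_filter_not G _ _).symm
  have hb0 : (0 : ℝ) ≤ b := by positivity
  have hK0 : (0 : ℝ) ≤ K := by positivity
  have e1 : (b : ℝ) ≤ A * b := by nlinarith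
  have e2 : 8 * (K : ℝ) ≤ 17 * A * K := by nlinarith
  calc ∑ j ∈ W, κ j ≤ b + 16 * A * b + 8 * K := by linarith
    _ ≤ 17 * A * (b + K + 1) := by nlinarith

end Pool.Agent.Lib.MP_79f2f8_an
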