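import Pool.Agent.Lib.MP_79f2f8_an.Rays
import Pool.Agent.Lib.MP_79f2f8_an.Cover
open Finset
namespace Pool.Agent.Lib.MP_79f2f8_an

theorem cosC_le_one' {n e : ℂ} (hn : ‖n‖ = 1) (he : ‖e‖ = 1) : cosC n e ≤ 1 := by
  unfold cosC
  calc (e * (starRingEnd ℂ) n).re ≤ ‖e * (starRingEnd ℂ) n‖ := Complex.re_le_norm _
    _ = 1 := by simp [hn, he]

theorem gainK_nonneg {K : ℕ} {C : ℝ} (h : C ≤ 1) : 0 ≤ gainK K C := by
  unfold gainK
  have h1 : max C (Real.exp (-(K : ℝ))) ≤ 1 :=
    max_le h (Real.exp_le_one_iff.2 (by simp))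
  have h2 : 0 < max C (Real.exp (-(K : ℝ))) := lt_max_of_lt_right (Real.exp_pos _)
  have := Real.log_nonpos h2.le h1
  linarith

theorem gainK_le {K : ℕ} {C : ℝ} : gainK K C ≤ K := by
  unfold gainK
  have h3 : Real.log (Real.exp (-(K : ℝ))) ≤ Real.log (max C (Real.exp (-(K : ℝ)))) :=
    Real.log_le_log (Real.exp_pos _) (le_max_right _ _)
  rw [Real.log_exp] at h3
  linarith

theorem le_exp_neg_gainK {K : ℕ} {C : ℝ} : C ≤ Real.exp (-gainK K C) := by
  unfold gainK
  rw [neg_neg, Real.exp_log (lt_max_of_lt_right (Real.exp_pos _))]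
  exact le_max_left _ _

theorem exp_neg_gainK_of_lt {K : ℕ} {C : ℝ} (h : gainK K C < K) :
    Real.exp (-gainK K C) = C := by
  unfold gainK at h ⊢
  rw [neg_neg, Real.exp_log (lt_max_of_lt_right (Real.exp_pos _))]
  rcases le_or_gt C (Real.exp (-(K : ℝ))) with h1 | h1
  · rw [max_eq_right h1, Real.log_exp] at h
    simp at h
  · exact max_eq_left h1.le

theorem reach_of_sum {K N m : ℕ} (hm : 1 ≤ m) (hNK : N ≤ K) {D : ℕ → ℝ}
    (hD1 : ∀ j, D j ≤ 1)
    (h1 : ∑ l ∈ Ico 1 m, gainK K (D l) < N)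
    (h2 : (N : ℝ) ≤ ∑ l ∈ Icc 1 m, gainK K (D l)) : Reach D m N := by
  have hNK' : (N : ℝ) ≤ K := by exact_mod_cast hNK
  have hlt : ∀ l ∈ Ico 1 m, gainK K (D l) < K := by
    intro l hl
    have : gainK K (D l) ≤ ∑ l ∈ Ico 1 m, gainK K (D l) :=
      single_le_sum (f := fun l => gainK K (D l)) (fun i _ => gainK_nonneg (hD1 i)) hl
    linarith
  have hprod : ∏ j ∈ Ico 1 m, D j = Real.exp (-∑ l ∈ Ico 1 m, gainK K (D l)) := by
    rw [← sum_neg_distrib, Real.exp_sum]
    exact prod_congr rfl fun l hl => (exp_neg_gainK_of_lt (hlt l hl)).symm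
  constructor
  · rw [hprod]
    have hIcc : ∑ l ∈ Icc 1 m, gainK K (D l) = ∑ l ∈ Ico 1 m, gainK K (D l) + gainK K (D m) := by
      have : Icc 1 m = Ico 1 (m + 1) := by
        ext x; simp
      rw [this, sum_Ico_succ_top hm]
    calc D m * Real.exp (-∑ l ∈ Ico 1 m, gainK K (D l))
        ≤ Real.exp (-gainK K (D m)) * Real.exp (-∑ l ∈ Ico 1 m, gainK K (D l)) :=
          mul_le_mul_of_nonneg_right le_exp_neg_gainK (Real.exp_pos _).le
      _ = Real.exp (-∑ l ∈ Icc 1 m, gainK K (D l)) := by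
          rw [← Real.exp_add, hIcc]; ring_nf
      _ ≤ Real.exp (-(N : ℝ)) := Real.exp_le_exp.2 (by linarith)
  · rw [hprod]
    exact Real.exp_le_exp.2 (by linarith)

theorem Orb.shift {F : Type} {c : F → ℂ} {ρ : F → ℝ} {S : Set (F × ℂ × F)} {I : ℤ → F}
    {w n e : ℤ → ℂ} (h : Orb c ρ S I w n e) (i : ℤ) :
    Orb c ρ S (fun j => I (i + j)) (fun j => w (i + j)) (fun j => n (i + j))
      (fun j => e (i + j)) := by
  refine ⟨fun j => h.norm_n _, fun j => h.norm_e _, fun j => ?_, fun j => ?_, fun j => ?_,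
    fun j => h.out _⟩
  · have := h.step (i + j)
    rwa [add_assoc] at this
  · have := h.flight (i + j)
    rwa [add_assoc] at this
  · have := h.refl (i + j)
    rwa [add_assoc] at this

/-- MODULE CW (CoreW.lean): from `NoBad` to bounded averages of the gains (uses `cover_window`
of Cover.lean on `κ j = gainK K (cosC (n j) (e j))`, and translates of the orbit). -/
theorem window_of_noBad {F : Type} (c : F → ℂ) (ρ : F → ℝ) (S : Set (F × ℂ × F)) (A : ℝ)
    (hA : 1 ≤ A) (h : NoBad c ρ S A) :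
    ∃ C : ℝ, 0 < C ∧ ∀ (I : ℤ → F) (w n e : ℤ → ℂ), Orb c ρ S I w n e →
      ∀ (K : ℕ) (a : ℤ) (b : ℕ),
        ∑ j ∈ range b, gainK K (cosC (n (a + j)) (e (a + j))) ≤ C * (b + K + 1) := by
  obtain ⟨C, hC, hcov⟩ := cover_window A hA
  refine ⟨C, hC, ?_⟩
  intro I w n e horb K a b
  have hle1 : ∀ j, cosC (n j) (e j) ≤ 1 := fun j => cosC_le_one' (horb.norm_n j) (horb.norm_e j)
  refine hcov K (fun j => gainK K (cosC (n j) (e j))) (fun j => gainK_nonneg (hle1 j))
    (fun j => gainK_le) ?_ a b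
  intro i N m p hN hm hp h1 h2 h3 h4
  have hNK : N ≤ K := by
    have : (N : ℝ) ≤ K := hN.trans gainK_le
    exact_mod_cast this
  refine h _ _ _ _ (horb.shift i) m p N hm hp ⟨?_, ?_, ?_⟩
  · simp only [add_zero]
    exact le_exp_neg_gainK.trans (Real.exp_le_exp.2 (by linarith [hN]))
  · exact reach_of_sum hm hNK (D := fun j : ℕ => cosC (n (i + (j : ℤ))) (e (i + (j : ℤ))))
      (fun j => hle1 _) h1 h2
  · refine reach_of_sum hp hNK
      (D := fun j : ℕ => cosC (n (i + -(j : ℤ))) (e (i + -(j : ℤ))))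
      (fun j => hle1 _) ?_ ?_
    · simpa only [← sub_eq_add_neg] using h3
    · simpa only [← sub_eq_add_neg] using h4

/-- consequence for periodic non-grazing orbits -/
theorem prod_cos_periodic {F : Type} (c : F → ℂ) (ρ : F → ℝ) (S : Set (F × ℂ × F)) (A : ℝ)
    (hA : 1 ≤ A) (h : NoBad c ρ S A) :
    ∃ C : ℝ, 0 < C ∧ ∀ (I : ℤ → F) (w n e : ℤ → ℂ), Orb c ρ S I w n e →
      ∀ N : ℕ, 0 < N → (∀ j : ℤ, n (j + N) = n j ∧ e (j + N) = e j) →
        (∀ j, 0 < cosC (n j) (e j)) →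
        Real.exp (-(C * N)) ≤ ∏ j ∈ range N, cosC (n (j : ℤ)) (e (j : ℤ)) := by
  obtain ⟨C, hC, hwin⟩ := window_of_noBad c ρ S A hA h
  refine ⟨C, hC, ?_⟩
  intro I w n e horb N hN hper hpos
  set D : ℤ → ℝ := fun j => cosC (n j) (e j) with hD
  have hDper : ∀ (t : ℕ) (j : ℤ), D (j + t * N) = D j := by
    intro t
    induction t with
    | zero => intro j; simp
    | succ t ih =>
      intro j
      have h1 : j + ((t + 1 : ℕ) : ℤ) * (N : ℤ) = (j + t * N) + N := by push_cast; ring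
      rw [h1]
      have h2 : D (j + t * N + N) = D (j + t * N) := by
        simp only [hD]
        rw [(hper _).1, (hper _).2]
      rw [h2, ih]
  -- choose K
  obtain ⟨K, hK⟩ := exists_nat_gt (∑ j ∈ range N, -Real.log (D (j : ℤ)))
  have hlog : ∀ j, 0 ≤ -Real.log (D j) := by
    intro j
    have := Real.log_nonpos (hpos j).le (cosC_le_one' (horb.norm_n j) (horb.norm_e j))
    simp only [hD]; linarith
  have hKj : ∀ j ∈ range N, -Real.log (D (j : ℤ)) < K := by
    intro j hj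
    exact (single_le_sum (f := fun j : ℕ => -Real.log (D (j : ℤ))) (fun i _ => hlog _) hj).trans_lt
      hK
  have hgain : ∀ j ∈ range N, gainK K (D (j : ℤ)) = -Real.log (D (j : ℤ)) := by
    intro j hj
    unfold gainK
    rw [max_eq_left]
    have hp : 0 < D (j : ℤ) := hpos (j : ℤ)
    rw [← Real.exp_log hp]
    exact Real.exp_le_exp.2 (by have := hKj j hj; linarith)
  set s : ℝ := ∑ j ∈ range N, -Real.log (D (j : ℤ)) with hs
  have hsum : ∀ t : ℕ, ∑ j ∈ range (t * N), gainK K (D ((0 : ℤ) + j)) = t * s := by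
    intro t
    induction t with
    | zero => simp
    | succ t ih =>
      rw [Nat.succ_mul, sum_range_add, ih]
      have : ∑ x ∈ range N, gainK K (D ((0 : ℤ) + ((t * N + x : ℕ) : ℤ))) = s := by
        rw [hs]
        refine sum_congr rfl fun x hx => ?_
        have h1 : (0 : ℤ) + ((t * N + x : ℕ) : ℤ) = (x : ℤ) + t * N := by push_cast; ring
        rw [h1, hDper, hgain x hx]
      rw [this]; push_cast; ring
  have hbound : ∀ t : ℕ, (t : ℝ) * s ≤ C * (t * N + K + 1) := by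
    intro t
    have := hwin I w n e horb K 0 (t * N)
    rw [← hsum t]
    push_cast at this
    exact this
  have hsN : s ≤ C * N := by
    by_contra hcon
    push Not at hcon
    obtain ⟨t, ht⟩ := exists_nat_gt (C * (K + 1) / (s - C * N))
    have hpos' : 0 < s - C * N := by linarith
    rw [div_lt_iff₀ hpos'] at ht
    have := hbound t
    nlinarith
  have hprod : ∏ j ∈ range N, D (j : ℤ) = Real.exp (-s) := by
    rw [hs, sum_neg_distrib, neg_neg, Real.exp_sum]
    exact prod_congr rfl fun j _ => (Real.exp_log (hpos _)).symm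
  change Real.exp (-(C * N)) ≤ ∏ j ∈ range N, D (j : ℤ)
  rw [hprod]
  exact Real.exp_le_exp.2 (by linarith)

end Pool.Agent.Lib.MP_79f2f8_an
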