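import Mathlib

/-!
# Union bound (module H)
-/

open MeasureTheory

namespace Pool.Agent.Lib.MP_79f2f8_an

/-- MODULE H (Good.lean): union bound over `m, p, N`. -/
theorem exists_good {X : Type*} [MeasurableSpace X] (μ : Measure X) [IsProbabilityMeasure μ]
    (Bad : ℕ → ℕ → ℕ → Set X) (K Q : ℝ) (hK : 0 ≤ K) (hQ : 1 ≤ Q)
    (h : ∀ m p N, 1 ≤ m → 1 ≤ p →
      μ (Bad m p N) ≤ ENNReal.ofReal (K * Q ^ (m + p) * Real.exp (-(N : ℝ) / 2))) :
    ∃ A : ℝ, 1 ≤ A ∧ ∃ x : X, ∀ m p N : ℕ, 1 ≤ m → 1 ≤ p → A * (m + p) < N → x ∉ Bad m p N := by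
  classical
  set r : ℝ := Real.exp (-1 / 4) with hr
  have hr0 : 0 < r := Real.exp_pos _
  have hr1 : r < 1 := by
    rw [hr]; exact Real.exp_lt_one_iff.mpr (by norm_num)
  set R : ℝ := (1 - r)⁻¹ with hR
  have hRpos : 0 < R := inv_pos.2 (by linarith)
  set δ : ℝ := 1 / (4 * K * R + 2) with hδ
  have hden : 0 < 4 * K * R + 2 := by positivity
  have hδ0 : 0 < δ := by positivity
  have hδ1 : δ ≤ 1 / 2 := by
    rw [hδ]
    exact one_div_le_one_div_of_le (by norm_num) (by nlinarith [mul_nonneg hK hRpos.le])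
  have hsmall : 4 * K * δ ^ 2 * R < 1 := by
    have h1 : δ * (4 * K * R + 2) = 1 := by rw [hδ]; field_simp
    have h2 : 4 * K * R * δ < 1 := by nlinarith
    nlinarith [mul_nonneg hK hRpos.le]
  set A : ℝ := max 1 (4 * Real.log (Q / δ)) with hA
  have hA1 : 1 ≤ A := le_max_left _ _
  have hQδ : Q * Real.exp (-A / 4) ≤ δ := by
    have h1 : Real.log (Q / δ) ≤ A / 4 := by
      have := le_max_right 1 (4 * Real.log (Q / δ))
      linarith
    have h2 : Q / δ ≤ Real.exp (A / 4) := by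
      calc Q / δ = Real.exp (Real.log (Q / δ)) := (Real.exp_log (by positivity)).symm
        _ ≤ Real.exp (A / 4) := Real.exp_le_exp.2 h1
    have h3 : Real.exp (-A / 4) = (Real.exp (A / 4))⁻¹ := by
      rw [← Real.exp_neg]; ring_nf
    rw [h3, ← div_eq_mul_inv, div_le_iff₀ (Real.exp_pos _)]
    rwa [div_le_iff₀ hδ0, mul_comm] at h2
  -- the sets
  set S : ℕ × ℕ × ℕ → Set X := fun t =>
    if A * (((t.1 + 1 : ℕ) : ℝ) + ((t.2.1 + 1 : ℕ) : ℝ)) < (t.2.2 : ℝ)
      then Bad (t.1 + 1) (t.2.1 + 1) t.2.2 else ∅ with hS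
  have hbound : ∀ t : ℕ × ℕ × ℕ, μ (S t) ≤ ENNReal.ofReal K *
      (ENNReal.ofReal δ ^ (t.1 + 1) * (ENNReal.ofReal δ ^ (t.2.1 + 1) *
        ENNReal.ofReal r ^ t.2.2)) := by
    rintro ⟨m, p, N⟩
    simp only [hS]
    split_ifs with hlt
    · refine (h (m + 1) (p + 1) N (by omega) (by omega)).trans ?_
      rw [← ENNReal.ofReal_pow hδ0.le, ← ENNReal.ofReal_pow hδ0.le, ← ENNReal.ofReal_pow hr0.le,
        ← ENNReal.ofReal_mul (by positivity), ← ENNReal.ofReal_mul (by positivity),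
        ← ENNReal.ofReal_mul hK]
      refine ENNReal.ofReal_le_ofReal ?_
      have hs : A * ((m + 1 + (p + 1) : ℕ) : ℝ) ≤ N := by
        push_cast at hlt ⊢
        exact hlt.le
      have e1 : Real.exp (-(N : ℝ) / 2) ≤
          Real.exp (-A / 4) ^ (m + 1 + (p + 1)) * r ^ N := by
        rw [hr, ← Real.exp_nat_mul, ← Real.exp_nat_mul, ← Real.exp_add]
        refine Real.exp_le_exp.2 ?_
        nlinarith
      have e2 : Q ^ (m + 1 + (p + 1)) * Real.exp (-A / 4) ^ (m + 1 + (p + 1)) ≤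
          δ ^ (m + 1 + (p + 1)) := by
        rw [← mul_pow]
        exact pow_le_pow_left₀ (by positivity) hQδ _
      calc K * Q ^ (m + 1 + (p + 1)) * Real.exp (-(N : ℝ) / 2)
          ≤ K * Q ^ (m + 1 + (p + 1)) * (Real.exp (-A / 4) ^ (m + 1 + (p + 1)) * r ^ N) :=
            mul_le_mul_of_nonneg_left e1 (by positivity)
        _ = K * (Q ^ (m + 1 + (p + 1)) * Real.exp (-A / 4) ^ (m + 1 + (p + 1)) * r ^ N) := by
            ring
        _ ≤ K * (δ ^ (m + 1 + (p + 1)) * r ^ N) :=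
            mul_le_mul_of_nonneg_left (mul_le_mul_of_nonneg_right e2 (by positivity)) hK
        _ = K * (δ ^ (m + 1) * (δ ^ (p + 1) * r ^ N)) := by rw [pow_add]; ring
    · simp
  have hgeomδ : ∑' m : ℕ, ENNReal.ofReal δ ^ (m + 1) ≤ ENNReal.ofReal (2 * δ) := by
    have h1 : ∑' m : ℕ, ENNReal.ofReal δ ^ (m + 1) =
        ENNReal.ofReal δ * (1 - ENNReal.ofReal δ)⁻¹ := by
      simp_rw [pow_succ']
      rw [ENNReal.tsum_mul_left, ENNReal.tsum_geometric]
    rw [h1, ← ENNReal.ofReal_one, ← ENNReal.ofReal_sub _ hδ0.le,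
      ← ENNReal.ofReal_inv_of_pos (by linarith), ← ENNReal.ofReal_mul hδ0.le]
    refine ENNReal.ofReal_le_ofReal ?_
    have h2 : (1 - δ)⁻¹ ≤ 2 := by
      rw [inv_le_comm₀ (by linarith) (by norm_num)]
      linarith
    nlinarith
  have hgeomr : ∑' m : ℕ, ENNReal.ofReal r ^ m = ENNReal.ofReal R := by
    rw [ENNReal.tsum_geometric, ← ENNReal.ofReal_one, ← ENNReal.ofReal_sub _ hr0.le,
      ← ENNReal.ofReal_inv_of_pos (by linarith)]
  have htotal : μ (⋃ t, S t) < 1 := by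
    calc μ (⋃ t, S t) ≤ ∑' t, μ (S t) := measure_iUnion_le S
      _ ≤ ∑' t : ℕ × ℕ × ℕ, ENNReal.ofReal K *
          (ENNReal.ofReal δ ^ (t.1 + 1) * (ENNReal.ofReal δ ^ (t.2.1 + 1) *
          ENNReal.ofReal r ^ t.2.2)) := ENNReal.tsum_le_tsum hbound
      _ = ENNReal.ofReal K * ((∑' m : ℕ, ENNReal.ofReal δ ^ (m + 1)) *
          ((∑' m : ℕ, ENNReal.ofReal δ ^ (m + 1)) * ∑' m : ℕ, ENNReal.ofReal r ^ m)) := by
          rw [ENNReal.tsum_mul_left, ENNReal.tsum_prod']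
          simp_rw [ENNReal.tsum_mul_left, ENNReal.tsum_prod', ENNReal.tsum_mul_left,
            ENNReal.tsum_mul_right]
      _ ≤ ENNReal.ofReal K * (ENNReal.ofReal (2 * δ) *
          (ENNReal.ofReal (2 * δ) * ENNReal.ofReal R)) := by
          rw [hgeomr]
          gcongr
      _ = ENNReal.ofReal (4 * K * δ ^ 2 * R) := by
          rw [← ENNReal.ofReal_mul (by positivity), ← ENNReal.ofReal_mul (by positivity),
            ← ENNReal.ofReal_mul hK]
          congr 1; ring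
      _ < 1 := by
          rw [← ENNReal.ofReal_one]
          exact (ENNReal.ofReal_lt_ofReal_iff one_pos).2 hsmall
  refine ⟨A, hA1, ?_⟩
  by_contra hcon
  push Not at hcon
  have huniv : (⋃ t, S t) = Set.univ := by
    refine Set.eq_univ_of_forall fun x => ?_
    obtain ⟨m, p, N, hm, hp, hlt, hx⟩ := hcon x
    refine Set.mem_iUnion.2 ⟨(m - 1, p - 1, N), ?_⟩
    have em : m - 1 + 1 = m := by omega
    have ep : p - 1 + 1 = p := by omega
    simp only [hS, em, ep]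
    rw [if_pos hlt]
    exact hx
  rw [huniv, measure_univ] at htotal
  exact lt_irrefl _ htotal

end Pool.Agent.Lib.MP_79f2f8_an
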