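import Pool.Agent.Lib.MP_79f2f8_an.Vol
import Pool.Agent.Lib.MP_79f2f8_an.Good

/-!
# Covering the bad set by type sets
-/

open Finset MeasureTheory

namespace Pool.Agent.Lib.MP_79f2f8_an

/-- parameters with a bad event at time `0` -/
def BadSet {F : Type} (c : F → ℂ) (R : F → ℝ) (η0 : ℝ) (S : Finset (F × ℂ × F)) (m p N : ℕ) :
    Set (F → unitInterval) :=
  {x | ∃ (I : ℤ → F) (w n e : ℤ → ℂ), Orb c (radx R η0 x) (S : Set (F × ℂ × F)) I w n e ∧
    BadAt (fun j => cosC (n j) (e j)) m p N}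

lemma exists_cells : ∃ T : Finset ℂ, ∀ z : ℂ, ‖z‖ = 1 → ∃ u ∈ T, ‖z - u‖ ≤ 1 / 20 := by
  obtain ⟨t, -, hf, ht⟩ := (isCompact_sphere (0 : ℂ) 1).finite_cover_balls
    (show (0 : ℝ) < 1 / 20 by norm_num)
  refine ⟨hf.toFinset, fun z hz => ?_⟩
  have h1 : z ∈ Metric.sphere (0 : ℂ) 1 := by simpa using hz
  obtain ⟨u, hu, hzu⟩ := Set.mem_iUnion₂.mp (ht h1)
  refine ⟨u, by simpa using hu, ?_⟩
  rw [Metric.mem_ball, dist_eq_norm] at hzu
  exact hzu.le

/-- symbols: step, cells of the next normal and of the velocity, integer part of the gain at the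
next collision -/
abbrev Sym (F : Type) : Type := (F × ℂ × F) × (ℂ × ℂ) × ℕ

/-- the half type given by a finite sequence of symbols -/
def half {F : Type} (i0 : F) (u0 : ℂ) {m : ℕ} (f : Fin m → Sym F) : HalfType F where
  I j := match j with
    | 0 => i0
    | j + 1 => if h : j < m then (f ⟨j, h⟩).1.2.2 else i0
  w j := if h : j < m then (f ⟨j, h⟩).1.2.1 else 0
  u j := match j with
    | 0 => u0
    | j + 1 => if h : j < m then (f ⟨j, h⟩).2.1.1 else 0
  v j := if h : j < m then (f ⟨j, h⟩).2.1.2 else 0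
  g j := match j with
    | 0 => 0
    | j + 1 => if h : j < m then (f ⟨j, h⟩).2.2 else 0

/-- consistency of a sequence of symbols -/
def Cons {F : Type} (i0 : F) (u0 : ℂ) {m : ℕ} (f : Fin m → Sym F) : Prop :=
  (∀ j (h : j < m), (f ⟨j, h⟩).1.1 = (half i0 u0 f).I j) ∧ (half i0 u0 f).g m = 0

lemma Ray.congr {F : Type} {c : F → ℂ} {ρ : F → ℝ} {m : ℕ} {I I' : ℕ → F} {w w' n e : ℕ → ℂ}
    (hI : ∀ j ≤ m, I j = I' j) (hw : ∀ j < m, w j = w' j) (h : Ray c ρ m I w n e) :
    Ray c ρ m I' w' n e where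
  norm_n := h.norm_n
  norm_e := h.norm_e
  flight j hj := by
    rw [← hI j hj.le, ← hI (j + 1) hj, ← hw j hj]; exact h.flight j hj
  refl := h.refl
  out := h.out
  inc := h.inc

variable {F : Type} {c : F → ℂ} {R : F → ℝ} {η0 L0 rm Lm : ℝ}
  {S : Finset (F × ℂ × F)}

/-- the finite alphabet of level `N` -/
def alph [DecidableEq F] (S : Finset (F × ℂ × F)) (T : Finset ℂ) (N : ℕ) : Finset (Sym F) :=
  S ×ˢ ((T ×ˢ T) ×ˢ range (N + 1))

lemma Ray.cosI_nonneg {c : F → ℂ} {ρ : F → ℝ} {m : ℕ} {I : ℕ → F} {w n e : ℕ → ℂ}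
    (h : Ray c ρ m I w n e) {j : ℕ} (h1 : 1 ≤ j) (h2 : j ≤ m) : 0 ≤ cosI n e j := by
  obtain ⟨k, rfl⟩ : ∃ k, j = k + 1 := ⟨j - 1, by omega⟩
  exact h.inc k (by omega)

lemma cosC_abs_le {n e : ℂ} (hn : ‖n‖ = 1) (he : ‖e‖ = 1) : |cosC n e| ≤ 1 := by
  unfold cosC
  refine le_trans (Complex.abs_re_le_norm _) ?_
  rw [norm_mul, Complex.norm_conj, hn, he, one_mul]

lemma Ray.cosI_le_one {c : F → ℂ} {ρ : F → ℝ} {m : ℕ} {I : ℕ → F} {w n e : ℕ → ℂ}
    (h : Ray c ρ m I w n e) {j : ℕ} (h1 : 1 ≤ j) (h2 : j ≤ m) : cosI n e j ≤ 1 := by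
  have := abs_le.mp (cosC_abs_le (h.norm_n j h2) (h.norm_e (j - 1) (by omega)))
  unfold cosI; linarith [this.1]

open Classical in
lemma exists_half [DecidableEq F] (T : Finset ℂ) (hT : ∀ z : ℂ, ‖z‖ = 1 → ∃ u ∈ T, ‖z - u‖ ≤ 1 / 20)
    {ρ : F → ℝ} {m N : ℕ} (hm : 1 ≤ m) {I : ℕ → F} {w n e : ℕ → ℂ} (hR : Ray c ρ m I w n e)
    (hS : ∀ j < m, (I j, w j, I (j + 1)) ∈ S) (hN : Reach (cosI n e) m N) {u0 : ℂ}
    (hu0 : ‖n 0 - u0‖ ≤ 1 / 20) :
    ∃ f : Fin m → Sym F, f ∈ Fintype.piFinset (fun _ : Fin m => alph S T N) ∧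
      Cons (I 0) u0 f ∧ Match c ρ m N (half (I 0) u0 f) n e := by
  have hTn : ∀ j : ℕ, j ≤ m → ∃ u ∈ T, ‖n j - u‖ ≤ 1 / 20 := fun j hj => hT _ (hR.norm_n j hj)
  have hTe : ∀ j : ℕ, j < m → ∃ u ∈ T, ‖e j - u‖ ≤ 1 / 20 := fun j hj => hT _ (hR.norm_e j hj)
  choose! un hun hun' using hTn
  choose! ue hue hue' using hTe
  let G : ℕ → ℕ := fun j => if j < m then ⌊-Real.log (cosI n e j)⌋₊ else 0
  let f : Fin m → Sym F := fun j =>
    ((I j, w j, I (j + 1)), (un (j + 1), ue j), G (j + 1))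
  have hI : ∀ j ≤ m, (half (I 0) u0 f).I j = I j := by
    intro j hj
    cases j with
    | zero => rfl
    | succ j => simp only [half]; rw [dif_pos (by omega)]
  have hw : ∀ j < m, (half (I 0) u0 f).w j = w j := by
    intro j hj
    simp only [half]; rw [dif_pos hj]
  have hu : ∀ j, 1 ≤ j → j ≤ m → (half (I 0) u0 f).u j = un j := by
    intro j hj1 hj
    cases j with
    | zero => omega
    | succ j => simp only [half]; rw [dif_pos (by omega)]
  have hv : ∀ j < m, (half (I 0) u0 f).v j = ue j := by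
    intro j hj
    simp only [half]; rw [dif_pos hj]
  have hg : ∀ j, 1 ≤ j → j ≤ m → (half (I 0) u0 f).g j = G j := by
    intro j hj1 hj
    cases j with
    | zero => omega
    | succ j => simp only [half]; rw [dif_pos (by omega)]
  -- lower bound for the cosines
  have hlow : ∀ j, 1 ≤ j → j < m → Real.exp (-(N : ℝ)) ≤ cosI n e j := by
    intro j h1 h2
    refine le_trans hN.2 ?_
    rw [← Finset.mul_prod_erase (Ico 1 m) (cosI n e) (Finset.mem_Ico.mpr ⟨h1, h2⟩)]
    apply mul_le_of_le_one_right (hR.cosI_nonneg h1 h2.le)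
    apply Finset.prod_le_one
    · intro i hi
      have := Finset.mem_Ico.mp (Finset.mem_of_mem_erase hi)
      exact hR.cosI_nonneg this.1 this.2.le
    · intro i hi
      have := Finset.mem_Ico.mp (Finset.mem_of_mem_erase hi)
      exact hR.cosI_le_one this.1 this.2.le
  have hlog : ∀ j, 1 ≤ j → j < m → 0 ≤ -Real.log (cosI n e j) ∧ -Real.log (cosI n e j) ≤ N := by
    intro j h1 h2
    have h3 := hlow j h1 h2
    have h4 : 0 < cosI n e j := lt_of_lt_of_le (Real.exp_pos _) h3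
    have h5 := Real.log_nonpos h4.le (hR.cosI_le_one h1 h2.le)
    have h6 := Real.log_le_log (Real.exp_pos _) h3
    rw [Real.log_exp] at h6
    constructor <;> linarith
  refine ⟨f, ?_, ⟨?_, ?_⟩, ?_, ?_, ?_, ?_, ?_⟩
  · rw [Fintype.mem_piFinset]
    intro j
    simp only [alph, Finset.mem_product, f]
    refine ⟨hS j j.2, ⟨hun _ (by omega), hue _ j.2⟩, ?_⟩
    rw [Finset.mem_range]
    simp only [G]
    split_ifs with h
    · have := (hlog (j + 1) (by omega) h).2
      have h2 := Nat.floor_le_of_le this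
      omega
    · omega
  · intro j h
    rw [hI j h.le]
  · rw [hg m hm le_rfl]; simp [G]
  · exact Ray.congr (fun j hj => (hI j hj).symm) (fun j hj => (hw j hj).symm) hR
  · intro j hj
    rcases Nat.eq_zero_or_pos j with h | h
    · subst h; exact hu0
    · rw [hu j h hj]; exact hun' j hj
  · intro j hj
    rw [hv j hj]; exact hue' j hj
  · intro j h1 h2
    rw [hg j h1 h2.le]
    have h3 := hlow j h1 h2
    have h4 : 0 < cosI n e j := lt_of_lt_of_le (Real.exp_pos _) h3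
    have hGj : G j = ⌊-Real.log (cosI n e j)⌋₊ := by simp [G, h2]
    have h5 := Nat.floor_le (hlog j h1 h2).1
    have h6 := Nat.lt_floor_add_one (-Real.log (cosI n e j))
    rw [hGj]
    constructor
    · rw [← Real.le_log_iff_exp_le h4]; linarith
    · rw [← Real.log_le_iff_le_exp h4]; linarith
  · exact hN

/-- the weight of a symbol -/
noncomputable def wt {F : Type} (s : Sym F) : ℝ := Real.exp (-(s.2.2 : ℝ) / 4)

lemma wt_prod {m : ℕ} (hm : 1 ≤ m) {N : ℕ} {ρ : F → ℝ} {i0 : F} {u0 : ℂ}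
    {f : Fin m → Sym F} (hf : Cons i0 u0 f) {n e : ℕ → ℂ}
    (hM : Match c ρ m N (half i0 u0 f) n e) :
    Real.exp (-(N : ℝ) / 4) ≤ ∏ j, wt (f j) := by
  obtain ⟨hR, -, -, hg, hN⟩ := hM
  -- the product of the weights as an exponential
  have e1 : ∏ j, wt (f j) = Real.exp (-(∑ j ∈ range m, ((half i0 u0 f).g (j + 1) : ℝ)) / 4) := by
    have : ∀ j : Fin m, wt (f j) = Real.exp (-((half i0 u0 f).g ((j : ℕ) + 1) : ℝ) / 4) := by
      intro j
      simp [wt, half]
    rw [Finset.prod_congr rfl (fun j _ => this j), ← Real.exp_sum]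
    congr 1
    rw [Finset.sum_range, ← Finset.sum_neg_distrib, Finset.sum_div]
  have e2 : ∑ j ∈ range m, ((half i0 u0 f).g (j + 1) : ℝ) =
      ∑ j ∈ Ico 1 m, ((half i0 u0 f).g j : ℝ) := by
    obtain ⟨k, rfl⟩ : ∃ k, m = k + 1 := ⟨m - 1, by omega⟩
    rw [Finset.sum_range_succ, hf.2, Nat.cast_zero, add_zero, Finset.sum_Ico_eq_sum_range]
    simp only [Nat.add_sub_cancel]
    apply Finset.sum_congr rfl
    intro j _; rw [add_comm j 1]
  have h3 : Real.exp (-(N : ℝ)) ≤ Real.exp (-∑ j ∈ Ico 1 m, ((half i0 u0 f).g j : ℝ)) := by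
    refine le_trans hN.2 ?_
    rw [← Finset.sum_neg_distrib, Real.exp_sum]
    apply Finset.prod_le_prod
    · intro j hj
      have := Finset.mem_Ico.mp hj
      exact hR.cosI_nonneg this.1 this.2.le
    · intro j hj
      have := Finset.mem_Ico.mp hj
      exact (hg j this.1 this.2).2
  rw [Real.exp_le_exp] at h3
  rw [e1, e2, Real.exp_le_exp]
  linarith

lemma Cons.steps {m : ℕ} {N : ℕ} [DecidableEq F] {T : Finset ℂ} {i0 : F} {u0 : ℂ}
    {f : Fin m → Sym F}
    (hf : Cons i0 u0 f) (hA : f ∈ Fintype.piFinset (fun _ : Fin m => alph S T N)) :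
    ∀ j < m, ((half i0 u0 f).I j, (half i0 u0 f).w j, (half i0 u0 f).I (j + 1)) ∈ S := by
  intro j hj
  rw [Fintype.mem_piFinset] at hA
  have h1 := hA ⟨j, hj⟩
  simp only [alph, Finset.mem_product] at h1
  have h2 := hf.1 j hj
  have h3 : ((half i0 u0 f).I j, (half i0 u0 f).w j, (half i0 u0 f).I (j + 1)) =
      (f ⟨j, hj⟩).1 := by
    rw [← h2]
    simp [half, hj]
  rw [h3]; exact h1.1

open Classical in
/-- the pieces of the cover -/
noncomputable def Piece (c : F → ℂ) (R : F → ℝ) (η0 : ℝ) (m p N : ℕ) (i0 : F) (u0 : ℂ)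
    (f : Fin m → Sym F) (f' : Fin p → Sym F) : Set (F → unitInterval) :=
  if Cons i0 u0 f ∧ Cons i0 u0 f' then TypeSet c R η0 m p N (half i0 u0 f) (half i0 u0 f') else ∅

lemma volume_piece_le [Fintype F] [DecidableEq F] (H : Setup c R η0 L0 rm Lm S) {m p N : ℕ}
    (hm : 1 ≤ m) (hp : 1 ≤ p) {T : Finset ℂ} {i0 : F} {u0 : ℂ} {f : Fin m → Sym F}
    {f' : Fin p → Sym F}
    (hf : f ∈ Fintype.piFinset (fun _ : Fin m => alph S T N))
    (hf' : f' ∈ Fintype.piFinset (fun _ : Fin p => alph S T N)) :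
    volume (Piece c R η0 m p N i0 u0 f f') ≤
      ENNReal.ofReal (200 * (rm + Lm) / η0 * 2 ^ (m + p) * Real.exp (-(N : ℝ) / 2) *
        ((∏ j, wt (f j)) * ∏ j, wt (f' j))) := by
  unfold Piece
  split_ifs with hc
  swap
  · simp
  obtain ⟨c1, c2⟩ := hc
  rcases Set.eq_empty_or_nonempty (TypeSet c R η0 m p N (half i0 u0 f) (half i0 u0 f')) with h | h
  · rw [h]; simp
  obtain ⟨x, n, e, a, b, M1, M2, -⟩ := h
  have w1 := wt_prod hm c1 M1
  have w2 := wt_prod hp c2 M2
  refine le_trans (volume_typeSet_le H hm hp rfl (c1.steps hf) (c2.steps hf')) ?_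
  apply ENNReal.ofReal_le_ofReal
  have hη := H.hη
  have hrm := rm_pos H i0
  have hLm : 0 < Lm := by
    have h1 := H.up _ (c1.steps hf 0 (by omega))
    have h2 := H.hR ((half i0 u0 f).I 0)
    have h3 := H.hR ((half i0 u0 f).I (0 + 1))
    have h4 := norm_nonneg (c ((half i0 u0 f).I (0 + 1)) + (half i0 u0 f).w 0 -
      c ((half i0 u0 f).I 0))
    simp only at h1
    linarith
  have e1 : Real.exp (-(N : ℝ)) = Real.exp (-(N : ℝ) / 2) *
      (Real.exp (-(N : ℝ) / 4) * Real.exp (-(N : ℝ) / 4)) := by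
    rw [← Real.exp_add, ← Real.exp_add]; congr 1; ring
  have h5 : Real.exp (-(N : ℝ) / 4) * Real.exp (-(N : ℝ) / 4) ≤
      (∏ j, wt (f j)) * ∏ j, wt (f' j) := by
    apply mul_le_mul w1 w2 (Real.exp_pos _).le
    exact le_trans (Real.exp_pos _).le w1
  calc 200 * (rm + Lm) * 2 ^ (m + p) * Real.exp (-(N : ℝ)) / η0
      = 200 * (rm + Lm) / η0 * 2 ^ (m + p) * Real.exp (-(N : ℝ) / 2) *
        (Real.exp (-(N : ℝ) / 4) * Real.exp (-(N : ℝ) / 4)) := by rw [e1]; ring
    _ ≤ _ := by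
      apply mul_le_mul_of_nonneg_left h5
      positivity

lemma sum_wt_alph [DecidableEq F] (S : Finset (F × ℂ × F)) (T : Finset ℂ) (N : ℕ) :
    ∑ s ∈ alph S T N, wt s ≤ S.card * (T.card * T.card) * 5 := by
  unfold alph
  rw [Finset.sum_product]
  have h1 : ∀ x ∈ S, ∑ y ∈ (T ×ˢ T) ×ˢ range (N + 1), wt (x, y) ≤ (T.card * T.card) * 5 := by
    intro x _
    rw [Finset.sum_product]
    have h2 : ∀ y ∈ T ×ˢ T, ∑ g ∈ range (N + 1), wt (x, y, g) ≤ 5 := by
      intro y _
      simp only [wt]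
      have h3 : ∀ g ∈ range (N + 1), Real.exp (-(g : ℝ) / 4) = Real.exp (-1 / 4) ^ g := by
        intro g _
        rw [← Real.exp_nat_mul]; congr 1; ring
      rw [Finset.sum_congr rfl h3]
      have h4 : Real.exp (-1 / 4) ≤ 4 / 5 := by
        have h5 : Real.exp (-1 / 4) = (Real.exp (1 / 4))⁻¹ := by
          rw [← Real.exp_neg]; congr 1; norm_num
        rw [h5]
        have h6 : (5 : ℝ) / 4 ≤ Real.exp (1 / 4) := by
          have := Real.add_one_le_exp (1 / 4 : ℝ); linarith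
        rw [inv_le_comm₀ (Real.exp_pos _) (by norm_num)]
        linarith
      calc ∑ g ∈ range (N + 1), Real.exp (-1 / 4) ^ g
          ≤ ∑ g ∈ range (N + 1), (4 / 5 : ℝ) ^ g := by
            apply Finset.sum_le_sum
            intro g _
            exact pow_le_pow_left₀ (Real.exp_pos _).le h4 g
        _ ≤ 5 := by
            rw [geom_sum_eq (by norm_num)]
            have : 0 ≤ (4 / 5 : ℝ) ^ (N + 1) := by positivity
            rw [div_le_iff_of_neg (by norm_num)]
            linarith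
    calc ∑ y ∈ T ×ˢ T, ∑ g ∈ range (N + 1), wt (x, y, g)
        ≤ ∑ y ∈ T ×ˢ T, (5 : ℝ) := Finset.sum_le_sum h2
      _ = (T.card * T.card) * 5 := by
          rw [Finset.sum_const, Finset.card_product]; simp
  calc ∑ x ∈ S, ∑ y ∈ (T ×ˢ T) ×ˢ range (N + 1), wt (x, y)
      ≤ ∑ x ∈ S, ((T.card * T.card) * 5 : ℝ) := Finset.sum_le_sum h1
    _ = _ := by rw [Finset.sum_const, nsmul_eq_mul]; ring

lemma wt_pos {F : Type} (s : Sym F) : 0 < wt s := Real.exp_pos _

/-! ### from orbits to rays -/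

section rays
variable {ρ : F → ℝ} {S' : Set (F × ℂ × F)} {I : ℤ → F} {w n e : ℤ → ℂ}

lemma mul_conj_one {z : ℂ} (h : ‖z‖ = 1) : z * (starRingEnd ℂ) z = 1 := by
  rw [Complex.mul_conj, Complex.normSq_eq_norm_sq, h]; simp

lemma Orb.cos_inc (O : Orb c ρ S' I w n e) (j : ℤ) :
    -cosC (n (j + 1)) (e j) = cosC (n (j + 1)) (e (j + 1)) := by
  have h1 := mul_conj_one (O.norm_n (j + 1))
  have h2 : e (j + 1) * (starRingEnd ℂ) (n (j + 1)) =
      -(starRingEnd ℂ) (e j * (starRingEnd ℂ) (n (j + 1))) := by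
    rw [O.refl j, map_mul, Complex.conj_conj]
    linear_combination (-(n (j + 1)) * (starRingEnd ℂ) (e j)) * h1
  unfold cosC
  rw [h2]; simp

/-- the future ray of an orbit -/
lemma Orb.future (O : Orb c ρ S' I w n e) (m : ℕ) :
    Ray c ρ m (fun j => I j) (fun j => w j) (fun j => n j) (fun j => e j) where
  norm_n j _ := O.norm_n j
  norm_e j _ := O.norm_e j
  flight j _ := by
    have := O.flight j
    push_cast; exact this
  refl j _ := by
    have := O.refl j
    push_cast; exact this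
  out j _ := O.out j
  inc j _ := by
    have := O.cos_inc j
    push_cast; rw [this]; exact O.out _

lemma Orb.future_cos (O : Orb c ρ S' I w n e) {j : ℕ} (hj : 1 ≤ j) :
    cosI (fun j : ℕ => n j) (fun j : ℕ => e j) j = cosC (n j) (e j) := by
  obtain ⟨k, rfl⟩ : ∃ k, j = k + 1 := ⟨j - 1, by omega⟩
  unfold cosI
  simp only [Nat.add_sub_cancel]
  push_cast
  exact O.cos_inc k

/-- reversal of the reflection law -/
lemma Orb.refl' (O : Orb c ρ S' I w n e) (j : ℤ) :
    -e j = n (j + 1) ^ 2 * (starRingEnd ℂ) (e (j + 1)) := by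
  have h1 := mul_conj_one (O.norm_n (j + 1))
  rw [O.refl j]
  simp only [map_mul, map_neg, map_pow, Complex.conj_conj]
  linear_combination (-(e j) * (1 + n (j + 1) * (starRingEnd ℂ) (n (j + 1)))) * h1 * (-1)

lemma flightVec_neg (c : F → ℂ) (ρ : F → ℝ) (i i' : F) (w n n' : ℂ) :
    flightVec c ρ i' i (-w) n' n = -flightVec c ρ i i' w n n' := by
  unfold flightVec; ring

/-- the past ray of an orbit -/
lemma Orb.past (O : Orb c ρ S' I w n e) (m : ℕ) :
    Ray c ρ m (fun j => I (-j)) (fun j => -w (-j - 1)) (fun j => n (-j)) (fun j => -e (-j - 1)) where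
  norm_n j _ := O.norm_n _
  norm_e j _ := by simpa using O.norm_e (-j - 1)
  flight j _ := by
    have h := O.flight (-j - 1)
    rw [show (-(j : ℤ) - 1 + 1) = -j by ring] at h
    push_cast
    rw [show (-((j : ℤ) + 1)) = -j - 1 by ring, flightVec_neg, norm_neg, mul_neg, neg_inj]
    exact h
  refl j _ := by
    have h := O.refl' (-j - 1 - 1)
    rw [show (-(j : ℤ) - 1 - 1 + 1) = -j - 1 by ring] at h
    push_cast
    rw [show (-((j : ℤ) + 1)) = -j - 1 by ring, h, map_neg]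
    ring
  out j _ := by
    have h := O.cos_inc (-j - 1)
    rw [show (-(j : ℤ) - 1 + 1) = -j by ring] at h
    have h2 := O.out (-j)
    have h3 : cosC (n (-j)) (-e (-j - 1)) = -cosC (n (-j)) (e (-j - 1)) := by
      unfold cosC; simp
    rw [h3, h]; exact h2
  inc j _ := by
    have h2 := O.out (-j - 1)
    have h3 : cosC (n (-((j + 1 : ℕ) : ℤ))) (-e (-j - 1)) = -cosC (n (-j - 1)) (e (-j - 1)) := by
      push_cast
      rw [show (-((j : ℤ) + 1)) = -j - 1 by ring]
      unfold cosC; simp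
    rw [h3, neg_neg]; exact h2

lemma Orb.past_cos (O : Orb c ρ S' I w n e) {j : ℕ} (hj : 1 ≤ j) :
    cosI (fun j : ℕ => n (-j)) (fun j : ℕ => -e (-j - 1)) j = cosC (n (-j)) (e (-j)) := by
  obtain ⟨k, rfl⟩ : ∃ k, j = k + 1 := ⟨j - 1, by omega⟩
  unfold cosI
  simp only [Nat.add_sub_cancel]
  push_cast
  rw [show (-((k : ℤ) + 1)) = -k - 1 by ring]
  unfold cosC; simp

lemma Reach.congr {C C' : ℕ → ℝ} {m N : ℕ} (hm : 1 ≤ m) (h : ∀ j, 1 ≤ j → C j = C' j)
    (H : Reach C m N) : Reach C' m N := by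
  have e1 : ∏ j ∈ Ico 1 m, C j = ∏ j ∈ Ico 1 m, C' j :=
    Finset.prod_congr rfl fun j hj => h j (Finset.mem_Ico.mp hj).1
  unfold Reach at *
  rw [← h m hm, ← e1]; exact H

end rays

/-- every bad parameter lies in a piece -/
lemma badSet_subset [Fintype F] [DecidableEq F] (H : Setup c R η0 L0 rm Lm S) {m p N : ℕ}
    (hm : 1 ≤ m) (hp : 1 ≤ p) {T : Finset ℂ}
    (hT : ∀ z : ℂ, ‖z‖ = 1 → ∃ u ∈ T, ‖z - u‖ ≤ 1 / 20) :
    BadSet c R η0 S m p N ⊆ ⋃ i0 ∈ (Finset.univ : Finset F), ⋃ u0 ∈ T,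
      ⋃ f ∈ Fintype.piFinset (fun _ : Fin m => alph S T N),
      ⋃ f' ∈ Fintype.piFinset (fun _ : Fin p => alph S T N), Piece c R η0 m p N i0 u0 f f' := by
  rintro x ⟨I, w, n, e, O, hC0, hF, hP⟩
  obtain ⟨u0, hu0, hu0'⟩ := hT _ (O.norm_n 0)
  have hF' : Reach (cosI (fun j : ℕ => n j) (fun j : ℕ => e j)) m N :=
    Reach.congr hm (fun j hj => (O.future_cos hj).symm) hF
  have hP' : Reach (cosI (fun j : ℕ => n (-j)) (fun j : ℕ => -e (-j - 1))) p N :=
    Reach.congr hp (fun j hj => (O.past_cos hj).symm) hP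
  obtain ⟨f, hf, c1, M1⟩ := exists_half T hT hm (O.future m) (S := S)
    (fun j _ => by
      have := O.step j
      push_cast; exact this) hF' (u0 := u0) (by simpa using hu0')
  obtain ⟨f', hf', c2, M2⟩ := exists_half T hT hp (O.past p) (S := S)
    (fun j _ => by
      have h := O.step (-j - 1)
      rw [show (-(j : ℤ) - 1 + 1) = -j by ring] at h
      have := H.sym _ h
      push_cast
      rw [show (-((j : ℤ) + 1)) = -j - 1 by ring]
      exact this) hP' (u0 := u0) (by simpa using hu0')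
  simp only [Set.mem_iUnion]
  refine ⟨I 0, Finset.mem_univ _, u0, hu0, f, hf, f', hf', ?_⟩
  have c1' : Cons (I 0) u0 f := by simpa using c1
  have c2' : Cons (I 0) u0 f' := by simpa using c2
  unfold Piece
  rw [if_pos ⟨c1', c2'⟩]
  refine ⟨fun j => ⟨n j, by simpa [Submonoid.unitSphere] using O.norm_n j⟩,
    fun j => ⟨e j, by simpa [Submonoid.unitSphere] using O.norm_e j⟩,
    fun j => ⟨n (-j), by simpa [Submonoid.unitSphere] using O.norm_n (-j)⟩,
    fun j => ⟨-e (-j - 1), by simpa [Submonoid.unitSphere] using O.norm_e (-j - 1)⟩, ?_, ?_, ?_, ?_, ?_⟩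
  · simpa using M1
  · simpa using M2
  · simp
  · have := O.refl' (-1)
    simpa using this
  · simpa using hC0

theorem volume_badSet_le [Fintype F] [DecidableEq F] (H : Setup c R η0 L0 rm Lm S) :
    ∃ K Q : ℝ, 0 ≤ K ∧ 1 ≤ Q ∧ ∀ m p N : ℕ, 1 ≤ m → 1 ≤ p →
      volume (BadSet c R η0 S m p N) ≤
        ENNReal.ofReal (K * Q ^ (m + p) * Real.exp (-(N : ℝ) / 2)) := by
  obtain ⟨T, hT⟩ := exists_cells
  set q : ℝ := S.card * (T.card * T.card) * 5 + 1 with hq
  have hq1 : 1 ≤ q := by rw [hq]; have : 0 ≤ (S.card : ℝ) * (T.card * T.card) * 5 := by positivity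
                         linarith
  set K0 : ℝ := |200 * (rm + Lm) / η0| with hK0
  refine ⟨(Fintype.card F) * T.card * K0, 2 * q, by positivity, by linarith, ?_⟩
  intro m p N hm hp
  refine le_trans (measure_mono (badSet_subset H hm hp hT)) ?_
  set P := Fintype.piFinset (fun _ : Fin m => alph S T N)
  set P' := Fintype.piFinset (fun _ : Fin p => alph S T N)
  have h1 : ∀ (k : ℕ), ∑ f ∈ Fintype.piFinset (fun _ : Fin k => alph S T N), ∏ j, wt (f j) ≤ q ^ k := by
    intro k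
    rw [← Finset.prod_univ_sum]
    simp only [Finset.prod_const, Finset.card_univ, Fintype.card_fin]
    apply pow_le_pow_left₀
    · exact Finset.sum_nonneg fun s _ => (wt_pos s).le
    · have := sum_wt_alph (F := F) S T N
      linarith
  have h2 : ∀ i0 : F, ∀ u0 : ℂ, volume (⋃ f ∈ P, ⋃ f' ∈ P', Piece c R η0 m p N i0 u0 f f') ≤
      ENNReal.ofReal (K0 * 2 ^ (m + p) * Real.exp (-(N : ℝ) / 2) * (q ^ m * q ^ p)) := by
    intro i0 u0
    calc volume (⋃ f ∈ P, ⋃ f' ∈ P', Piece c R η0 m p N i0 u0 f f')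
        ≤ ∑ f ∈ P, ∑ f' ∈ P', volume (Piece c R η0 m p N i0 u0 f f') := by
          refine le_trans (measure_biUnion_finset_le _ _) ?_
          apply Finset.sum_le_sum
          intro f _
          exact measure_biUnion_finset_le _ _
      _ ≤ ∑ f ∈ P, ∑ f' ∈ P', ENNReal.ofReal (K0 * 2 ^ (m + p) * Real.exp (-(N : ℝ) / 2) *
            ((∏ j, wt (f j)) * ∏ j, wt (f' j))) := by
          apply Finset.sum_le_sum
          intro f hf
          apply Finset.sum_le_sum
          intro f' hf'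
          refine le_trans (volume_piece_le H hm hp hf hf') ?_
          apply ENNReal.ofReal_le_ofReal
          have h5 : 0 ≤ (∏ j, wt (f j)) * ∏ j, wt (f' j) :=
            mul_nonneg (Finset.prod_nonneg fun j _ => (wt_pos _).le)
              (Finset.prod_nonneg fun j _ => (wt_pos _).le)
          have h6 : 200 * (rm + Lm) / η0 ≤ K0 := le_abs_self _
          gcongr
      _ = ENNReal.ofReal (∑ f ∈ P, ∑ f' ∈ P', K0 * 2 ^ (m + p) * Real.exp (-(N : ℝ) / 2) *
            ((∏ j, wt (f j)) * ∏ j, wt (f' j))) := by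
          have h7 : ∀ (f : Fin m → Sym F) (f' : Fin p → Sym F),
              0 ≤ K0 * 2 ^ (m + p) * Real.exp (-(N : ℝ) / 2) *
              ((∏ j, wt (f j)) * ∏ j, wt (f' j)) := fun f f' =>
            mul_nonneg (by positivity) (mul_nonneg (Finset.prod_nonneg fun j _ => (wt_pos _).le)
              (Finset.prod_nonneg fun j _ => (wt_pos _).le))
          rw [ENNReal.ofReal_sum_of_nonneg]
          · apply Finset.sum_congr rfl
            intro f _
            rw [ENNReal.ofReal_sum_of_nonneg]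
            intro f' _; exact h7 f f'
          · intro f _
            exact Finset.sum_nonneg fun f' _ => h7 f f'
      _ ≤ _ := by
          apply ENNReal.ofReal_le_ofReal
          have e1 : ∑ f ∈ P, ∑ f' ∈ P', K0 * 2 ^ (m + p) * Real.exp (-(N : ℝ) / 2) *
            ((∏ j, wt (f j)) * ∏ j, wt (f' j)) = K0 * 2 ^ (m + p) * Real.exp (-(N : ℝ) / 2) *
              ((∑ f ∈ P, ∏ j, wt (f j)) * ∑ f' ∈ P', ∏ j, wt (f' j)) := by
            rw [Finset.sum_mul_sum, Finset.mul_sum]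
            apply Finset.sum_congr rfl
            intro f _
            rw [Finset.mul_sum]
          rw [e1]
          apply mul_le_mul_of_nonneg_left _ (by positivity)
          apply mul_le_mul (h1 m) (h1 p) _ (by positivity)
          exact Finset.sum_nonneg fun f _ => Finset.prod_nonneg fun j _ => (wt_pos _).le
  calc volume (⋃ i0 ∈ (Finset.univ : Finset F), ⋃ u0 ∈ T, ⋃ f ∈ P, ⋃ f' ∈ P',
        Piece c R η0 m p N i0 u0 f f')
      ≤ ∑ i0 ∈ (Finset.univ : Finset F), ∑ u0 ∈ T,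
        ENNReal.ofReal (K0 * 2 ^ (m + p) * Real.exp (-(N : ℝ) / 2) * (q ^ m * q ^ p)) := by
        refine le_trans (measure_biUnion_finset_le _ _) ?_
        apply Finset.sum_le_sum
        intro i0 _
        refine le_trans (measure_biUnion_finset_le _ _) ?_
        apply Finset.sum_le_sum
        intro u0 _
        exact h2 i0 u0
    _ = ENNReal.ofReal ((Fintype.card F) * T.card * K0 * (2 * q) ^ (m + p) *
        Real.exp (-(N : ℝ) / 2)) := by
        simp only [Finset.sum_const, Finset.card_univ, nsmul_eq_mul]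
        rw [← ENNReal.ofReal_natCast, ← ENNReal.ofReal_natCast, ← ENNReal.ofReal_mul (by positivity),
          ← ENNReal.ofReal_mul (by positivity)]
        congr 1
        rw [mul_pow, pow_add q]; ring
    _ ≤ _ := le_rfl

/-- existence of good parameters -/
theorem exists_noBad [Fintype F] [DecidableEq F] (H : Setup c R η0 L0 rm Lm S) :
    ∃ A : ℝ, 1 ≤ A ∧ ∃ x : F → unitInterval,
      NoBad c (radx R η0 x) (S : Set (F × ℂ × F)) A := by
  obtain ⟨K, Q, hK, hQ, h⟩ := volume_badSet_le H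
  obtain ⟨A, hA, x, hx⟩ := exists_good (volume : Measure (F → unitInterval))
    (BadSet c R η0 S) K Q hK hQ h
  refine ⟨A, hA, x, ?_⟩
  intro I w n e O m p N hm hp hb
  by_contra hc
  push Not at hc
  exact hx m p N hm hp hc ⟨I, w, n, e, O, hb⟩

end Pool.Agent.Lib.MP_79f2f8_an
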