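import Pool.Agent.Lib.MP_79f2f8_an.DynA

/-!
# The billiard map of a table of round disks, part 2 (module E, by helper32)
-/

open Complex Filter Topology

namespace Pool.Agent.Lib.MP_79f2f8_an
namespace DiskTable

variable {B : DiskTable}

lemma move_v_norm (x : B.State) (w : ℝ × ℝ) (hv : ‖x.v‖ = 1) : ‖(x.move w).v‖ = 1 := by
  show ‖x.v * exp (w.2 * I)‖ = 1
  rw [norm_mul, hv, Complex.norm_exp_ofReal_mul_I, mul_one]

lemma move_n_norm (x : B.State) (w : ℝ × ℝ) (hn : ‖x.n‖ = 1) : ‖(x.move w).n‖ = 1 := by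
  show ‖x.n * exp (w.1 * I)‖ = 1
  rw [norm_mul, hn, Complex.norm_exp_ofReal_mul_I, mul_one]

lemma move_zero (x : B.State) : x.move 0 = x := by
  unfold State.move; simp

lemma differentiable_coe {f : ℝ × ℝ → ℝ} (hf : Differentiable ℝ f) :
    Differentiable ℝ (fun w => (f w : ℂ)) := Complex.ofRealCLM.differentiable.comp hf

lemma differentiable_n (x : B.State) : Differentiable ℝ (fun w => (x.move w).n) := by
  show Differentiable ℝ (fun w : ℝ × ℝ => x.n * exp ((w.1 : ℂ) * I))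
  have h1 : Differentiable ℝ (fun w : ℝ × ℝ => (w.1 : ℂ)) := differentiable_coe (by fun_prop)
  exact ((h1.mul_const I).cexp).const_mul _

lemma differentiable_v (x : B.State) : Differentiable ℝ (fun w => (x.move w).v) := by
  show Differentiable ℝ (fun w : ℝ × ℝ => x.v * exp ((w.2 : ℂ) * I))
  have h1 : Differentiable ℝ (fun w : ℝ × ℝ => (w.2 : ℂ)) := differentiable_coe (by fun_prop)
  exact ((h1.mul_const I).cexp).const_mul _

lemma differentiable_pos (x : B.State) : Differentiable ℝ (fun w => (x.move w).pos) := by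
  show Differentiable ℝ (fun w : ℝ × ℝ => B.center x.i + B.radius x.i * (x.move w).n)
  exact ((differentiable_n x).const_mul _).const_add _

lemma differentiable_dot {f g : ℝ × ℝ → ℂ} (hf : Differentiable ℝ f) (hg : Differentiable ℝ g) :
    Differentiable ℝ (fun w => (f w * (starRingEnd ℂ) (g w)).re) := by
  have h1 : Differentiable ℝ (fun w => (starRingEnd ℂ) (g w)) :=
    Complex.conjCLE.differentiable.comp hg
  exact Complex.reCLM.differentiable.comp (hf.mul h1)

/-- local form of the billiard map near a non-grazing point with non-grazing image -/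
lemma local_form {x y : B.State} (hx : x ∈ B.M) (hy : B.Next x y) (h0 : 0 < x.cosφ)
    (h1 : 0 < y.cosφ) :
    ∃ (t : ℝ) (k : ℤ × ℤ) (s : ℝ × ℝ → ℝ) (m : ℝ × ℝ → ℂ), 0 < t ∧
      x.pos + t * x.v = y.pos + lat k ∧
      (∀ s : ℝ, 0 < s → s < t → ∀ i k, ¬ B.InDisk i k (x.pos + s * x.v)) ∧
      DifferentiableAt ℝ s 0 ∧ DifferentiableAt ℝ m 0 ∧ s 0 = t ∧ m 0 = y.n ∧
      ∀ᶠ w in 𝓝 (0 : ℝ × ℝ), ‖m w‖ = 1 ∧
        (x.move w).pos + s w * (x.move w).v = B.center y.i + B.radius y.i * m w + lat k ∧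
        x.move w ∈ B.M ∧
        B.Next (x.move w) ⟨y.i, m w, (x.move w).v -
          (2 * ((x.move w).v * (starRingEnd ℂ) (m w)).re : ℝ) * m w⟩ := by
  obtain ⟨hn, hv, hc⟩ := id hx
  obtain ⟨⟨hn', hv', hc'⟩, t, ht, ⟨k, hk⟩, hfree, hyv⟩ := id hy
  set c' : ℂ := B.center y.i + lat k with hc'def
  set ρ' : ℝ := B.radius y.i with hρ'def
  have hρ' : 0 < ρ' := B.radius_pos y.i
  have hρ'c : (ρ' : ℂ) ≠ 0 := by exact_mod_cast hρ'.ne'
  have hcos : (x.v * (starRingEnd ℂ) y.n).re = - y.cosφ := by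
    unfold State.cosφ
    rw [hyv, reflect_re _ _ hn']; ring
  set V : ℝ × ℝ → ℂ := fun w => (x.move w).v with hVdef
  set A : ℝ × ℝ → ℂ := fun w => (x.move w).pos - c' with hAdef
  have hV : Differentiable ℝ V := differentiable_v x
  have hA : Differentiable ℝ A := (differentiable_pos x).sub_const _
  have hV1 : ∀ w, ‖V w‖ = 1 := fun w => move_v_norm x w hv
  set P : ℝ × ℝ → ℝ := fun w => (V w * (starRingEnd ℂ) (A w)).re with hPdef
  have hP : Differentiable ℝ P := differentiable_dot hV hA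
  set D : ℝ × ℝ → ℝ := fun w => P w ^ 2 - (‖A w‖ ^ 2 - ρ' ^ 2) with hDdef
  have hD : Differentiable ℝ D := (hP.pow 2).sub ((hA.norm_sq ℝ).sub_const _)
  have hV0 : V 0 = x.v := by rw [hVdef]; simp only [move_zero]
  have hA0 : A 0 = ρ' * y.n + ((-t : ℝ) : ℂ) * x.v := by
    rw [hAdef]
    simp only [move_zero]
    have : x.pos = B.center y.i + ρ' * y.n + lat k - t * x.v := by
      have h2 : y.pos = B.center y.i + ρ' * y.n := rfl
      rw [← h2, ← hk]; ring
    rw [this, hc'def]; push_cast; ring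
  have hvn : (x.v * (starRingEnd ℂ) (ρ' * y.n)).re = - (ρ' * y.cosφ) := by
    rw [map_mul, Complex.conj_ofReal]
    have : x.v * (ρ' * (starRingEnd ℂ) y.n) = (ρ' : ℂ) * (x.v * (starRingEnd ℂ) y.n) := by ring
    rw [this, Complex.re_ofReal_mul, hcos]; ring
  have hP0 : P 0 = -(ρ' * y.cosφ) - t := by
    show (V 0 * (starRingEnd ℂ) (A 0)).re = _
    rw [hV0, hA0, map_add, mul_add, Complex.add_re, hvn, map_mul, Complex.conj_ofReal]
    have h2 : x.v * (((-t : ℝ) : ℂ) * (starRingEnd ℂ) x.v) =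
        ((-t : ℝ) : ℂ) * (x.v * (starRingEnd ℂ) x.v) := by ring
    rw [h2, Complex.mul_conj, Complex.normSq_eq_norm_sq, hv]
    simp
    ring
  have hA0n : ‖A 0‖ ^ 2 = ρ' ^ 2 + 2 * t * (ρ' * y.cosφ) + t ^ 2 := by
    rw [hA0, norm_add_sq, hvn, hv, norm_mul, hn', Complex.norm_real, Real.norm_eq_abs,
      abs_of_pos hρ']
    ring
  have hD0 : D 0 = (ρ' * y.cosφ) ^ 2 := by
    show P 0 ^ 2 - (‖A 0‖ ^ 2 - ρ' ^ 2) = _
    rw [hP0, hA0n]; ring
  have hρc : 0 < ρ' * y.cosφ := by positivity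
  have hD0' : 0 < D 0 := by rw [hD0]; positivity
  set s : ℝ × ℝ → ℝ := fun w => - P w - √(D w) with hsdef
  have hs : DifferentiableAt ℝ s 0 := (hP 0).neg.sub ((hD 0).sqrt hD0'.ne')
  have hs0 : s 0 = t := by
    show - P 0 - √(D 0) = t
    rw [hP0, hD0, Real.sqrt_sq hρc.le]; ring
  set m : ℝ × ℝ → ℂ := fun w => (A w + s w * V w) / ρ' with hmdef
  have hsC : DifferentiableAt ℝ (fun w => (s w : ℂ)) 0 :=
    Complex.ofRealCLM.differentiableAt.comp (0 : ℝ × ℝ) hs
  have hm : DifferentiableAt ℝ m 0 := by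
    have h2 : DifferentiableAt ℝ (fun w => A w + s w * V w) 0 := (hA 0).add (hsC.mul (hV 0))
    simpa [hmdef, div_eq_mul_inv] using h2.mul_const ((ρ' : ℂ)⁻¹)
  have hm0 : m 0 = y.n := by
    show (A 0 + s 0 * V 0) / ρ' = y.n
    rw [hs0, hV0, hA0]
    field_simp
    push_cast
    ring
  -- the gap to the other lifts
  set q : ℝ → ℂ := fun τ => x.pos + τ * x.v with hq
  have hK : IsCompact (q '' Set.Icc 0 t) := isCompact_Icc.image (by fun_prop)
  obtain ⟨δ, hδ, hgap⟩ := exists_gap (B := B) hK {p | p ≠ (x.i, 0) ∧ p ≠ (y.i, k)} (by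
    rintro ⟨i, l⟩ ⟨hp1, hp2⟩ z ⟨τ, ⟨hτ0, hτt⟩, rfl⟩ hin
    rcases hτ0.eq_or_lt with h | h
    · have h2 : B.InDisk x.i 0 (q τ) := by
        have := pos_inDisk (B := B) hn 0
        rw [lat_zero, add_zero] at this
        rw [hq, ← h]
        simpa using this
      obtain ⟨h3, h4⟩ := inDisk_unique hin h2
      exact hp1 (by rw [← h3, ← h4])
    · rcases hτt.eq_or_lt with h' | h'
      · have h2 : B.InDisk y.i k (q τ) := by
          rw [hq, h']
          show B.InDisk y.i k (x.pos + t * x.v)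
          rw [hk]; exact pos_inDisk hn' k
        obtain ⟨h3, h4⟩ := inDisk_unique hin h2
        exact hp2 (by rw [← h3, ← h4])
      · exact hfree τ h h' i l hin)
  -- eventual properties
  have E1 : ∀ᶠ w in 𝓝 (0 : ℝ × ℝ), 0 < D w :=
    (hD 0).continuousAt.eventually (eventually_gt_nhds hD0')
  have E2 : ∀ᶠ w in 𝓝 (0 : ℝ × ℝ), 0 < s w :=
    hs.continuousAt.eventually (eventually_gt_nhds (by rw [hs0]; exact ht))
  have E3 : ∀ᶠ w in 𝓝 (0 : ℝ × ℝ), 0 < (x.move w).cosφ := by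
    have h2 : Differentiable ℝ (fun w => (x.move w).cosφ) :=
      differentiable_dot hV (differentiable_n x)
    refine (h2 0).continuousAt.eventually (eventually_gt_nhds ?_)
    show 0 < (x.move 0).cosφ
    rw [move_zero]; exact h0
  have E4 : ∀ᶠ w in 𝓝 (0 : ℝ × ℝ), (V w * (starRingEnd ℂ) (m w)).re < 0 := by
    have h2 : ContinuousAt (fun w => (V w * (starRingEnd ℂ) (m w)).re) 0 := by
      have h3 : ContinuousAt (fun w => (starRingEnd ℂ) (m w)) 0 :=
        Complex.continuous_conj.continuousAt.comp hm.continuousAt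
      exact Complex.continuous_re.continuousAt.comp ((hV 0).continuousAt.mul h3)
    refine h2.eventually (eventually_lt_nhds ?_)
    show (V 0 * (starRingEnd ℂ) (m 0)).re < 0
    rw [hV0, hm0, hcos]; linarith
  have E5 : ∀ᶠ w in 𝓝 (0 : ℝ × ℝ), ‖A w - A 0‖ + |s w - t| + t * ‖V w - V 0‖ < δ := by
    have h2 : ContinuousAt (fun w => ‖A w - A 0‖ + |s w - t| + t * ‖V w - V 0‖) 0 := by
      have h3 := (hA 0).continuousAt
      have h4 := (hV 0).continuousAt
      have h5 := hs.continuousAt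
      exact (((h3.sub continuousAt_const).norm).add ((h5.sub continuousAt_const).abs)).add
        ((h4.sub continuousAt_const).norm.const_mul t)
    refine h2.eventually (eventually_lt_nhds ?_)
    show ‖A 0 - A 0‖ + |s 0 - t| + t * ‖V 0 - V 0‖ < δ
    rw [hs0]
    simpa using hδ
  refine ⟨t, k, s, m, ht, hk, hfree, hs, hm, hs0, hm0, ?_⟩
  filter_upwards [E1, E2, E3, E4, E5] with w e1 e2 e3 e4 e5
  have hquad : ∀ τ : ℝ, ‖A w + τ * V w‖ ^ 2 - ρ' ^ 2 = (τ + P w) ^ 2 - D w := by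
    intro τ
    rw [norm_add_sq, hV1]
    show ‖A w‖ ^ 2 + 2 * τ * P w + τ ^ 2 * 1 ^ 2 - ρ' ^ 2 =
      (τ + P w) ^ 2 - (P w ^ 2 - (‖A w‖ ^ 2 - ρ' ^ 2))
    ring
  have hsq : √(D w) ^ 2 = D w := Real.sq_sqrt e1.le
  have hρm : (ρ' : ℂ) * m w = A w + s w * V w := by
    rw [hmdef]; field_simp
  have hm1 : ‖m w‖ = 1 := by
    have h2 : ‖A w + s w * V w‖ ^ 2 = ρ' ^ 2 := by
      have h3 := hquad (s w)
      have h4 : (s w + P w) ^ 2 = D w := by
        have : s w + P w = -√(D w) := by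
          show - P w - √(D w) + P w = _
          ring
        rw [this, neg_sq, hsq]
      linarith
    have h3 : ‖A w + s w * V w‖ = ρ' :=
      (pow_left_inj₀ (norm_nonneg _) hρ'.le two_ne_zero).mp h2
    show ‖(A w + s w * V w) / ρ'‖ = 1
    rw [norm_div, h3, Complex.norm_real, Real.norm_eq_abs, abs_of_pos hρ', div_self hρ'.ne']
  have hpos : (x.move w).pos + s w * (x.move w).v =
      B.center y.i + B.radius y.i * m w + lat k := by
    have h2 : (x.move w).pos = A w + c' := by rw [hAdef]; ring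
    rw [h2]
    show A w + c' + s w * V w = B.center y.i + ρ' * m w + lat k
    rw [hρm, hc'def]; ring
  have hxM : x.move w ∈ B.M := ⟨move_n_norm x w hn, hV1 w, e3.le⟩
  refine ⟨hm1, hpos, hxM, ⟨hm1, ?_, ?_⟩, s w, e2, ⟨k, hpos⟩, ?_, rfl⟩
  · show ‖V w - (2 * (V w * (starRingEnd ℂ) (m w)).re : ℝ) * m w‖ = 1
    rw [reflect_norm _ _ hm1, hV1]
  · show 0 ≤ ((V w - (2 * (V w * (starRingEnd ℂ) (m w)).re : ℝ) * m w) *
      (starRingEnd ℂ) (m w)).re
    rw [reflect_re _ _ hm1]; linarith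
  · intro τ hτ hτs j l hin
    by_cases hp1 : (j, l) = (x.i, (0 : ℤ × ℤ))
    · rw [Prod.mk.injEq] at hp1
      obtain ⟨h2, h3⟩ := hp1
      subst h2 h3
      exact own_free hxM hτ hin
    by_cases hp2 : (j, l) = (y.i, k)
    · rw [Prod.mk.injEq] at hp2
      obtain ⟨h2, h3⟩ := hp2
      subst h2 h3
      unfold InDisk at hin
      have h4 : (x.move w).pos + τ * (x.move w).v - (B.center y.i + lat l) =
          A w + τ * V w := by
        rw [hAdef, hc'def]; ring
      rw [h4] at hin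
      have h5 : ‖A w + τ * V w‖ ^ 2 ≤ ρ' ^ 2 := pow_le_pow_left₀ (norm_nonneg _) hin 2
      have h6 := hquad τ
      have h7 : τ + P w < -√(D w) := by
        have : s w = - P w - √(D w) := rfl
        linarith
      have h8 : D w < (τ + P w) ^ 2 := by
        have h9 := Real.sqrt_nonneg (D w)
        nlinarith
      linarith
    · have hτ'0 : 0 ≤ min τ t := le_min hτ.le ht.le
      have hτ't : min τ t ≤ t := min_le_right _ _
      have h2 := hgap (j, l) ⟨hp1, hp2⟩ (q (min τ t)) ⟨min τ t, ⟨hτ'0, hτ't⟩, rfl⟩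
      simp only at h2
      unfold InDisk at hin
      have h3 : q (min τ t) - (B.center j + lat l) =
          ((x.move w).pos + τ * (x.move w).v - (B.center j + lat l)) -
          ((A w - A 0) + ((τ - min τ t : ℝ) : ℂ) * V w + ((min τ t : ℝ) : ℂ) * (V w - V 0)) := by
        have h4 : A w - A 0 = (x.move w).pos - x.pos := by
          rw [hAdef]; simp only [move_zero]; ring
        rw [h4, hV0, hq]
        push_cast
        ring
      have h4 : |τ - min τ t| ≤ |s w - t| := by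
        rcases le_total τ t with h | h
        · rw [min_eq_left h]; simp
        · rw [min_eq_right h, abs_of_nonneg (by linarith), abs_of_nonneg (by linarith)]
          linarith
      have h5 : ‖(A w - A 0) + ((τ - min τ t : ℝ) : ℂ) * V w +
          ((min τ t : ℝ) : ℂ) * (V w - V 0)‖ ≤
          ‖A w - A 0‖ + |s w - t| + t * ‖V w - V 0‖ := by
        refine (norm_add_le _ _).trans (add_le_add ((norm_add_le _ _).trans
          (add_le_add le_rfl ?_)) ?_)
        · rw [norm_mul, hV1, mul_one, Complex.norm_real, Real.norm_eq_abs]; exact h4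
        · rw [norm_mul, Complex.norm_real, Real.norm_eq_abs, abs_of_nonneg hτ'0]
          exact mul_le_mul_of_nonneg_right hτ't (norm_nonneg _)
      have h6 : ‖q (min τ t) - (B.center j + lat l)‖ ≤
          ‖(x.move w).pos + τ * (x.move w).v - (B.center j + lat l)‖ +
          ‖(A w - A 0) + ((τ - min τ t : ℝ) : ℂ) * V w +
          ((min τ t : ℝ) : ℂ) * (V w - V 0)‖ := by
        rw [h3]; exact norm_sub_le _ _
      linarith

lemma unit_mul_exp_arg {z w : ℂ} (hz : ‖z‖ = 1) (hw : ‖w‖ = 1) :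
    z * exp ((arg (w / z) : ℂ) * I) = w := by
  have hz0 : z ≠ 0 := by
    intro h; rw [h, norm_zero] at hz; exact zero_ne_one hz
  have h1 := Complex.norm_mul_exp_arg_mul_I (w / z)
  rw [norm_div, hz, hw, div_one, Complex.ofReal_one, one_mul] at h1
  rw [h1]; field_simp

lemma arg_expI {θ : ℝ} (h : |θ| < Real.pi) : arg (exp ((θ : ℂ) * I)) = θ := by
  rw [abs_lt] at h
  rw [Complex.exp_mul_I, ← Complex.ofReal_cos, ← Complex.ofReal_sin]
  have := Complex.arg_cos_add_sin_mul_I (θ := θ) ⟨h.1, h.2.le⟩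
  push_cast at this ⊢
  exact this

/-- a state is recovered from its coordinates -/
lemma move_coord {y z : B.State} (hi : z.i = y.i) (hn : ‖y.n‖ = 1) (hv : ‖y.v‖ = 1)
    (hn' : ‖z.n‖ = 1) (hv' : ‖z.v‖ = 1) : y.move (State.coord y z) = z := by
  obtain ⟨i, n, v⟩ := y
  obtain ⟨i', n', v'⟩ := z
  simp only at hi hn hv hn' hv'
  subst hi
  unfold State.move State.coord
  simp only
  rw [unit_mul_exp_arg hn hn', unit_mul_exp_arg hv hv']

/-- derivative of `T` at a non-grazing point with non-grazing image; `t` is the flight time -/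
theorem hasFDerivAt_T_aux (hfh : B.FiniteHorizon) {x : B.State} (hx : x ∈ B.M)
    (h0 : 0 < x.cosφ) (h1 : 0 < (B.T x).cosφ) :
    ∃ (L : ℝ × ℝ →L[ℝ] ℝ × ℝ) (t : ℝ) (k : ℤ × ℤ), 0 < t ∧
      x.pos + t * x.v = (B.T x).pos + lat k ∧
      (∀ s : ℝ, 0 < s → s < t → ∀ i k, ¬ B.InDisk i k (x.pos + s * x.v)) ∧
      HasFDerivAt (fun w => State.coord (B.T x) (B.T (x.move w))) L 0 ∧
      (∀ᶠ w in 𝓝 (0 : ℝ × ℝ), B.T (x.move w) =
        (B.T x).move (State.coord (B.T x) (B.T (x.move w)))) ∧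
      ∀ w, B.radius (B.T x).i * (B.T x).cosφ * (L w).1 =
          -(B.radius x.i * x.cosφ * w.1 + t * w.2) ∧
        (L w).2 = 2 * (L w).1 - w.2 := by
  have hy := next_T hfh hx
  set y := B.T x with hydef
  obtain ⟨hn, hv, hc⟩ := id hx
  obtain ⟨⟨hn', hv', hc'⟩, -⟩ := id hy
  have hyv : y.v = x.v - (2 * (x.v * (starRingEnd ℂ) y.n).re : ℝ) * y.n := by
    obtain ⟨_, t, _, _, _, h⟩ := hy
    exact h
  have hcos : (x.v * (starRingEnd ℂ) y.n).re = - y.cosφ := by
    unfold State.cosφ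
    rw [hyv, reflect_re _ _ hn']; ring
  rw [reflect_eq _ _ hn'] at hyv
  obtain ⟨t, k, s, m, ht, hk, hfree, hs, hm, hs0, hm0, hev⟩ := local_form hx hy h0 h1
  have hn'0 : y.n ≠ 0 := by
    intro h; rw [h, norm_zero] at hn'; exact zero_ne_one hn'
  have hv0 : x.v ≠ 0 := by
    intro h; rw [h, norm_zero] at hv; exact zero_ne_one hv
  have hcv0 : (starRingEnd ℂ) x.v ≠ 0 := by simpa using hv0
  set b : ℝ × ℝ → ℝ := fun w => arg (m w / y.n) with hbdef
  have hb0 : b 0 = 0 := by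
    show arg (m 0 / y.n) = 0
    rw [hm0, div_self hn'0, Complex.arg_one]
  have hb : DifferentiableAt ℝ b 0 := by
    have h2 : b = fun w => (Complex.log (m w / y.n)).im := by
      ext w; rw [Complex.log_im]
    have h3 : DifferentiableAt ℝ (fun w => m w / y.n) 0 := by
      simpa [div_eq_mul_inv] using hm.mul_const (y.n⁻¹)
    have h4 : DifferentiableAt ℝ Complex.log ((fun w => m w / y.n) 0) := by
      have h5 : (fun w => m w / y.n) 0 = 1 := by
        show m 0 / y.n = 1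
        rw [hm0, div_self hn'0]
      rw [h5]
      exact (Complex.hasStrictFDerivAt_log_real Complex.one_mem_slitPlane).differentiableAt
    rw [h2]
    exact Complex.imCLM.differentiableAt.comp (0 : ℝ × ℝ) (h4.comp (0 : ℝ × ℝ) h3)
  have hDb := hb.hasFDerivAt
  have hDs := hs.hasFDerivAt
  set Db := fderiv ℝ b 0 with hDbdef
  set Ds := fderiv ℝ s 0 with hDsdef
  have hT : ∀ᶠ w in 𝓝 (0 : ℝ × ℝ), B.T (x.move w) = ⟨y.i, m w, (x.move w).v -
          (2 * ((x.move w).v * (starRingEnd ℂ) (m w)).re : ℝ) * m w⟩ := by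
    filter_upwards [hev] with w hw
    exact next_unique hw.2.2.1 (next_T hfh hw.2.2.1) hw.2.2.2
  have e6 : ∀ᶠ w in 𝓝 (0 : ℝ × ℝ), |2 * b w - w.2| < Real.pi := by
    have h2 : ContinuousAt (fun w : ℝ × ℝ => |2 * b w - w.2|) 0 :=
      ((hb.continuousAt.const_mul 2).sub continuous_snd.continuousAt).abs
    refine h2.eventually (eventually_lt_nhds ?_)
    show |2 * b 0 - (0 : ℝ × ℝ).2| < Real.pi
    rw [hb0]; simpa using Real.pi_pos
  have hcoord : ∀ᶠ w in 𝓝 (0 : ℝ × ℝ),
      State.coord y (B.T (x.move w)) = (b w, 2 * b w - w.2) := by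
    filter_upwards [hev, hT, e6] with w hw hTw h6
    obtain ⟨hm1, -, -, -⟩ := hw
    have hmb : m w = y.n * exp ((b w : ℂ) * I) := (unit_mul_exp_arg hn' hm1).symm
    rw [hTw]
    unfold State.coord
    simp only
    rw [reflect_eq _ _ hm1, hyv]
    refine Prod.ext rfl ?_
    show arg (-(m w ^ 2 * (starRingEnd ℂ) (x.v * exp ((w.2 : ℂ) * I))) /
      -(y.n ^ 2 * (starRingEnd ℂ) x.v)) = 2 * b w - w.2
    have h7 : (starRingEnd ℂ) (x.v * exp ((w.2 : ℂ) * I)) =
        (starRingEnd ℂ) x.v * exp (-((w.2 : ℂ) * I)) := by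
      rw [map_mul, ← Complex.exp_conj, map_mul, Complex.conj_ofReal, Complex.conj_I]
      congr 2; ring
    have h8 : -(m w ^ 2 * (starRingEnd ℂ) (x.v * exp ((w.2 : ℂ) * I))) /
      -(y.n ^ 2 * (starRingEnd ℂ) x.v) = exp (((2 * b w - w.2 : ℝ) : ℂ) * I) := by
      rw [h7, hmb, neg_div_neg_eq]
      have h9 : exp (((2 * b w - w.2 : ℝ) : ℂ) * I) =
          exp ((b w : ℂ) * I) ^ 2 * exp (-((w.2 : ℂ) * I)) := by
        rw [← Complex.exp_nat_mul, ← Complex.exp_add]
        congr 1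
        push_cast; ring
      rw [h9]
      field_simp
    rw [h8, arg_expI h6]
  set L : ℝ × ℝ →L[ℝ] ℝ × ℝ := Db.prod ((2 : ℝ) • Db - ContinuousLinearMap.snd ℝ ℝ ℝ) with hL
  have hLd : HasFDerivAt (fun w => State.coord y (B.T (x.move w))) L 0 := by
    have h2 : HasFDerivAt (fun w : ℝ × ℝ => (b w, 2 * b w - w.2)) L 0 :=
      hDb.prodMk ((hDb.const_mul 2).sub hasFDerivAt_snd)
    exact h2.congr_of_eventuallyEq hcoord
  refine ⟨L, t, k, ht, hk, hfree, hLd, ?_, ?_⟩
  · filter_upwards [hev, hT] with w hw hTw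
    obtain ⟨hm1, -, hxM, -⟩ := hw
    refine (move_coord ?_ hn' hv' ?_ ?_).symm
    · rw [hTw]
    · rw [hTw]; exact hm1
    · rw [hTw]
      show ‖(x.move w).v - (2 * ((x.move w).v * (starRingEnd ℂ) (m w)).re : ℝ) * m w‖ = 1
      rw [reflect_norm _ _ hm1, hxM.2.1]
  · intro h
    refine ⟨?_, ?_⟩
    swap
    · rw [hL]; simp
    show B.radius y.i * y.cosφ * Db h = -(B.radius x.i * x.cosφ * h.1 + t * h.2)
    have hline : HasDerivAt (fun τ : ℝ => τ • h) h 0 := by
      simpa using (hasDerivAt_id (0 : ℝ)).smul_const h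
    have hz : (0 : ℝ) • h = 0 := zero_smul _ _
    have hDb' : HasFDerivAt b Db ((0 : ℝ) • h) := by rw [hz]; exact hDb
    have hDs' : HasFDerivAt s Ds ((0 : ℝ) • h) := by rw [hz]; exact hDs
    have hbl : HasDerivAt (fun τ : ℝ => b (τ • h)) (Db h) 0 := by
      have h9 := HasFDerivAt.comp_hasDerivAt (f := fun τ : ℝ => τ • h) (0 : ℝ) hDb' hline
      exact h9
    have hsl : HasDerivAt (fun τ : ℝ => s (τ • h)) (Ds h) 0 := by
      have h9 := HasFDerivAt.comp_hasDerivAt (f := fun τ : ℝ => τ • h) (0 : ℝ) hDs' hline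
      exact h9
    have h1l : HasDerivAt (fun τ : ℝ => (τ • h).1) h.1 0 := by
      simpa using (hasDerivAt_id (0 : ℝ)).mul_const h.1
    have h2l : HasDerivAt (fun τ : ℝ => (τ • h).2) h.2 0 := by
      simpa using (hasDerivAt_id (0 : ℝ)).mul_const h.2
    have hE : ∀ {f : ℝ → ℝ} {f' : ℝ} (c : ℂ), HasDerivAt f f' 0 → f 0 = 0 →
        HasDerivAt (fun τ => c * exp ((f τ : ℂ) * I)) (c * ((f' : ℂ) * I)) 0 := by
      intro f f' c hf hf0
      have h3 := ((hf.ofReal_comp.mul_const I).cexp).const_mul c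
      rw [hf0] at h3
      simpa using h3
    have g1 : HasDerivAt (fun τ : ℝ => B.center y.i + B.radius y.i *
        (y.n * exp ((b (τ • h) : ℂ) * I)) + lat k)
        (B.radius y.i * (y.n * ((Db h : ℂ) * I))) 0 :=
      (((hE y.n hbl (by rw [hz]; exact hb0)).const_mul _).const_add _).add_const _
    have g2 : HasDerivAt (fun τ : ℝ => (B.center x.i + B.radius x.i *
        (x.n * exp (((τ • h).1 : ℂ) * I))) + (s (τ • h) : ℂ) * (x.v * exp (((τ • h).2 : ℂ) * I)))
        (B.radius x.i * (x.n * ((h.1 : ℂ) * I)) +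
          ((Ds h : ℂ) * (x.v * exp ((((0 : ℝ) • h).2 : ℂ) * I)) +
            (s ((0 : ℝ) • h) : ℂ) * (x.v * ((h.2 : ℂ) * I)))) 0 :=
      (((hE x.n h1l (by simp)).const_mul _).const_add _).add
        (hsl.ofReal_comp.mul (hE x.v h2l (by simp)))
    have hτ : Tendsto (fun τ : ℝ => τ • h) (𝓝 0) (𝓝 0) := by
      have := hline.continuousAt.tendsto
      rwa [hz] at this
    have heq : (fun τ : ℝ => B.center y.i + B.radius y.i *
        (y.n * exp ((b (τ • h) : ℂ) * I)) + lat k) =ᶠ[𝓝 0]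
        (fun τ : ℝ => (B.center x.i + B.radius x.i *
        (x.n * exp (((τ • h).1 : ℂ) * I))) +
          (s (τ • h) : ℂ) * (x.v * exp (((τ • h).2 : ℂ) * I))) := by
      filter_upwards [hτ.eventually hev] with τ hw
      obtain ⟨hm1, hp, -, -⟩ := hw
      have hmb : m (τ • h) = y.n * exp ((b (τ • h) : ℂ) * I) := (unit_mul_exp_arg hn' hm1).symm
      rw [← hmb, ← hp]
      rfl
    have hU := (g1.congr_of_eventuallyEq heq.symm).unique g2
    rw [hz, hs0] at hU
    simp only [Prod.snd_zero, Complex.ofReal_zero, zero_mul, Complex.exp_zero, mul_one] at hU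
    have hv2 : x.v.re * x.v.re + x.v.im * x.v.im = 1 := by
      have := Complex.normSq_eq_norm_sq x.v
      rw [hv, Complex.normSq_apply] at this
      linarith
    have c1 : x.cosφ = x.v.re * x.n.re + x.v.im * x.n.im := by
      unfold State.cosφ; simp
    have c2 : y.cosφ = -(x.v.re * y.n.re + x.v.im * y.n.im) := by
      have h3 : (x.v * (starRingEnd ℂ) y.n).re = x.v.re * y.n.re + x.v.im * y.n.im := by simp
      linarith [hcos, h3]
    have hre := congrArg Complex.re hU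
    have him := congrArg Complex.im hU
    simp only [Complex.add_re, Complex.add_im, Complex.mul_re, Complex.mul_im, Complex.ofReal_re,
      Complex.ofReal_im, Complex.I_re, Complex.I_im] at hre him
    rw [c1, c2]
    ring_nf at hre him hv2 ⊢
    linear_combination (-x.v.re) * him + (x.v.im) * hre - t * h.2 * hv2

/-- derivative of `T` at a non-grazing point with non-grazing image; `t` is the flight time -/
theorem hasFDerivAt_T (hfh : B.FiniteHorizon) {x : B.State} (hx : x ∈ B.M)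
    (h0 : 0 < x.cosφ) (h1 : 0 < (B.T x).cosφ) :
    ∃ (L : ℝ × ℝ →L[ℝ] ℝ × ℝ) (t : ℝ) (k : ℤ × ℤ), 0 < t ∧
      x.pos + t * x.v = (B.T x).pos + lat k ∧
      HasFDerivAt (fun w => State.coord (B.T x) (B.T (x.move w))) L 0 ∧
      (∀ᶠ w in 𝓝 (0 : ℝ × ℝ), B.T (x.move w) =
        (B.T x).move (State.coord (B.T x) (B.T (x.move w)))) ∧
      ∀ w, B.radius (B.T x).i * (B.T x).cosφ * (L w).1 =
          -(B.radius x.i * x.cosφ * w.1 + t * w.2) ∧
        (L w).2 = 2 * (L w).1 - w.2 := by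
  obtain ⟨L, t, k, a1, a2, -, a4, a5, a6⟩ := hasFDerivAt_T_aux hfh hx h0 h1
  exact ⟨L, t, k, a1, a2, a4, a5, a6⟩

lemma T_mem (hfh : B.FiniteHorizon) {x : B.State} (hx : x ∈ B.M) : B.T x ∈ B.M :=
  (next_T hfh hx).1

lemma iterate_mem (hfh : B.FiniteHorizon) {x : B.State} (hx : x ∈ B.M) (N : ℕ) :
    B.T^[N] x ∈ B.M := by
  induction N with
  | zero => exact hx
  | succ N ih => rw [Function.iterate_succ_apply']; exact T_mem hfh ih

lemma coord_self {x : B.State} (hn : ‖x.n‖ = 1) (hv : ‖x.v‖ = 1) : State.coord x x = 0 := by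
  have h1 : x.n ≠ 0 := by intro h; rw [h, norm_zero] at hn; exact zero_ne_one hn
  have h2 : x.v ≠ 0 := by intro h; rw [h, norm_zero] at hv; exact zero_ne_one hv
  unfold State.coord
  rw [div_self h1, div_self h2, Complex.arg_one]
  rfl

/-- the base of the induction over the iterates -/
lemma iterate_zero {x : B.State} (hx : x ∈ B.M) :
    HasFDerivAt (fun w => State.coord (B.T^[0] x) (B.T^[0] (x.move w)))
      (ContinuousLinearMap.id ℝ (ℝ × ℝ)) 0 ∧
    ∀ᶠ w in 𝓝 (0 : ℝ × ℝ), B.T^[0] (x.move w) =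
      (B.T^[0] x).move (State.coord (B.T^[0] x) (B.T^[0] (x.move w))) := by
  obtain ⟨hn, hv, -⟩ := hx
  have hn0 : x.n ≠ 0 := by intro h; rw [h, norm_zero] at hn; exact zero_ne_one hn
  have hv0 : x.v ≠ 0 := by intro h; rw [h, norm_zero] at hv; exact zero_ne_one hv
  have e1 : ∀ᶠ w in 𝓝 (0 : ℝ × ℝ), |w.1| < Real.pi :=
    (continuous_fst.abs.continuousAt (x := (0 : ℝ × ℝ))).eventually
      (eventually_lt_nhds (by simpa using Real.pi_pos))
  have e2 : ∀ᶠ w in 𝓝 (0 : ℝ × ℝ), |w.2| < Real.pi :=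
    (continuous_snd.abs.continuousAt (x := (0 : ℝ × ℝ))).eventually
      (eventually_lt_nhds (by simpa using Real.pi_pos))
  have h1 : ∀ᶠ w in 𝓝 (0 : ℝ × ℝ), State.coord x (x.move w) = w := by
    filter_upwards [e1, e2] with w h1 h2
    unfold State.coord State.move
    simp only
    rw [mul_div_cancel_left₀ _ hn0, mul_div_cancel_left₀ _ hv0, arg_expI h1, arg_expI h2]
  simp only [Function.iterate_zero, id]
  refine ⟨(hasFDerivAt_id (0 : ℝ × ℝ)).congr_of_eventuallyEq h1, ?_⟩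
  filter_upwards [h1] with w hw
  rw [hw]

/-- the induction step over the iterates -/
lemma iterate_step (hfh : B.FiniteHorizon) {x : B.State} (hx : x ∈ B.M) (N : ℕ)
    {D L : ℝ × ℝ →L[ℝ] ℝ × ℝ}
    (hD : HasFDerivAt (fun w => State.coord (B.T^[N] x) (B.T^[N] (x.move w))) D 0)
    (hev : ∀ᶠ w in 𝓝 (0 : ℝ × ℝ), B.T^[N] (x.move w) =
      (B.T^[N] x).move (State.coord (B.T^[N] x) (B.T^[N] (x.move w))))
    (hL : HasFDerivAt (fun w => State.coord (B.T (B.T^[N] x)) (B.T ((B.T^[N] x).move w))) L 0)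
    (hLe : ∀ᶠ w in 𝓝 (0 : ℝ × ℝ), B.T ((B.T^[N] x).move w) =
        (B.T (B.T^[N] x)).move (State.coord (B.T (B.T^[N] x)) (B.T ((B.T^[N] x).move w)))) :
    HasFDerivAt (fun w => State.coord (B.T^[N + 1] x) (B.T^[N + 1] (x.move w))) (L.comp D) 0 ∧
    ∀ᶠ w in 𝓝 (0 : ℝ × ℝ), B.T^[N + 1] (x.move w) =
      (B.T^[N + 1] x).move (State.coord (B.T^[N + 1] x) (B.T^[N + 1] (x.move w))) := by
  simp only [Function.iterate_succ_apply']
  set g : ℝ × ℝ → ℝ × ℝ := fun w => State.coord (B.T^[N] x) (B.T^[N] (x.move w)) with hg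
  set f : ℝ × ℝ → ℝ × ℝ :=
    fun w => State.coord (B.T (B.T^[N] x)) (B.T ((B.T^[N] x).move w)) with hf
  have hM := iterate_mem hfh hx N
  have hg0 : g 0 = 0 := by
    show State.coord (B.T^[N] x) (B.T^[N] (x.move 0)) = 0
    rw [move_zero]
    exact coord_self hM.1 hM.2.1
  have hev' : ∀ᶠ w in 𝓝 (0 : ℝ × ℝ), B.T^[N] (x.move w) = (B.T^[N] x).move (g w) := hev
  have hgt : Tendsto g (𝓝 0) (𝓝 0) := by
    have := hD.continuousAt.tendsto
    rwa [hg0] at this
  have h1 : HasFDerivAt (f ∘ g) (L.comp D) 0 := by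
    refine HasFDerivAt.comp (0 : ℝ × ℝ) ?_ hD
    rw [hg0]; exact hL
  refine ⟨h1.congr_of_eventuallyEq ?_, ?_⟩
  · filter_upwards [hev'] with w hw
    rw [hw]
    rfl
  · filter_upwards [hev', hgt.eventually hLe] with w hw hw'
    rw [hw]
    exact hw'

/-- the iterates are differentiable in the charts at non-grazing points -/
theorem iterate_all (hfh : B.FiniteHorizon) {x : B.State} (hx : x ∈ B.M)
    (hng : B.NonGrazing x) (N : ℕ) :
    HasFDerivAt (fun w => State.coord (B.T^[N] x) (B.T^[N] (x.move w))) (B.DT N x) 0 ∧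
    ∀ᶠ w in 𝓝 (0 : ℝ × ℝ), B.T^[N] (x.move w) =
      (B.T^[N] x).move (State.coord (B.T^[N] x) (B.T^[N] (x.move w))) := by
  induction N with
  | zero =>
    obtain ⟨h1, h2⟩ := iterate_zero hx
    exact ⟨h1.differentiableAt.hasFDerivAt, h2⟩
  | succ N ih =>
    obtain ⟨h1, h2⟩ := ih
    have hM := iterate_mem hfh hx N
    have h3 := hng N
    have h4 := hng (N + 1)
    rw [Function.iterate_succ_apply'] at h4
    obtain ⟨L, t, k, a1, a2, a3, a4, a5⟩ := hasFDerivAt_T hfh hM h3 h4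
    obtain ⟨h5, h6⟩ := iterate_step hfh hx N h1 h2 a3 a4
    exact ⟨h5.differentiableAt.hasFDerivAt, h6⟩

/-- the iterates are differentiable in the charts at non-grazing points -/
theorem differentiableAt_iterate (hfh : B.FiniteHorizon) {x : B.State} (hx : x ∈ B.M)
    (hng : B.NonGrazing x) (N : ℕ) :
    DifferentiableAt ℝ (fun w => State.coord (B.T^[N] x) (B.T^[N] (x.move w))) 0 :=
  (iterate_all hfh hx hng N).1.differentiableAt

lemma cosφ_le_one {x : B.State} (hx : x ∈ B.M) : x.cosφ ≤ 1 := by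
  obtain ⟨hn, hv, -⟩ := hx
  unfold State.cosφ
  calc (x.v * (starRingEnd ℂ) x.n).re ≤ ‖x.v * (starRingEnd ℂ) x.n‖ := Complex.re_le_norm _
    _ = 1 := by rw [norm_mul, RCLike.norm_conj, hn, hv, mul_one]

/-- the adapted norm in the chart at `x` -/
noncomputable def nrm (x : B.State) (w : ℝ × ℝ) : ℝ := B.radius x.i * x.cosφ * |w.1| + |w.2|

/-- the derivative of `T` is bounded in the adapted norm -/
lemma exists_nrm_bound (hfh : B.FiniteHorizon) : ∃ K : ℝ, 1 ≤ K ∧ ∀ x ∈ B.M, 0 < x.cosφ →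
    0 < (B.T x).cosφ → ∃ L : ℝ × ℝ →L[ℝ] ℝ × ℝ,
      HasFDerivAt (fun w => State.coord (B.T x) (B.T (x.move w))) L 0 ∧
      (∀ᶠ w in 𝓝 (0 : ℝ × ℝ), B.T (x.move w) =
        (B.T x).move (State.coord (B.T x) (B.T (x.move w)))) ∧
      ∀ w, nrm (B.T x) (L w) ≤ K / (B.T x).cosφ * nrm x w := by
  obtain ⟨l, hl⟩ := id hfh
  obtain ⟨r, hr, hr1, hr'⟩ := B.exists_le_radius
  set H : ℝ := max 1 l with hH
  have hH1 : 1 ≤ H := le_max_left _ _
  refine ⟨H * (1 + 2 / r) + 1, ?_, ?_⟩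
  · have : 0 ≤ H * (1 + 2 / r) := by positivity
    linarith
  intro x hx h0 h1
  obtain ⟨L, t, k, ht, hk, hfree, hL, hLe, hLw⟩ := hasFDerivAt_T_aux hfh hx h0 h1
  refine ⟨L, hL, hLe, fun w => ?_⟩
  obtain ⟨e1, e2⟩ := hLw w
  have htH : t ≤ H := (flight_le hl hx.2.1 hfree).trans (le_max_right _ _)
  have hc1 := cosφ_le_one (T_mem hfh hx)
  have hr2 := hr' (B.T x).i
  set c := (B.T x).cosφ with hc
  set R := B.radius (B.T x).i with hR
  have hRpos : 0 < R := B.radius_pos _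
  have hρ : 0 < B.radius x.i := B.radius_pos _
  have hn0 : 0 ≤ nrm x w := by unfold nrm; positivity
  have b1 : R * c * |(L w).1| ≤ H * nrm x w := by
    have h2 : R * c * |(L w).1| = |B.radius x.i * x.cosφ * w.1 + t * w.2| := by
      rw [← abs_neg (B.radius x.i * x.cosφ * w.1 + t * w.2), ← e1, abs_mul,
        abs_of_pos (mul_pos hRpos h1)]
    rw [h2]
    calc |B.radius x.i * x.cosφ * w.1 + t * w.2|
        ≤ |B.radius x.i * x.cosφ * w.1| + |t * w.2| := abs_add_le _ _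
      _ = B.radius x.i * x.cosφ * |w.1| + t * |w.2| := by
        rw [abs_mul, abs_of_pos (mul_pos hρ h0), abs_mul, abs_of_pos ht]
      _ ≤ H * (B.radius x.i * x.cosφ * |w.1|) + H * |w.2| := by
        have h3 : 0 ≤ B.radius x.i * x.cosφ * |w.1| := by positivity
        have h4 : 0 ≤ |w.2| := abs_nonneg _
        nlinarith
      _ = H * nrm x w := by unfold nrm; ring
  have b2 : |(L w).1| ≤ H * nrm x w / (r * c) := by
    rw [le_div_iff₀ (by positivity)]
    have h3 : 0 ≤ |(L w).1| := abs_nonneg _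
    have h4 : r * c ≤ R * c := mul_le_mul_of_nonneg_right hr2 h1.le
    nlinarith
  have b3 : |(L w).2| ≤ 2 * |(L w).1| + nrm x w := by
    rw [e2]
    calc |2 * (L w).1 - w.2| ≤ |2 * (L w).1| + |w.2| := abs_sub _ _
      _ = 2 * |(L w).1| + |w.2| := by rw [abs_mul]; norm_num
      _ ≤ _ := by
        have : |w.2| ≤ nrm x w := by
          unfold nrm
          have h3 : 0 ≤ B.radius x.i * x.cosφ * |w.1| := by positivity
          linarith
        linarith
  have b4 : nrm (B.T x) (L w) ≤ H * nrm x w + 2 * (H * nrm x w / (r * c)) + nrm x w := by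
    have : nrm (B.T x) (L w) = R * c * |(L w).1| + |(L w).2| := rfl
    rw [this]; linarith
  refine b4.trans ?_
  have h5 : (H * (1 + 2 / r) + 1) / c * nrm x w =
      H * nrm x w / c + 2 * (H * nrm x w / (r * c)) + nrm x w / c := by
    field_simp
  rw [h5]
  have h6 : H * nrm x w ≤ H * nrm x w / c := by
    rw [le_div_iff₀ h1]
    have : 0 ≤ H * nrm x w := by positivity
    nlinarith
  have h7 : nrm x w ≤ nrm x w / c := by
    rw [le_div_iff₀ h1]; nlinarith
  linarith

/-- the bound for the eigenvalues -/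
theorem eigen_bound (hfh : B.FiniteHorizon) : ∃ K : ℝ, 1 ≤ K ∧ ∀ x ∈ B.M, B.NonGrazing x →
    ∀ N : ℕ, 0 < N → B.T^[N] x = x → ∀ (μ : ℝ) (w : ℝ × ℝ), w ≠ 0 → B.DT N x w = μ • w →
      |μ| ≤ ∏ j ∈ Finset.range N, (K / (B.T^[j] x).cosφ) := by
  obtain ⟨K, hK, hb⟩ := exists_nrm_bound hfh
  refine ⟨K, hK, ?_⟩
  intro x hx hng N _ hper μ w hw hμ
  have key : ∀ n : ℕ, ∀ w, nrm (B.T^[n] x) (B.DT n x w) ≤
      (∏ j ∈ Finset.range n, (K / (B.T^[j + 1] x).cosφ)) * nrm x w := by
    intro n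
    induction n with
    | zero =>
      intro w
      have h1 : B.DT 0 x = ContinuousLinearMap.id ℝ (ℝ × ℝ) := (iterate_zero hx).1.fderiv
      rw [h1]; simp
    | succ n ih =>
      intro w
      have hM := iterate_mem hfh hx n
      have h3 := hng n
      have h4 := hng (n + 1)
      rw [Function.iterate_succ_apply'] at h4
      obtain ⟨L, a1, a2, a3⟩ := hb _ hM h3 h4
      obtain ⟨h1, h2⟩ := iterate_all hfh hx hng n
      obtain ⟨h5, -⟩ := iterate_step hfh hx n h1 h2 a1 a2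
      have h6 : B.DT (n + 1) x = L.comp (B.DT n x) := h5.fderiv
      rw [h6, Finset.prod_range_succ, Function.iterate_succ_apply']
      show nrm (B.T (B.T^[n] x)) (L (B.DT n x w)) ≤ _
      refine (a3 _).trans ?_
      have h7 : 0 ≤ K / (B.T (B.T^[n] x)).cosφ := by positivity
      calc K / (B.T (B.T^[n] x)).cosφ * nrm (B.T^[n] x) (B.DT n x w)
          ≤ K / (B.T (B.T^[n] x)).cosφ *
            ((∏ j ∈ Finset.range n, (K / (B.T^[j + 1] x).cosφ)) * nrm x w) :=
            mul_le_mul_of_nonneg_left (ih w) h7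
        _ = _ := by ring
  have h1 := key N w
  rw [hper, hμ] at h1
  have h2 : nrm x (μ • w) = |μ| * nrm x w := by
    unfold nrm
    simp only [Prod.smul_fst, Prod.smul_snd, smul_eq_mul, abs_mul]
    ring
  have hc0 : 0 < x.cosφ := hng 0
  have hρ : 0 < B.radius x.i := B.radius_pos _
  have hpos : 0 < nrm x w := by
    unfold nrm
    by_cases hw1 : w.1 = 0
    · have hw2 : w.2 ≠ 0 := fun h => hw (Prod.ext hw1 h)
      have : 0 < |w.2| := abs_pos.mpr hw2
      positivity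
    · have : 0 < |w.1| := abs_pos.mpr hw1
      positivity
  rw [h2] at h1
  have h3 := le_of_mul_le_mul_right h1 hpos
  have h4 : ∏ j ∈ Finset.range N, (K / (B.T^[j + 1] x).cosφ) =
      ∏ j ∈ Finset.range N, (K / (B.T^[j] x).cosφ) := by
    have e1 := Finset.prod_range_succ (fun j => K / (B.T^[j] x).cosφ) N
    have e2 := Finset.prod_range_succ' (fun j => K / (B.T^[j] x).cosφ) N
    rw [e1] at e2
    rw [hper] at e2
    simp only [Function.iterate_zero, id] at e2
    have hne : K / x.cosφ ≠ 0 := by positivity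
    exact (mul_right_cancel₀ hne e2).symm
  rw [h4] at h3
  exact h3

end DiskTable
end Pool.Agent.Lib.MP_79f2f8_an
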