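import Pool.Agent.Lib.MP_79f2f8_an.Tab
import Pool.Agent.Lib.MP_79f2f8_an.Dyn
import Pool.Agent.Lib.MP_79f2f8_an.Cov
import Pool.Agent.Lib.MP_79f2f8_an.CoreW

/-!
# Assembly: the explicit tables and their orbits
-/

open Complex Finset

namespace Pool.Agent.Lib.MP_79f2f8_an

open Classical in
/-- the possible steps of a free flight -/
noncomputable def stepSet : Finset (Idx × ℂ × Idx) :=
  (((univ : Finset Idx) ×ˢ ((Icc (-3 : ℤ) 3 ×ˢ Icc (-3 : ℤ) 3) ×ˢ (univ : Finset Idx))).image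
    (fun s => (s.1, lat s.2.1, s.2.2))).filter
    (fun s => s.1 ≠ s.2.2 ∧ ‖ctr s.2.2 + s.2.1 - ctr s.1‖ ≤ 3 / 2)

lemma mem_stepSet {i j : Idx} {k : ℤ × ℤ} (h1 : |k.1| ≤ 3) (h2 : |k.2| ≤ 3) (hne : i ≠ j)
    (hn : ‖ctr j + lat k - ctr i‖ ≤ 3 / 2) : (i, lat k, j) ∈ stepSet := by
  unfold stepSet
  rw [mem_filter, mem_image]
  refine ⟨⟨(i, k, j), ?_, rfl⟩, hne, hn⟩
  simp only [mem_product, mem_univ, true_and, and_true, mem_Icc]
  exact ⟨abs_le.mp h1, abs_le.mp h2⟩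

lemma of_mem_stepSet {s : Idx × ℂ × Idx} (h : s ∈ stepSet) :
    s.1 ≠ s.2.2 ∧ ‖ctr s.2.2 + s.2.1 - ctr s.1‖ ≤ 3 / 2 ∧
      ∃ k : ℤ × ℤ, |k.1| ≤ 3 ∧ |k.2| ≤ 3 ∧ s.2.1 = lat k := by
  unfold stepSet at h
  rw [mem_filter, mem_image] at h
  obtain ⟨⟨⟨i, k, j⟩, hk, rfl⟩, hne, hn⟩ := h
  simp only [mem_product, mem_univ, true_and, and_true, mem_Icc] at hk
  exact ⟨hne, hn, k, abs_le.mpr hk.1, abs_le.mpr hk.2, rfl⟩

lemma rad0_pos (i : Idx) : 0 < rad0 i := by
  unfold rad0; split_ifs <;> norm_num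

lemma rad0_le (i : Idx) : rad0 i ≤ 9 / 100 := by
  unfold rad0; split_ifs <;> norm_num

lemma lat_neg' (k : ℤ × ℤ) : lat (-k) = -lat k := by
  unfold lat; simp; ring

lemma setup : Setup ctr rad0 (1 / 1000) (97 / 2000) (91 / 1000) 2 stepSet where
  hη := by norm_num
  hR := rad0_pos
  hrm i := by linarith [rad0_le i]
  hL0 := by norm_num
  hrL := by norm_num
  ne s hs := (of_mem_stepSet hs).1
  gap s hs := by
    obtain ⟨h1, -, k, -, -, hk⟩ := of_mem_stepSet hs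
    have := gap s.1 s.2.2 k (Or.inl h1)
    rw [hk]; linarith
  up s hs := by
    obtain ⟨-, h2, -⟩ := of_mem_stepSet hs
    linarith [rad0_le s.1, rad0_le s.2.2]
  sym s hs := by
    obtain ⟨h1, h2, k, hk1, hk2, hk⟩ := of_mem_stepSet hs
    rw [hk, ← lat_neg']
    apply mem_stepSet
    · simpa using hk1
    · simpa using hk2
    · exact h1.symm
    · rw [lat_neg', ← hk, ← norm_neg]
      refine le_trans (le_of_eq ?_) h2
      congr 1; ring

/-- the table with parameter `x` -/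
noncomputable def tab (x : Idx → unitInterval) : DiskTable where
  ι := Idx
  fin := inferInstance
  center := ctr
  radius := radx rad0 (1 / 1000) x
  radius_pos i := lt_of_lt_of_le (rad0_pos i) (le_radx setup x i)
  disjoint i j k h := by
    have h1 := gap i j k h
    have h2 := radx_le setup x i
    have h3 := radx_le setup x j
    linarith

lemma horizon_tab (x : Idx → unitInterval) (q u : ℂ) (hu : ‖u‖ = 1) : ∃ t : ℝ, 0 ≤ t ∧ t ≤ 1 ∧
    ∃ i k, (tab x).InDisk i k (q + t * u) := by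
  obtain ⟨t, h0, h1, i, k, h⟩ := horizon q u hu
  exact ⟨t, h0, h1, i, k, le_trans h.le (le_radx setup x i)⟩

lemma tab_fh (x : Idx → unitInterval) : (tab x).FiniteHorizon :=
  ⟨1, horizon_tab x⟩

lemma pos_sub_ctr {x : Idx → unitInterval} {y : (tab x).State} (hy : y ∈ (tab x).M) :
    ‖y.pos - ctr y.i‖ = radx rad0 (1 / 1000) x y.i := by
  have e : y.pos - ctr y.i = (radx rad0 (1 / 1000) x y.i : ℝ) * y.n := by
    unfold DiskTable.State.pos
    change ctr y.i + (radx rad0 (1 / 1000) x y.i : ℝ) * y.n - ctr y.i = _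
    ring
  rw [e, norm_mul, hy.1, mul_one, Complex.norm_real, Real.norm_eq_abs, abs_of_pos]
  exact lt_of_lt_of_le (rad0_pos _) (le_radx setup x _)

lemma cx_bd (i : Idx) : 0 ≤ cx i ∧ cx i ≤ 1 := by
  unfold cx
  have h : ((i.1.1 : ℕ) : ℝ) ≤ 3 := by
    have := i.1.1.isLt
    exact_mod_cast (show (i.1.1 : ℕ) ≤ 3 by omega)
  have h0 : (0 : ℝ) ≤ ((i.1.1 : ℕ) : ℝ) := by positivity
  split_ifs <;> constructor <;> linarith

lemma cy_bd (i : Idx) : 0 ≤ cy i ∧ cy i ≤ 1 := by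
  unfold cy
  have h : ((i.1.2 : ℕ) : ℝ) ≤ 3 := by
    have := i.1.2.isLt
    exact_mod_cast (show (i.1.2 : ℕ) ≤ 3 by omega)
  have h0 : (0 : ℝ) ≤ ((i.1.2 : ℕ) : ℝ) := by positivity
  split_ifs <;> constructor <;> linarith

lemma step_aux (x : Idx → unitInterval) (i j : Idx) (q q' v : ℂ) (t : ℝ) (k : ℤ × ℤ)
    (hi : ‖q - ctr i‖ = radx rad0 (1 / 1000) x i) (hj : ‖q' - ctr j‖ = radx rad0 (1 / 1000) x j)
    (hv : ‖v‖ = 1) (ht : 0 < t) (ht1 : t ≤ 1) (hk : q + t * v = q' + lat k)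
    (free : ∀ s : ℝ, 0 < s → s < t → ∀ (i : Idx) (k : ℤ × ℤ),
      ¬ ‖q + s * v - (ctr i + lat k)‖ ≤ radx rad0 (1 / 1000) x i)
    (own : ∀ s : ℝ, 0 < s → ¬ ‖q + s * v - (ctr i + lat 0)‖ ≤ radx rad0 (1 / 1000) x i) :
    (i, lat k, j) ∈ stepSet := by
  have ry := radx_le setup x i
  have rz := radx_le setup x j
  have r0y := rad0_le i
  have r0z := rad0_le j
  have hnorm : ‖ctr j + lat k - ctr i‖ ≤ 12 / 10 := by
    have e : ctr j + lat k - ctr i = t * v - (q' - ctr j) + (q - ctr i) := by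
      linear_combination (1 : ℂ) * (-hk)
    rw [e]
    calc ‖(t : ℂ) * v - (q' - ctr j) + (q - ctr i)‖
        ≤ ‖(t : ℂ) * v - (q' - ctr j)‖ + ‖q - ctr i‖ := norm_add_le _ _
      _ ≤ ‖(t : ℂ) * v‖ + ‖q' - ctr j‖ + ‖q - ctr i‖ := by
          gcongr; exact norm_sub_le _ _
      _ ≤ _ := by
          rw [norm_mul, hv, mul_one, Complex.norm_real, Real.norm_eq_abs, abs_of_pos ht, hi, hj]
          linarith
  have hk1 : |k.1| ≤ 3 := by
    have h1 := Complex.abs_re_le_norm (ctr j + lat k - ctr i)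
    rw [Complex.sub_re, Complex.add_re, ctr_re, ctr_re, tlat_re] at h1
    have h2 := abs_le.mp (h1.trans hnorm)
    have b1 := cx_bd j
    have b2 := cx_bd i
    have : (k.1 : ℝ) ≤ 3 ∧ -3 ≤ (k.1 : ℝ) := ⟨by linarith [h2.2], by linarith [h2.1]⟩
    rw [abs_le]
    exact ⟨by exact_mod_cast this.2, by exact_mod_cast this.1⟩
  have hk2 : |k.2| ≤ 3 := by
    have h1 := Complex.abs_im_le_norm (ctr j + lat k - ctr i)
    rw [Complex.sub_im, Complex.add_im, ctr_im, ctr_im, tlat_im] at h1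
    have h2 := abs_le.mp (h1.trans hnorm)
    have b1 := cy_bd j
    have b2 := cy_bd i
    have : (k.2 : ℝ) ≤ 3 ∧ -3 ≤ (k.2 : ℝ) := ⟨by linarith [h2.2], by linarith [h2.1]⟩
    rw [abs_le]
    exact ⟨by exact_mod_cast this.2, by exact_mod_cast this.1⟩
  apply mem_stepSet hk1 hk2 _ (by linarith)
  intro hij
  subst hij
  have e : q + t * v - (ctr i + lat k) = q' - ctr i := by
    rw [hk]; ring
  have hk0 : k = 0 := by
    apply flight_ne q v hv t ht.le
    · intro s hs hst i l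
      have := free s hs hst i l
      push Not at this
      exact le_trans (le_radx setup x i) this.le
    · rw [hi]; linarith
    · rw [e, hj]; linarith
  apply own t ht
  rw [← hk0, e, hj]

/-- a free flight is a step of `stepSet` -/
lemma next_step {x : Idx → unitInterval} {y z : (tab x).State} (hy : y ∈ (tab x).M)
    (h : (tab x).Next y z) : ∃ (k : ℤ × ℤ) (t : ℝ), 0 < t ∧ t ≤ 1 ∧
      y.pos + t * y.v = z.pos + lat k ∧ ((y.i, lat k, z.i) : Idx × ℂ × Idx) ∈ stepSet := by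
  obtain ⟨hz, t, ht, ⟨k, hk⟩, free, -⟩ := h
  have ht1 : t ≤ 1 := DiskTable.flight_le (horizon_tab x) hy.2.1 free
  refine ⟨k, t, ht, ht1, hk, ?_⟩
  exact step_aux x y.i z.i y.pos z.pos y.v t k (pos_sub_ctr hy) (pos_sub_ctr hz) hy.2.1 ht ht1 hk
    (fun s hs hst i l => free s hs hst i l) (fun s hs => DiskTable.own_free hy hs)

/-- a bi-infinite orbit of the billiard is a formal orbit -/
lemma orb_of {x : Idx → unitInterval} {X : ℤ → (tab x).State} (hM : ∀ j, X j ∈ (tab x).M)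
    (hN : ∀ j, (tab x).Next (X j) (X (j + 1))) :
    ∃ w : ℤ → ℂ, Orb ctr (radx rad0 (1 / 1000) x) (stepSet : Set (Idx × ℂ × Idx))
      (fun j => (X j).i) w (fun j => (X j).n) (fun j => (X j).v) := by
  choose k t ht ht1 hpos hS using fun j => next_step (hM j) (hN j)
  refine ⟨fun j => lat (k j), ?_⟩
  refine ⟨fun j => (hM j).1, fun j => (hM j).2.1, fun j => hS j, ?_, ?_, fun j => (hM j).2.2⟩
  · intro j
    have e : flightVec ctr (radx rad0 (1 / 1000) x) (X j).i (X (j + 1)).i (lat (k j)) (X j).n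
        (X (j + 1)).n = t j * (X j).v := by
      have h1 : (X (j + 1)).pos = ctr (X (j + 1)).i +
        (radx rad0 (1 / 1000) x (X (j + 1)).i : ℝ) * (X (j + 1)).n := rfl
      have h2 : (X j).pos = ctr (X j).i + (radx rad0 (1 / 1000) x (X j).i : ℝ) * (X j).n := rfl
      have h3 := hpos j
      rw [h1, h2] at h3
      unfold flightVec
      linear_combination (-1 : ℂ) * h3
    rw [e, norm_mul, (hM j).2.1, mul_one, Complex.norm_real, Real.norm_eq_abs, abs_of_pos (ht j)]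
  · intro j
    obtain ⟨-, -, -, -, -, h⟩ := hN j
    rw [h, reflect_eq _ _ (hM (j + 1)).1]
    ring

end Pool.Agent.Lib.MP_79f2f8_an
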