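import Pool.Agent.Lib.MP_79f2f8_an.DefsP
import Pool.Agent.Lib.MP_79f2f8_an.Dyn

/-!
# Time reversal and bi-infinite orbits (module Q1b, by helper32)
-/

open Complex Filter Topology

namespace Pool.Agent.Lib.MP_79f2f8_an
namespace DiskTable
variable {B : DiskTable}

/-- time reversal -/
noncomputable def State.rev (x : B.State) : B.State :=
  ⟨x.i, x.n, x.n ^ 2 * (starRingEnd ℂ) x.v⟩

lemma unit_mul_conj {n : ℂ} (hn : ‖n‖ = 1) : n * (starRingEnd ℂ) n = 1 := by
  rw [Complex.mul_conj, Complex.normSq_eq_norm_sq, hn]; simp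

lemma rev_rev {x : B.State} (hn : ‖x.n‖ = 1) : x.rev.rev = x := by
  have h := unit_mul_conj hn
  obtain ⟨i, n, v⟩ := x
  unfold State.rev
  simp only at h ⊢
  rw [map_mul, map_pow, Complex.conj_conj]
  congr 1
  linear_combination (v * (n * (starRingEnd ℂ) n) + v) * h

lemma rev_mem {x : B.State} (hx : x ∈ B.M) : x.rev ∈ B.M := by
  obtain ⟨hn, hv, hc⟩ := hx
  refine ⟨hn, ?_, ?_⟩
  · show ‖x.n ^ 2 * (starRingEnd ℂ) x.v‖ = 1
    rw [norm_mul, norm_pow, hn, RCLike.norm_conj, hv]; norm_num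
  · show 0 ≤ ((x.n ^ 2 * (starRingEnd ℂ) x.v) * (starRingEnd ℂ) x.n).re
    have h := unit_mul_conj hn
    have : (x.n ^ 2 * (starRingEnd ℂ) x.v) * (starRingEnd ℂ) x.n =
        x.n * (starRingEnd ℂ) x.v := by
      linear_combination (x.n * (starRingEnd ℂ) x.v) * h
    rw [this, re_mul_conj_comm]
    exact hc

lemma inDisk_sub_lat {i : B.ι} {k l : ℤ × ℤ} {z : ℂ} (h : B.InDisk i k (z - lat l)) :
    B.InDisk i (k + l) z := by
  unfold InDisk at *
  have : lat (k + l) = lat k + lat l := by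
    apply Complex.ext <;> simp [lat]
  rw [this]
  convert h using 2
  ring

lemma next_rev {x y : B.State} (hx : x ∈ B.M) (h : B.Next x y) : B.Next y.rev x.rev := by
  obtain ⟨hy, t, ht, ⟨k, hk⟩, hfree, hv⟩ := h
  have hyn := unit_mul_conj hy.1
  have hv' : y.rev.v = -x.v := by
    show y.n ^ 2 * (starRingEnd ℂ) y.v = -x.v
    rw [hv, reflect_eq _ _ hy.1, map_neg, map_mul, map_pow, Complex.conj_conj]
    linear_combination (-(x.v * (y.n * (starRingEnd ℂ) y.n) + x.v)) * hyn
  refine ⟨rev_mem hx, t, ht, ⟨-k, ?_⟩, ?_, ?_⟩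
  · rw [hv']
    show y.pos + t * (-x.v) = x.pos + lat (-k)
    have : lat (-k) = - lat k := by apply Complex.ext <;> simp [lat]
    rw [this]
    linear_combination (-1 : ℂ) * hk
  · intro s hs hst i l hil
    rw [hv'] at hil
    have h1 : y.rev.pos + s * (-x.v) = (x.pos + ((t - s : ℝ) : ℂ) * x.v) - lat k := by
      show y.pos + s * (-x.v) = _
      push_cast
      linear_combination (-1 : ℂ) * hk
    rw [h1] at hil
    exact hfree (t - s) (by linarith) (by linarith) i _ (inDisk_sub_lat hil)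
  · rw [hv']
    show x.n ^ 2 * (starRingEnd ℂ) x.v = _
    rw [show x.rev.n = x.n from rfl, reflect_eq _ _ hx.1, map_neg]
    ring

/-- a predecessor -/
noncomputable def pred (x : B.State) : B.State := (B.T x.rev).rev

lemma pred_mem (hfh : B.FiniteHorizon) {x : B.State} (hx : x ∈ B.M) : pred x ∈ B.M :=
  rev_mem (T_mem hfh (rev_mem hx))

lemma next_pred (hfh : B.FiniteHorizon) {x : B.State} (hx : x ∈ B.M) : B.Next (pred x) x := by
  have h := next_rev (rev_mem hx) (next_T hfh (rev_mem hx))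
  rw [rev_rev hx.1] at h
  exact h

/-- MODULE Q1b: every point of `M` has a bi-infinite orbit. -/
theorem exists_biorbit (hfh : B.FiniteHorizon) {x : B.State} (hx : x ∈ B.M) :
    ∃ X : ℤ → B.State, (∀ j, X j ∈ B.M) ∧ (∀ j, B.Next (X j) (X (j + 1))) ∧
      ∀ j : ℕ, X j = B.T^[j] x := by
  have hp : ∀ n : ℕ, (pred^[n] x) ∈ B.M := by
    intro n
    induction n with
    | zero => exact hx
    | succ n ih => rw [Function.iterate_succ_apply']; exact pred_mem hfh ih
  refine ⟨fun j => match j with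
    | Int.ofNat n => B.T^[n] x
    | Int.negSucc n => pred^[n + 1] x, ?_, ?_, ?_⟩
  · rintro (n | n)
    · exact iterate_mem hfh hx n
    · exact hp (n + 1)
  · rintro (n | n)
    · show B.Next (B.T^[n] x) (B.T^[n + 1] x)
      rw [Function.iterate_succ_apply']
      exact next_T hfh (iterate_mem hfh hx n)
    · cases n with
      | zero =>
        show B.Next (pred^[0 + 1] x) (B.T^[0] x)
        exact next_pred hfh hx
      | succ n =>
        show B.Next (pred^[n + 1 + 1] x) (pred^[n + 1] x)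
        rw [Function.iterate_succ_apply']
        exact next_pred hfh (hp (n + 1))
  · intro j; rfl

end DiskTable
end Pool.Agent.Lib.MP_79f2f8_an
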