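import Pool.Agent.Lib.MP_79f2f8_an.Types
open Finset
namespace Pool.Agent.Lib.MP_79f2f8_an

/-- the parameter together with the four sequences -/
abbrev PSpace (F : Type) : Type :=
  (F → unitInterval) × ((ℕ → Circle) × (ℕ → Circle) × (ℕ → Circle) × (ℕ → Circle))

theorem ray_iff {F : Type} (c : F → ℂ) (ρ : F → ℝ) (m : ℕ) (I : ℕ → F) (w n e : ℕ → ℂ) :
    Ray c ρ m I w n e ↔
      (∀ j, j ≤ m → ‖n j‖ = 1) ∧ (∀ j, j < m → ‖e j‖ = 1) ∧
      (∀ j, j < m → flightVec c ρ (I j) (I (j + 1)) (w j) (n j) (n (j + 1)) =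
        (‖flightVec c ρ (I j) (I (j + 1)) (w j) (n j) (n (j + 1))‖ : ℝ) * e j) ∧
      (∀ j, j + 1 < m → e (j + 1) = - n (j + 1) ^ 2 * (starRingEnd ℂ) (e j)) ∧
      (∀ j, j < m → 0 ≤ cosC (n j) (e j)) ∧
      (∀ j, j < m → 0 ≤ - cosC (n (j + 1)) (e j)) :=
  ⟨fun h => ⟨h.norm_n, h.norm_e, h.flight, h.refl, h.out, h.inc⟩,
   fun h => ⟨h.1, h.2.1, h.2.2.1, h.2.2.2.1, h.2.2.2.2.1, h.2.2.2.2.2⟩⟩

theorem isClosed_forall_imp {X ι : Type*} [TopologicalSpace X] (P : ι → Prop) (Q : ι → X → Prop)
    (h : ∀ i, P i → IsClosed {x | Q i x}) : IsClosed {x | ∀ i, P i → Q i x} := by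
  have : {x | ∀ i, P i → Q i x} = ⋂ i, ⋂ (_ : P i), {x | Q i x} := by
    ext x; simp
  rw [this]
  exact isClosed_iInter fun i => isClosed_iInter fun hi => h i hi

theorem continuous_cosC' {X : Type*} [TopologicalSpace X] {f g : X → ℂ} (hf : Continuous f)
    (hg : Continuous g) : Continuous fun x => cosC (f x) (g x) := by
  unfold cosC
  exact Complex.continuous_re.comp (hg.mul (Complex.continuous_conj.comp hf))

theorem isClosed_match {F X : Type} [TopologicalSpace X] (c : F → ℂ) (r : X → F → ℝ)
    (hr : ∀ i, Continuous fun x => r x i) (m N : ℕ) (τ : HalfType F) (n e : X → ℕ → ℂ)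
    (hn : ∀ j, Continuous fun x => n x j) (he : ∀ j, Continuous fun x => e x j) :
    IsClosed {x | Match c (r x) m N τ (n x) (e x)} := by
  have hfl : ∀ (i i' : F) (w : ℂ) (j : ℕ),
      Continuous fun x => flightVec c (r x) i i' w (n x j) (n x (j + 1)) := by
    intro i i' w j
    unfold flightVec
    exact ((continuous_const.add ((Complex.continuous_ofReal.comp (hr i')).mul (hn (j + 1))))).sub
      (continuous_const.add ((Complex.continuous_ofReal.comp (hr i)).mul (hn j)))
  have hcI : ∀ j, Continuous fun x => cosI (n x) (e x) j := by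
    intro j
    unfold cosI
    exact (continuous_cosC' (hn j) (he (j - 1))).neg
  have hpr : Continuous fun x => ∏ j ∈ Ico 1 m, cosI (n x) (e x) j :=
    continuous_finsetProd _ fun j _ => hcI j
  have hconj : ∀ j, Continuous fun x => (starRingEnd ℂ) (e x j) :=
    fun j => Complex.continuous_conj.comp (he j)
  unfold Match Reach
  simp only [ray_iff]
  refine IsClosed.inter (IsClosed.inter ?_ (IsClosed.inter ?_ (IsClosed.inter ?_
    (IsClosed.inter ?_ (IsClosed.inter ?_ ?_))))) (IsClosed.inter ?_ (IsClosed.inter ?_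
    (IsClosed.inter ?_ (IsClosed.inter ?_ ?_))))
  · exact isClosed_forall_imp _ _ fun j _ => isClosed_eq (hn j).norm continuous_const
  · exact isClosed_forall_imp _ _ fun j _ => isClosed_eq (he j).norm continuous_const
  · exact isClosed_forall_imp _ _ fun j _ => isClosed_eq (hfl _ _ _ _)
      ((Complex.continuous_ofReal.comp (hfl _ _ _ _).norm).mul (he j))
  · exact isClosed_forall_imp _ _ fun j _ => isClosed_eq (he _)
      (((hn _).pow 2).neg.mul (hconj j))
  · exact isClosed_forall_imp _ _ fun j _ => isClosed_le continuous_const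
      (continuous_cosC' (hn j) (he j))
  · exact isClosed_forall_imp _ _ fun j _ => isClosed_le continuous_const
      (continuous_cosC' (hn _) (he j)).neg
  · exact isClosed_forall_imp _ _ fun j _ => isClosed_le ((hn j).sub continuous_const).norm
      continuous_const
  · exact isClosed_forall_imp _ _ fun j _ => isClosed_le ((he j).sub continuous_const).norm
      continuous_const
  · refine isClosed_forall_imp _ _ fun j _ => ?_
    by_cases hj : j < m
    · simp only [hj, true_imp_iff]
      exact (isClosed_le continuous_const (hcI j)).inter (isClosed_le (hcI j) continuous_const)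
    · simp only [hj, false_imp_iff]
      exact isClosed_const
  · exact isClosed_le ((hcI m).mul hpr) continuous_const
  · exact isClosed_le continuous_const hpr

/-- MODULE T (Closed.lean): the type sets are closed (projection of a closed subset of the
compact space `(F → unitInterval) × (ℕ → Circle)^4`; all conditions in `Match` are closed). -/
theorem isClosed_typeSet {F : Type} (c : F → ℂ) (R : F → ℝ) (η0 : ℝ) (m p N : ℕ)
    (τ σ : HalfType F) : IsClosed (TypeSet c R η0 m p N τ σ) := by
  have hr : ∀ i, Continuous fun z : PSpace F => radx R η0 z.1 i := by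
    intro i
    unfold radx
    exact continuous_const.add (continuous_const.mul
      (continuous_subtype_val.comp ((continuous_apply i).comp continuous_fst)))
  have h1 : ∀ j, Continuous fun z : PSpace F => ((z.2.1 j : Circle) : ℂ) := fun j =>
    continuous_subtype_val.comp ((continuous_apply j).comp (continuous_fst.comp continuous_snd))
  have h2 : ∀ j, Continuous fun z : PSpace F => ((z.2.2.1 j : Circle) : ℂ) := fun j =>
    continuous_subtype_val.comp ((continuous_apply j).comp
      (continuous_fst.comp (continuous_snd.comp continuous_snd)))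
  have h3 : ∀ j, Continuous fun z : PSpace F => ((z.2.2.2.1 j : Circle) : ℂ) := fun j =>
    continuous_subtype_val.comp ((continuous_apply j).comp
      (continuous_fst.comp (continuous_snd.comp (continuous_snd.comp continuous_snd))))
  have h4 : ∀ j, Continuous fun z : PSpace F => ((z.2.2.2.2 j : Circle) : ℂ) := fun j =>
    continuous_subtype_val.comp ((continuous_apply j).comp
      (continuous_snd.comp (continuous_snd.comp (continuous_snd.comp continuous_snd))))
  have hcl : IsClosed {z : PSpace F |
      Match c (radx R η0 z.1) m N τ (fun j => (z.2.1 j : ℂ)) (fun j => (z.2.2.1 j : ℂ)) ∧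
      Match c (radx R η0 z.1) p N σ (fun j => (z.2.2.2.1 j : ℂ)) (fun j => (z.2.2.2.2 j : ℂ)) ∧
      (z.2.2.2.1 0 : ℂ) = z.2.1 0 ∧
      (z.2.2.2.2 0 : ℂ) = (z.2.1 0 : ℂ) ^ 2 * (starRingEnd ℂ) (z.2.2.1 0) ∧
      cosC (z.2.1 0) (z.2.2.1 0) ≤ Real.exp (-(N : ℝ))} := by
    refine IsClosed.inter ?_ (IsClosed.inter ?_ (IsClosed.inter ?_ (IsClosed.inter ?_ ?_)))
    · exact isClosed_match c (fun z : PSpace F => radx R η0 z.1) hr m N τ _ _ h1 h2
    · exact isClosed_match c (fun z : PSpace F => radx R η0 z.1) hr p N σ _ _ h3 h4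
    · exact isClosed_eq (h3 0) (h1 0)
    · exact isClosed_eq (h4 0) (((h1 0).pow 2).mul (Complex.continuous_conj.comp (h2 0)))
    · exact isClosed_le (continuous_cosC' (h1 0) (h2 0)) continuous_const
  have := isClosedMap_fst_of_compactSpace (X := F → unitInterval)
    (Y := (ℕ → Circle) × (ℕ → Circle) × (ℕ → Circle) × (ℕ → Circle)) _ hcl
  convert this using 1
  ext x
  simp only [TypeSet, Set.mem_ofPred_eq, Set.mem_image, Prod.exists]
  constructor
  · rintro ⟨n, e, a, b, h⟩
    exact ⟨x, n, e, a, b, h, rfl⟩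
  · rintro ⟨y, n, e, a, b, h, rfl⟩
    exact ⟨n, e, a, b, h⟩

end Pool.Agent.Lib.MP_79f2f8_an
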