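import Mathlib

/-!
# Dispersing billiards on the torus with round scatterers (definitions)

The plane is `ℂ`, the torus is `ℂ / (ℤ + ℤ i)`.  A table is a finite family of pairwise disjoint
closed round disks on the torus.
-/

open Complex

noncomputable section

namespace Pool.Agent.Lib.MP_79f2f8_an

/-- The lattice vector `a + b i`. -/
def lat (k : ℤ × ℤ) : ℂ := (k.1 : ℂ) + (k.2 : ℂ) * I

/-- A billiard table on the torus `ℂ / (ℤ + ℤ i)`: a finite nonempty family of closed round disks
of positive radius whose lifts to the plane are pairwise disjoint. -/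
structure DiskTable where
  /-- index set of the scatterers -/
  ι : Type
  /-- there are finitely many scatterers -/
  fin : Fintype ι
  /-- centre of a scatterer -/
  center : ι → ℂ
  /-- radius of a scatterer -/
  radius : ι → ℝ
  radius_pos : ∀ i, 0 < radius i
  disjoint : ∀ (i j : ι) (k : ℤ × ℤ), (i ≠ j ∨ k ≠ 0) →
    radius i + radius j < ‖center j + lat k - center i‖

namespace DiskTable

variable (B : DiskTable)

/-- The point `z` of the plane lies in the lift by `k` of the closed disk number `i`. -/
def InDisk (i : B.ι) (k : ℤ × ℤ) (z : ℂ) : Prop := ‖z - (B.center i + lat k)‖ ≤ B.radius i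

/-- Finite horizon: there is a length `L` such that every segment of length `L` in the plane
meets a scatterer. -/
def FiniteHorizon : Prop :=
  ∃ L : ℝ, ∀ q u : ℂ, ‖u‖ = 1 → ∃ t : ℝ, 0 ≤ t ∧ t ≤ L ∧ ∃ i k, B.InDisk i k (q + t * u)

/-- A state: number of a scatterer, unit normal `n` at the collision point, velocity `v`
after the collision. -/
structure State where
  /-- number of the scatterer -/
  i : B.ι
  /-- outward unit normal at the point of collision -/
  n : ℂ
  /-- unit velocity after the collision -/
  v : ℂ

variable {B}

/-- The point of collision of a state (in the lift with `k = 0`). -/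
def State.pos (x : B.State) : ℂ := B.center x.i + B.radius x.i * x.n

/-- `cos φ`, where `φ` is the angle from the outward normal `n` to the velocity `v`. -/
def State.cosφ (x : B.State) : ℝ := (x.v * (starRingEnd ℂ) x.n).re

variable (B)

/-- The collision space `M`: all states with unit normal and unit velocity pointing out of the
scatterer, `φ ∈ [-π/2, π/2]`. -/
def M : Set B.State := {x | ‖x.n‖ = 1 ∧ ‖x.v‖ = 1 ∧ 0 ≤ x.cosφ}

/-- `y` is the next collision after `x`: the particle leaves `x` with velocity `x.v`, flies
freely for a time `t > 0`, hits the scatterer of `y` (possibly tangentially) at the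
point of `y`, and is reflected there. -/
def Next (x y : B.State) : Prop :=
  y ∈ B.M ∧ ∃ t : ℝ, 0 < t ∧ (∃ k : ℤ × ℤ, x.pos + t * x.v = y.pos + lat k) ∧
    (∀ s : ℝ, 0 < s → s < t → ∀ i k, ¬ B.InDisk i k (x.pos + s * x.v)) ∧
    y.v = x.v - (2 * (x.v * (starRingEnd ℂ) y.n).re : ℝ) * y.n

open Classical in
/-- The billiard map `T` (collision map). -/
def T (x : B.State) : B.State := if h : ∃ y, B.Next x y then h.choose else x

variable {B}

/-- The state obtained from `x` by turning the normal by the angle `w.1` and the velocity by the
angle `w.2`; this is a chart of `M` at `x` with values in `ℝ × ℝ`. -/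
def State.move (x : B.State) (w : ℝ × ℝ) : B.State :=
  ⟨x.i, x.n * exp (w.1 * I), x.v * exp (w.2 * I)⟩

/-- Coordinates of `y` in the chart at `x`. -/
def State.coord (x y : B.State) : ℝ × ℝ := (arg (y.n / x.n), arg (y.v / x.v))

variable (B)

/-- The derivative at `x` of the iterate `T^N`, in the charts at `x` and at `T^N x`.  (In a
finite-horizon table `T^N` is differentiable in these charts at every non-grazing point of `M`:
`differentiableAt_iterate` in `Dyn.lean`; existence and uniqueness of the next collision
are `exists_next` and `next_unique` in `DynA.lean`.) -/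
def DT (N : ℕ) (x : B.State) : ℝ × ℝ →L[ℝ] ℝ × ℝ :=
  fderiv ℝ (fun w => State.coord (B.T^[N] x) (B.T^[N] (x.move w))) 0

/-- A non-grazing point: no collision along its forward orbit is tangential. -/
def NonGrazing (x : B.State) : Prop := ∀ j : ℕ, 0 < (B.T^[j] x).cosφ

/-- The expansion factor `J^u T^N (x)` at a periodic point `x` with `T^N x = x`: the
largest modulus of an eigenvalue of the derivative of `T^N` at `x`. -/
def Ju (N : ℕ) (x : B.State) : ℝ :=
  sSup {r : ℝ | ∃ (μ : ℝ) (w : ℝ × ℝ), w ≠ 0 ∧ B.DT N x w = μ • w ∧ r = |μ|}

/-- The Lyapunov exponent of a periodic point of minimal period `N`. -/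
def lyapunov (x : B.State) : ℝ :=
  Real.log (B.Ju (Function.minimalPeriod B.T x) x) / Function.minimalPeriod B.T x

end DiskTable

end Pool.Agent.Lib.MP_79f2f8_an
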