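import Pool.Agent.Lib.MP_79f2f8_an.Defs

/-!
# Invariant measures, unstable direction, entropy and pressure (definitions)
-/

open Complex MeasureTheory Filter Topology

noncomputable section

namespace Pool.Agent.Lib.MP_79f2f8_an

namespace DiskTable

variable {B : DiskTable}

/-- The Borel structure on states: the number of the scatterer, the normal and the velocity are
measurable, with all sets of numbers measurable. -/
instance : MeasurableSpace B.State :=
  (⊤ : MeasurableSpace B.ι).comap State.i ⊔ (borel ℂ).comap State.n ⊔ (borel ℂ).comap State.v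

/-- Euclidean length of the tangent vector `w` at `x` in the coordinates `(r, φ)`: `w.1` is the
variation of the direction of the normal, so `dr = radius * w.1`, and `w.2` is the variation of
the direction of the velocity, so `dφ = w.2 - w.1`. -/
def State.len (x : B.State) (w : ℝ × ℝ) : ℝ :=
  Real.sqrt ((B.radius x.i * w.1) ^ 2 + (w.2 - w.1) ^ 2)

variable (B)

/-- The unstable subspace `E^u(x)`: tangent vectors `w` at `x` which have preimages `z n` under
`D T^n` at the points `y n = T^{-n} x` along a backward orbit of `x` in `M` without tangential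
collisions, with `z n` exponentially small. -/
def Eu (x : B.State) : Set (ℝ × ℝ) :=
  {w | ∃ (y : ℕ → B.State) (z : ℕ → ℝ × ℝ), y 0 = x ∧ z 0 = w ∧
    (∀ n, y n ∈ B.M ∧ 0 < (y n).cosφ ∧ B.T (y (n + 1)) = y n ∧ B.DT 1 (y (n + 1)) (z (n + 1)) = z n) ∧
    ∃ C c : ℝ, 0 < c ∧ ∀ n : ℕ, (y n).len (z n) ≤ C * Real.exp (-c * n)}

/-- The expansion factor `J^u T (x)` of `D T` along `E^u(x)`.  (At a point `x` for which the
collision at `x` or at `T x` is tangential the expansion is infinite and this real number has no
meaning; invariant measures which charge such points are excluded from `MStar`.) -/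
def JuT (x : B.State) : ℝ :=
  sSup {r : ℝ | ∃ w ∈ B.Eu x, w ≠ 0 ∧ r = (B.T x).len (B.DT 1 x w) / x.len w}

/-- The geometric potential `φ = - log J^u T`. -/
def geoPot (x : B.State) : ℝ := -Real.log (B.JuT x)

/-- `T`-invariant Borel probability measures on the collision space `M`. -/
def Invariant (μ : Measure B.State) : Prop :=
  IsProbabilityMeasure μ ∧ μ B.Mᶜ = 0 ∧ Measure.map B.T μ = μ

/-- The class `M*`: invariant probability measures of finite mean expansion, that is, measures
which do not charge the tangential collisions (where `log J^u T` is infinite) and for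
which `log J^u T` is integrable. -/
def MStar : Set (Measure B.State) :=
  {μ | B.Invariant μ ∧ μ {x | x.cosφ ≤ 0} = 0 ∧ Integrable (fun x => Real.log (B.JuT x)) μ}

end DiskTable

/-- Entropy of the joint distribution of `f, f ∘ T, …, f ∘ T^(n-1)`. -/
def jointEntropy {X : Type*} [MeasurableSpace X] (μ : Measure X) (T : X → X) {k : ℕ}
    (f : X → Fin k) (n : ℕ) : ℝ :=
  ∑ s : Fin n → Fin k, Real.negMulLog (μ.real {x | ∀ j : Fin n, f (T^[j] x) = s j})

/-- Entropy `h_μ(T, ξ)` of the finite partition `ξ` into the level sets of `f`. -/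
def partEntropy {X : Type*} [MeasurableSpace X] (μ : Measure X) (T : X → X) {k : ℕ}
    (f : X → Fin k) : ℝ := ⨅ n : ℕ, jointEntropy μ T f (n + 1) / (n + 1)

/-- Kolmogorov-Sinai entropy `h_μ(T)`. -/
def ksEntropy {X : Type*} [MeasurableSpace X] (μ : Measure X) (T : X → X) : EReal :=
  ⨆ (k : ℕ) (f : X → Fin k) (_ : Measurable f), (partEntropy μ T f : EReal)

namespace DiskTable

variable (B : DiskTable)

/-- The pressure `P(ψ)`. -/
def pressure (ψ : B.State → ℝ) : EReal :=
  ⨆ μ ∈ B.MStar, (ksEntropy μ B.T + ((∫ x, ψ x ∂μ : ℝ) : EReal))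

end DiskTable

end Pool.Agent.Lib.MP_79f2f8_an
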