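import Pool.Agent.Lib.MP_79f2f8_an.Defs

/-!
# The billiard map of a table of round disks (module E, by helper32)

The next collision exists and is unique, the billiard map is differentiable in the charts at a
non-grazing point with non-grazing image, and the eigenvalues of the derivative of an iterate at
a periodic point are bounded by a product over the orbit.
-/

open Complex Filter Topology

namespace Pool.Agent.Lib.MP_79f2f8_an

lemma lat_re (k : ℤ × ℤ) : (lat k).re = (k.1 : ℝ) := by simp [lat]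

lemma lat_im (k : ℤ × ℤ) : (lat k).im = (k.2 : ℝ) := by simp [lat]

lemma lat_zero : lat 0 = 0 := by simp [lat]

lemma lat_sub (k l : ℤ × ℤ) : lat (k - l) = lat k - lat l := by
  apply Complex.ext <;> simp [lat]

/-- expansion of `‖a + s v‖^2` -/
lemma norm_add_sq (a v : ℂ) (s : ℝ) :
    ‖a + s * v‖ ^ 2 = ‖a‖ ^ 2 + 2 * s * (v * (starRingEnd ℂ) a).re + s ^ 2 * ‖v‖ ^ 2 := by
  rw [← Complex.normSq_eq_norm_sq, ← Complex.normSq_eq_norm_sq, ← Complex.normSq_eq_norm_sq]
  simp [Complex.normSq_apply]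
  ring

lemma re_mul_conj_comm (a v : ℂ) :
    (a * (starRingEnd ℂ) v).re = (v * (starRingEnd ℂ) a).re := by
  simp; ring

/-- scalar product of the reflected vector with the normal -/
lemma reflect_re (v n : ℂ) (hn : ‖n‖ = 1) :
    ((v - (2 * (v * (starRingEnd ℂ) n).re : ℝ) * n) * (starRingEnd ℂ) n).re =
      -(v * (starRingEnd ℂ) n).re := by
  have hn2 : n * (starRingEnd ℂ) n = 1 := by
    rw [Complex.mul_conj, Complex.normSq_eq_norm_sq, hn]; simp
  rw [sub_mul, mul_assoc, hn2, mul_one, Complex.sub_re, Complex.ofReal_re]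
  ring

/-- the reflected vector is `-n^2 conj v` -/
lemma reflect_eq (v n : ℂ) (hn : ‖n‖ = 1) :
    v - (2 * (v * (starRingEnd ℂ) n).re : ℝ) * n = -(n ^ 2 * (starRingEnd ℂ) v) := by
  have hn2 : n * (starRingEnd ℂ) n = 1 := by
    rw [Complex.mul_conj, Complex.normSq_eq_norm_sq, hn]; simp
  have h : ((2 * (v * (starRingEnd ℂ) n).re : ℝ) : ℂ) =
      v * (starRingEnd ℂ) n + (starRingEnd ℂ) v * n := by
    have := Complex.re_eq_add_conj (v * (starRingEnd ℂ) n)
    push_cast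
    rw [this, map_mul, Complex.conj_conj]
    ring
  rw [h]
  linear_combination (v) * hn2 * (-1)

/-- norm of the reflected vector -/
lemma reflect_norm (v n : ℂ) (hn : ‖n‖ = 1) :
    ‖v - (2 * (v * (starRingEnd ℂ) n).re : ℝ) * n‖ = ‖v‖ := by
  rw [reflect_eq v n hn, norm_neg, norm_mul, norm_pow, hn, RCLike.norm_conj]
  ring

namespace DiskTable

variable {B : DiskTable}

lemma inDisk_unique {i j : B.ι} {k l : ℤ × ℤ} {z : ℂ} (h1 : B.InDisk i k z)
    (h2 : B.InDisk j l z) : i = j ∧ k = l := by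
  by_contra hcon
  have hne : i ≠ j ∨ l - k ≠ 0 := by
    by_cases hij : i = j
    · right
      intro h
      exact hcon ⟨hij, (sub_eq_zero.mp h).symm⟩
    · exact Or.inl hij
  have h3 := B.disjoint i j (l - k) hne
  have h4 : ‖B.center j + lat (l - k) - B.center i‖ ≤
      ‖z - (B.center i + lat k)‖ + ‖z - (B.center j + lat l)‖ := by
    have : B.center j + lat (l - k) - B.center i =
        (z - (B.center i + lat k)) - (z - (B.center j + lat l)) := by
      rw [lat_sub]; ring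
    rw [this]
    exact norm_sub_le _ _
  unfold InDisk at h1 h2
  linarith

/-- only finitely many lifts are close to the origin -/
lemma finite_lifts (R : ℝ) : {p : B.ι × (ℤ × ℤ) | ‖B.center p.1 + lat p.2‖ ≤ R}.Finite := by
  have := B.fin
  obtain ⟨M, hM⟩ := (Set.finite_range (fun i => ‖B.center i‖)).bddAbove
  have hM' : ∀ i, ‖B.center i‖ ≤ M := fun i => hM ⟨i, rfl⟩
  have hfin : ((Set.univ : Set B.ι) ×ˢ ((Set.Icc (-⌈R + M⌉) ⌈R + M⌉ : Set ℤ) ×ˢ
      (Set.Icc (-⌈R + M⌉) ⌈R + M⌉ : Set ℤ))).Finite :=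
    (Set.finite_univ).prod ((Set.finite_Icc _ _).prod (Set.finite_Icc _ _))
  refine hfin.subset ?_
  rintro ⟨i, k⟩ hp
  simp only [Set.mem_ofPred_eq] at hp
  have h1 : ‖lat k‖ ≤ R + M := by
    calc ‖lat k‖ = ‖(B.center i + lat k) - B.center i‖ := by congr 1; ring
      _ ≤ ‖B.center i + lat k‖ + ‖B.center i‖ := norm_sub_le _ _
      _ ≤ R + M := add_le_add hp (hM' i)
  have h2 : |(k.1 : ℝ)| ≤ R + M := by
    rw [← lat_re]; exact (Complex.abs_re_le_norm _).trans h1
  have h3 : |(k.2 : ℝ)| ≤ R + M := by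
    rw [← lat_im]; exact (Complex.abs_im_le_norm _).trans h1
  have h4 := Int.le_ceil (R + M)
  rw [abs_le] at h2 h3
  refine ⟨Set.mem_univ _, ⟨?_, ?_⟩, ⟨?_, ?_⟩⟩
  · have : (-(⌈R + M⌉ : ℝ)) ≤ k.1 := by linarith [h2.1]
    exact_mod_cast this
  · have : (k.1 : ℝ) ≤ ⌈R + M⌉ := by linarith [h2.2]
    exact_mod_cast this
  · have : (-(⌈R + M⌉ : ℝ)) ≤ k.2 := by linarith [h3.1]
    exact_mod_cast this
  · have : (k.2 : ℝ) ≤ ⌈R + M⌉ := by linarith [h3.2]
    exact_mod_cast this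

lemma exists_radius_le : ∃ R : ℝ, 0 < R ∧ ∀ i, B.radius i ≤ R := by
  have := B.fin
  obtain ⟨M, hM⟩ := (Set.finite_range (fun i => B.radius i)).bddAbove
  exact ⟨max M 1, by positivity, fun i => (hM ⟨i, rfl⟩).trans (le_max_left _ _)⟩

lemma exists_le_radius : ∃ r : ℝ, 0 < r ∧ r ≤ 1 ∧ ∀ i, r ≤ B.radius i := by
  have := B.fin
  by_cases hne : Nonempty B.ι
  · obtain ⟨i0, hi0⟩ := Finite.exists_min (fun i => B.radius i)
    exact ⟨min (B.radius i0) 1, lt_min (B.radius_pos i0) one_pos, min_le_right _ _,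
      fun i => (min_le_left _ _).trans (hi0 i)⟩
  · exact ⟨1, one_pos, le_rfl, fun i => (hne ⟨i⟩).elim⟩

/-- a compact set which misses a family of lifts stays away from them -/
lemma exists_gap {K : Set ℂ} (hK : IsCompact K) (S : Set (B.ι × (ℤ × ℤ)))
    (h : ∀ p ∈ S, ∀ z ∈ K, ¬ B.InDisk p.1 p.2 z) :
    ∃ δ : ℝ, 0 < δ ∧ ∀ p ∈ S, ∀ z ∈ K,
      B.radius p.1 + δ ≤ ‖z - (B.center p.1 + lat p.2)‖ := by
  obtain ⟨ρ, hρ, hρ'⟩ := B.exists_radius_le
  obtain ⟨R, hR⟩ := hK.isBounded.exists_norm_le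
  set F : Set (B.ι × (ℤ × ℤ)) := {p | ‖B.center p.1 + lat p.2‖ ≤ R + ρ + 1} with hF
  have hFfin : F.Finite := finite_lifts _
  have key : ∀ p ∈ F ∩ S, ∀ᶠ δ in 𝓝[>] (0 : ℝ), ∀ z ∈ K,
      B.radius p.1 + δ ≤ ‖z - (B.center p.1 + lat p.2)‖ := by
    rintro p ⟨-, hp⟩
    rcases K.eq_empty_or_nonempty with hKe | hKn
    · subst hKe; simp
    · have hc : ContinuousOn (fun z : ℂ => ‖z - (B.center p.1 + lat p.2)‖) K := by fun_prop
      obtain ⟨z0, hz0, hmin⟩ := hK.exists_isMinOn hKn hc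
      have h1 : B.radius p.1 < ‖z0 - (B.center p.1 + lat p.2)‖ := by
        have := h p hp z0 hz0
        unfold InDisk at this
        exact not_le.mp this
      have h2 : ∀ᶠ δ in 𝓝[>] (0 : ℝ), δ < ‖z0 - (B.center p.1 + lat p.2)‖ - B.radius p.1 :=
        eventually_nhdsWithin_of_eventually_nhds (eventually_lt_nhds (by linarith))
      filter_upwards [h2] with δ hδ z hz
      have h3 : ‖z0 - (B.center p.1 + lat p.2)‖ ≤ ‖z - (B.center p.1 + lat p.2)‖ := hmin hz
      linarith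
  have key2 := (Filter.eventually_all_finite (hFfin.inter_of_left S)).mpr key
  have h1 : ∀ᶠ δ in 𝓝[>] (0 : ℝ), δ < 1 :=
    eventually_nhdsWithin_of_eventually_nhds (eventually_lt_nhds one_pos)
  have h2 : ∀ᶠ δ in 𝓝[>] (0 : ℝ), 0 < δ := eventually_mem_nhdsWithin
  obtain ⟨δ, hδ1, hδ2, hδ3⟩ := (key2.and (h1.and h2)).exists
  refine ⟨δ, hδ3, fun p hp z hz => ?_⟩
  by_cases hpF : p ∈ F
  · exact hδ1 p ⟨hpF, hp⟩ z hz
  · have h4 : R + ρ + 1 < ‖B.center p.1 + lat p.2‖ := not_le.mp hpF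
    have h5 := hR z hz
    have h6 := hρ' p.1
    have h7 : ‖B.center p.1 + lat p.2‖ ≤ ‖z - (B.center p.1 + lat p.2)‖ + ‖z‖ := by
      calc ‖B.center p.1 + lat p.2‖ = ‖z - (z - (B.center p.1 + lat p.2))‖ := by congr 1; ring
        _ ≤ ‖z‖ + ‖z - (B.center p.1 + lat p.2)‖ := norm_sub_le _ _
        _ = _ := add_comm _ _
    linarith

/-- a particle which leaves a disk does not meet this disk again -/
lemma own_free {x : B.State} (hx : x ∈ B.M) {s : ℝ} (hs : 0 < s) :
    ¬ B.InDisk x.i 0 (x.pos + s * x.v) := by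
  obtain ⟨hn, hv, hc⟩ := hx
  intro h
  unfold InDisk at h
  have h1 : x.pos + s * x.v - (B.center x.i + lat 0) =
      (B.radius x.i * x.n) + s * x.v := by
    rw [lat_zero]; unfold State.pos; ring
  rw [h1] at h
  have hr := B.radius_pos x.i
  have h2 := norm_add_sq (B.radius x.i * x.n) x.v s
  have h3 : ‖(B.radius x.i * x.n : ℂ)‖ = B.radius x.i := by
    rw [norm_mul, hn, mul_one, Complex.norm_real, Real.norm_eq_abs, abs_of_pos hr]
  have h4 : (x.v * (starRingEnd ℂ) (B.radius x.i * x.n)).re = B.radius x.i * x.cosφ := by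
    unfold State.cosφ
    rw [map_mul, Complex.conj_ofReal]
    simp
    ring
  rw [h3, h4, hv] at h2
  have h5 : ‖(B.radius x.i * x.n : ℂ) + s * x.v‖ ^ 2 ≤ B.radius x.i ^ 2 :=
    pow_le_pow_left₀ (norm_nonneg _) h 2
  have h6 : 0 ≤ 2 * s * (B.radius x.i * x.cosφ) := by positivity
  nlinarith [sq_pos_of_pos hs]

lemma pos_inDisk {x : B.State} (hn : ‖x.n‖ = 1) (k : ℤ × ℤ) :
    B.InDisk x.i k (x.pos + lat k) := by
  unfold InDisk State.pos
  have : B.center x.i + B.radius x.i * x.n + lat k - (B.center x.i + lat k) =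
      B.radius x.i * x.n := by ring
  rw [this, norm_mul, hn, mul_one, Complex.norm_real, Real.norm_eq_abs,
    abs_of_pos (B.radius_pos x.i)]

/-- the time of a free flight is bounded by the horizon -/
lemma flight_le {L : ℝ} (hL : ∀ q u : ℂ, ‖u‖ = 1 → ∃ t : ℝ, 0 ≤ t ∧ t ≤ L ∧
      ∃ i k, B.InDisk i k (q + t * u)) {q v : ℂ} (hv : ‖v‖ = 1) {t : ℝ}
    (hfree : ∀ s : ℝ, 0 < s → s < t → ∀ i k, ¬ B.InDisk i k (q + s * v)) : t ≤ L := by
  by_contra hcon
  push Not at hcon
  obtain ⟨t', h1, h2, i, k, h3⟩ := hL (q + ((t - L) / 2 : ℝ) * v) v hv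
  refine hfree ((t - L) / 2 + t') (by linarith) (by linarith) i k ?_
  convert h3 using 1
  push_cast
  ring

theorem exists_next (hfh : B.FiniteHorizon) {x : B.State} (hx : x ∈ B.M) :
    ∃ y, B.Next x y := by
  obtain ⟨hn, hv, hc⟩ := id hx
  obtain ⟨L, hL⟩ := hfh
  obtain ⟨t', ht'0, ht'L, i1, k1, h1⟩ := hL (x.pos + (1 : ℝ) * x.v) x.v hv
  have h1' : B.InDisk i1 k1 (x.pos + ((1 + t' : ℝ)) * x.v) := by
    convert h1 using 1
    push_cast
    ring
  set t1 : ℝ := 1 + t' with ht1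
  have ht1pos : 0 < t1 := by linarith
  set q : ℝ → ℂ := fun s => x.pos + s * x.v with hq
  have hqc : Continuous q := by fun_prop
  obtain ⟨ρ, hρ, hρ'⟩ := B.exists_radius_le
  set R : ℝ := ‖x.pos‖ + t1 + ρ with hR
  set F : Set (B.ι × (ℤ × ℤ)) := {p | ‖B.center p.1 + lat p.2‖ ≤ R} with hF
  have hFfin : F.Finite := finite_lifts _
  set H : Set ℝ := Set.Icc 0 t1 ∩ ⋃ p ∈ F \ {(x.i, 0)}, {s : ℝ | B.InDisk p.1 p.2 (q s)}
    with hH
  have hclosed : IsClosed (⋃ p ∈ F \ {(x.i, 0)}, {s : ℝ | B.InDisk p.1 p.2 (q s)}) := by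
    refine (hFfin.subset Set.sdiff_subset).isClosed_biUnion ?_
    rintro p -
    unfold InDisk
    exact isClosed_le (by fun_prop) continuous_const
  have hHc : IsCompact H := isCompact_Icc.inter_right hclosed
  -- every hit before `t1` lies in `H`
  have hmem : ∀ s : ℝ, 0 < s → s ≤ t1 → ∀ i k, B.InDisk i k (q s) → s ∈ H := by
    intro s hs hs1 i k hik
    refine ⟨⟨hs.le, hs1⟩, ?_⟩
    simp only [Set.mem_iUnion]
    refine ⟨(i, k), ⟨?_, ?_⟩, hik⟩
    · have h2 : ‖q s‖ ≤ ‖x.pos‖ + t1 := by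
        calc ‖q s‖ ≤ ‖x.pos‖ + ‖(s : ℂ) * x.v‖ := norm_add_le _ _
          _ = ‖x.pos‖ + s := by
            rw [norm_mul, hv, mul_one, Complex.norm_real, Real.norm_eq_abs, abs_of_pos hs]
          _ ≤ _ := by linarith
      have h3 : ‖B.center i + lat k‖ ≤ ‖q s‖ + ‖q s - (B.center i + lat k)‖ := by
        calc ‖B.center i + lat k‖ = ‖q s - (q s - (B.center i + lat k))‖ := by
              congr 1; ring
          _ ≤ _ := norm_sub_le _ _
      have h4 : ‖q s - (B.center i + lat k)‖ ≤ B.radius i := hik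
      have h5 := hρ' i
      show ‖B.center i + lat k‖ ≤ R
      linarith
    · intro heq
      rw [Set.mem_singleton_iff, Prod.mk.injEq] at heq
      obtain ⟨h2, h3⟩ := heq
      subst h2 h3
      exact own_free hx hs hik
  have hne : H.Nonempty := ⟨t1, hmem t1 ht1pos le_rfl i1 k1 h1'⟩
  obtain ⟨t0, ht0, hleast⟩ := hHc.exists_isLeast hne
  obtain ⟨⟨ht00, ht01⟩, ht0'⟩ := ht0
  simp only [Set.mem_iUnion] at ht0'
  obtain ⟨⟨i, k⟩, ⟨-, hpne⟩, hik⟩ := ht0'
  have hik : B.InDisk i k (q t0) := hik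
  have ht0pos : 0 < t0 := by
    rcases ht00.eq_or_lt with h | h
    · exfalso
      have h2 : B.InDisk x.i 0 (q t0) := by
        have := pos_inDisk (B := B) hn 0
        rw [lat_zero, add_zero] at this
        rw [hq, ← h]
        simpa using this
      obtain ⟨h3, h4⟩ := inDisk_unique hik h2
      exact hpne (by rw [h3, h4]; rfl)
    · exact h
  have hfree : ∀ s : ℝ, 0 < s → s < t0 → ∀ i k, ¬ B.InDisk i k (q s) := by
    intro s hs hs0 j l hjl
    have := hleast (hmem s hs (hs0.le.trans ht01) j l hjl)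
    linarith
  -- the distance to the centre of the disk is exactly the radius
  set b : ℂ := q t0 - (B.center i + lat k) with hb
  have hr := B.radius_pos i
  have hexp : ∀ s : ℝ, ‖q s - (B.center i + lat k)‖ ^ 2 =
      ‖b‖ ^ 2 + 2 * (s - t0) * (x.v * (starRingEnd ℂ) b).re + (s - t0) ^ 2 := by
    intro s
    have h2 : q s - (B.center i + lat k) = b + ((s - t0 : ℝ) : ℂ) * x.v := by
      rw [hb, hq]; push_cast; ring
    rw [h2, norm_add_sq, hv]; ring
  have hbr : ‖b‖ = B.radius i := by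
    refine le_antisymm hik ?_
    have hcont : Continuous (fun s => ‖q s - (B.center i + lat k)‖) := by fun_prop
    have h2 : Tendsto (fun s => ‖q s - (B.center i + lat k)‖) (𝓝[<] t0) (𝓝 ‖b‖) :=
      hcont.continuousWithinAt.tendsto
    refine ge_of_tendsto h2 ?_
    have h3 : ∀ᶠ s in 𝓝[<] t0, 0 < s :=
      eventually_nhdsWithin_of_eventually_nhds (eventually_gt_nhds ht0pos)
    filter_upwards [h3, eventually_mem_nhdsWithin] with s hs hs0
    have := hfree s hs hs0 i k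
    unfold InDisk at this
    exact (not_le.mp this).le
  have hvb : (x.v * (starRingEnd ℂ) b).re ≤ 0 := by
    by_contra hcon
    push Not at hcon
    set a := (x.v * (starRingEnd ℂ) b).re with ha
    -- take s slightly below t0
    set e := min (t0 / 2) a with he
    have he0 : 0 < e := lt_min (by linarith) hcon
    have h2 := hexp (t0 - e)
    have h3 : B.radius i < ‖q (t0 - e) - (B.center i + lat k)‖ := by
      have h4 : e ≤ t0 / 2 := min_le_left _ _
      have := hfree (t0 - e) (by linarith) (by linarith) i k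
      unfold InDisk at this
      exact not_le.mp this
    have h5 : B.radius i ^ 2 < ‖q (t0 - e) - (B.center i + lat k)‖ ^ 2 :=
      pow_lt_pow_left₀ h3 hr.le two_ne_zero
    rw [h2, hbr] at h5
    have h6 : e ≤ a := min_le_right _ _
    nlinarith
  set n' : ℂ := b / B.radius i with hn'
  have hn'1 : ‖n'‖ = 1 := by
    rw [hn', norm_div, hbr, Complex.norm_real, Real.norm_eq_abs, abs_of_pos hr, div_self hr.ne']
  have hvn : (x.v * (starRingEnd ℂ) n').re ≤ 0 := by
    have h2 : (x.v * (starRingEnd ℂ) n') = (x.v * (starRingEnd ℂ) b) * ((1 / B.radius i : ℝ) : ℂ) := by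
      rw [hn', map_div₀, Complex.conj_ofReal]
      push_cast
      ring
    rw [h2, Complex.re_mul_ofReal]
    exact mul_nonpos_of_nonpos_of_nonneg hvb (by positivity)
  refine ⟨⟨i, n', x.v - (2 * (x.v * (starRingEnd ℂ) n').re : ℝ) * n'⟩, ⟨hn'1, ?_, ?_⟩,
    t0, ht0pos, ⟨k, ?_⟩, hfree, rfl⟩
  · show ‖x.v - (2 * (x.v * (starRingEnd ℂ) n').re : ℝ) * n'‖ = 1
    rw [reflect_norm _ _ hn'1, hv]
  · show 0 ≤ ((x.v - (2 * (x.v * (starRingEnd ℂ) n').re : ℝ) * n') * (starRingEnd ℂ) n').re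
    rw [reflect_re _ _ hn'1]
    linarith
  · show x.pos + t0 * x.v = B.center i + B.radius i * n' + lat k
    have : (B.radius i : ℂ) * n' = b := by
      rw [hn']; field_simp [hr.ne']
    rw [this, hb, hq]
    ring

theorem next_unique {x y z : B.State} (hx : x ∈ B.M) (hy : B.Next x y) (hz : B.Next x z) :
    y = z := by
  obtain ⟨hyM, t, ht, ⟨k, hk⟩, hfree, hyv⟩ := hy
  obtain ⟨hzM, s, hs, ⟨l, hl⟩, hfree', hzv⟩ := hz
  have hts : t = s := by
    rcases lt_trichotomy t s with h | h | h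
    · exfalso
      refine hfree' t ht h y.i k ?_
      rw [hk]; exact pos_inDisk hyM.1 k
    · exact h
    · exfalso
      refine hfree s hs h z.i l ?_
      rw [hl]; exact pos_inDisk hzM.1 l
  subst hts
  rw [hk] at hl
  have h1 := pos_inDisk (B := B) hyM.1 k
  have h2 : B.InDisk z.i l (y.pos + lat k) := by rw [hl]; exact pos_inDisk hzM.1 l
  obtain ⟨h3, h4⟩ := inDisk_unique h1 h2
  obtain ⟨i, n, v⟩ := y
  obtain ⟨i', n', v'⟩ := z
  simp only at h3 h4 hyv hzv
  subst h3 h4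
  have hr := B.radius_pos i
  have h5 : n = n' := by
    unfold State.pos at hl
    simp only [add_left_inj, add_right_inj] at hl
    have : (B.radius i : ℂ) ≠ 0 := by exact_mod_cast hr.ne'
    exact mul_left_cancel₀ this hl
  subst h5
  rw [hyv, hzv]

theorem next_T (hfh : B.FiniteHorizon) {x : B.State} (hx : x ∈ B.M) : B.Next x (B.T x) := by
  unfold T
  rw [dif_pos (exists_next hfh hx)]
  exact (exists_next hfh hx).choose_spec

end DiskTable
end Pool.Agent.Lib.MP_79f2f8_an
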