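import Mathlib

/-!
# The finite difference system of two dispersing billiard orbits (real variables)
-/

open Real Finset

namespace Pool.Agent.Lib.MP_79f2f8_an.FD

lemma in_id (r r' φ φ' T K : ℝ) (h : φ' - φ = K + T) :
    r' * sin (φ' - T / 2) - r * sin (φ + T / 2) =
      (r + r') * cos ((φ + φ') / 2) * sin (K / 2) +
        (r' - r) * sin ((φ + φ') / 2) * cos (K / 2) := by
  have e1 : φ' - T / 2 = (φ + φ') / 2 + K / 2 := by linarith
  have e2 : φ + T / 2 = (φ + φ') / 2 - K / 2 := by linarith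
  rw [e1, e2, sin_add, sin_sub]; ring

lemma out_id (r r' φ φ' T K : ℝ) (h : φ' - φ = T - K) :
    r * sin (φ + T / 2) - r' * sin (φ' - T / 2) =
      (r + r') * cos ((φ + φ') / 2) * sin (K / 2) -
        (r' - r) * sin ((φ + φ') / 2) * cos (K / 2) := by
  have e1 : φ + T / 2 = (φ + φ') / 2 + K / 2 := by linarith
  have e2 : φ' - T / 2 = (φ + φ') / 2 - K / 2 := by linarith
  rw [e1, e2, sin_add, sin_sub]; ring

/-- `1 - sin x ≤ cos² x` for `sin x ≥ 0` -/
lemma one_sub_sin_le {x : ℝ} (h : 0 ≤ sin x) : 1 - sin x ≤ cos x ^ 2 := by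
  have h1 := sin_sq_add_cos_sq x
  have h2 := sin_le_one x
  nlinarith

lemma nonneg_of_sin {x : ℝ} (hx : |x| ≤ π / 2) (h : 0 ≤ sin x) : 0 ≤ x := by
  by_contra hc
  push Not at hc
  have := sin_neg_of_neg_of_neg_pi_lt hc (by linarith [(abs_le.mp hx).1, pi_pos])
  linarith

lemma nonpos_of_sin {x : ℝ} (hx : |x| ≤ π / 2) (h : sin x ≤ 0) : x ≤ 0 := by
  have := nonneg_of_sin (x := -x) (by rwa [abs_neg]) (by rw [sin_neg]; linarith)
  linarith

lemma small_case {φ φ' r r' : ℝ} (hr : 0 < r) (hrr : r ≤ r')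
    (hφ : |φ| ≤ 2 / 5) (hφ' : |φ'| ≤ 2 / 5) :
    |r' * sin φ' - r * sin φ| ≤ (r' - r) + r * cos φ ^ 2 + r' * cos φ' ^ 2 := by
  have hr' : 0 < r' := lt_of_lt_of_le hr hrr
  have q1 := sin_sq_add_cos_sq φ
  have q2 := sin_sq_add_cos_sq φ'
  have a1 : |sin φ| ≤ 2 / 5 := le_trans (abs_sin_le_abs) hφ
  have a2 : |sin φ'| ≤ 2 / 5 := le_trans (abs_sin_le_abs) hφ'
  have c1 : |sin φ| ≤ cos φ ^ 2 := by
    have : sin φ ^ 2 ≤ (2 / 5) ^ 2 := by rw [← sq_abs]; exact pow_le_pow_left₀ (abs_nonneg _) a1 2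
    linarith
  have c2 : |sin φ'| ≤ cos φ' ^ 2 := by
    have : sin φ' ^ 2 ≤ (2 / 5) ^ 2 := by rw [← sq_abs]; exact pow_le_pow_left₀ (abs_nonneg _) a2 2
    linarith
  calc |r' * sin φ' - r * sin φ| ≤ |r' * sin φ'| + |r * sin φ| := abs_sub _ _
    _ = r' * |sin φ'| + r * |sin φ| := by rw [abs_mul, abs_mul, abs_of_pos hr, abs_of_pos hr']
    _ ≤ r' * cos φ' ^ 2 + r * cos φ ^ 2 := by gcongr
    _ ≤ _ := by linarith

/-- the end point inequality -/
lemma end_ineq {φ φ' r r' : ℝ} (hr : 0 < r) (hrr : r ≤ r')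
    (hφ : |φ| ≤ π / 2) (hφ' : |φ'| ≤ π / 2) (hd : |φ' - φ| ≤ 2 / 5) :
    |r' * sin φ' - r * sin φ| ≤ (r' - r) + r * cos φ ^ 2 + r' * cos φ' ^ 2 := by
  have hr' : 0 < r' := lt_of_lt_of_le hr hrr
  have s1 := sin_le_one φ
  have s2 := sin_le_one φ'
  have s3 := neg_one_le_sin φ
  have s4 := neg_one_le_sin φ'
  have hd' := abs_le.mp hd
  have p1 : 0 ≤ r * cos φ ^ 2 := by positivity
  have p2 : 0 ≤ r' * cos φ' ^ 2 := by positivity
  rcases le_total 0 (sin φ) with h | h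
  · rcases le_total 0 (sin φ') with h' | h'
    · have a1 := one_sub_sin_le h
      have a2 := one_sub_sin_le h'
      have b1 : r * (1 - sin φ) ≤ r * cos φ ^ 2 := mul_le_mul_of_nonneg_left a1 hr.le
      have b2 : r' * (1 - sin φ') ≤ r' * cos φ' ^ 2 := mul_le_mul_of_nonneg_left a2 hr'.le
      have p3 : 0 ≤ r * (1 - sin φ) := mul_nonneg hr.le (by linarith)
      have p4 : 0 ≤ r' * (1 - sin φ') := mul_nonneg hr'.le (by linarith)
      rw [abs_le]; constructor <;> nlinarith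
    · have e1 := nonneg_of_sin hφ h
      have e2 := nonpos_of_sin hφ' h'
      exact small_case hr hrr (abs_le.mpr ⟨by linarith, by linarith⟩)
        (abs_le.mpr ⟨by linarith, by linarith⟩)
  · rcases le_total 0 (sin φ') with h' | h'
    · have e1 := nonpos_of_sin hφ h
      have e2 := nonneg_of_sin hφ' h'
      exact small_case hr hrr (abs_le.mpr ⟨by linarith, by linarith⟩)
        (abs_le.mpr ⟨by linarith, by linarith⟩)
    · have a1 := one_sub_sin_le (x := -φ) (by rw [sin_neg]; linarith)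
      have a2 := one_sub_sin_le (x := -φ') (by rw [sin_neg]; linarith)
      rw [sin_neg, cos_neg] at a1 a2
      have b1 : r * (1 - -sin φ) ≤ r * cos φ ^ 2 := mul_le_mul_of_nonneg_left a1 hr.le
      have b2 : r' * (1 - -sin φ') ≤ r' * cos φ' ^ 2 := mul_le_mul_of_nonneg_left a2 hr'.le
      have p3 : 0 ≤ r * (1 + sin φ) := mul_nonneg hr.le (by linarith)
      have p4 : 0 ≤ r' * (1 + sin φ') := mul_nonneg hr'.le (by linarith)
      rw [abs_le]; constructor <;> nlinarith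

/-- `sin (T/2) ≥ 0.99 T/2` for small `T ≥ 0` -/
lemma sin_half_ge {T : ℝ} (h0 : 0 ≤ T) (h1 : T ≤ 4 / 25) : 99 / 100 * (T / 2) ≤ sin (T / 2) := by
  rcases h0.eq_or_lt with h | h
  · subst h; simp
  have := sin_gt_sub_cube (x := T / 2) (by linarith)
  have h2 : (T / 2) ^ 3 / 6 ≤ 1 / 100 * (T / 2) := by
    have : (T / 2) ^ 2 ≤ (2 / 25) ^ 2 := pow_le_pow_left₀ (by linarith) (by linarith) 2
    nlinarith
  linarith

/-- the mean cosine is at most twice each of two comparable cosines -/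
lemma mean_cos_le {φ φ' : ℝ} (hd : |φ' - φ| ≤ 2 / 5) (h0 : 0 ≤ cos φ)
    (h : cos φ' ≤ 11 / 4 * cos φ) : cos ((φ + φ') / 2) ≤ 2 * cos φ := by
  have e : cos φ + cos φ' = 2 * cos ((φ + φ') / 2) * cos ((φ - φ') / 2) := cos_add_cos φ φ'
  have h1 : 49 / 50 ≤ cos ((φ - φ') / 2) := by
    have := one_sub_sq_div_two_le_cos (x := (φ - φ') / 2)
    have h2 : ((φ - φ') / 2) ^ 2 ≤ (1 / 5) ^ 2 := by
      rw [← sq_abs]
      apply pow_le_pow_left₀ (abs_nonneg _)
      rw [abs_div, abs_sub_comm, abs_two]; linarith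
    nlinarith
  by_contra hc
  push Not at hc
  have : 0 < cos ((φ + φ') / 2) := by linarith
  nlinarith


/-- The finite difference system. -/
structure Sys (m : ℕ) (φ φ' T K r r' l l' : ℕ → ℝ) (D rm Lm L0 : ℝ) : Prop where
  h1 : ∀ j < m, φ' j - φ j = T j - K j
  h2 : ∀ j < m, φ' (j + 1) - φ (j + 1) = K (j + 1) + T j
  h3 : ∀ j < m, r' (j + 1) * sin (φ' (j + 1) - T j / 2) - r (j + 1) * sin (φ (j + 1) + T j / 2) =
    r j * sin (φ j + T j / 2) - r' j * sin (φ' j - T j / 2) + (l j + l' j) * sin (T j / 2)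
  bφ : ∀ j ≤ m, |φ j| ≤ π / 2
  bφ' : ∀ j ≤ m, |φ' j| ≤ π / 2
  bT : ∀ j < m, |T j| ≤ 4 / 25
  bK : ∀ j ≤ m, |K j| ≤ 4 / 25
  r0 : ∀ j ≤ m, 0 < r j
  rrm : ∀ j ≤ m, r' j ≤ rm
  kick : ∀ j ≤ m, r' j = r j ∨ r' j = r j + D
  kick0 : r' 0 = r 0 + D
  kick2 : ∀ j < m, r' j = r j + D → r' (j + 1) = r (j + 1)
  bl : ∀ j < m, L0 ≤ l j ∧ l j ≤ Lm
  bl' : ∀ j < m, L0 ≤ l' j ∧ l' j ≤ Lm
  D0 : 0 < D
  L0p : 0 < L0
  rL : rm ≤ 49 / 25 * L0

namespace Sys

variable {m : ℕ} {φ φ' T K r r' l l' : ℕ → ℝ} {D rm Lm L0 : ℝ}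

/-- mean cosine -/
noncomputable def c (φ φ' : ℕ → ℝ) (j : ℕ) : ℝ := cos ((φ j + φ' j) / 2)
noncomputable def W (φ φ' K r r' : ℕ → ℝ) (j : ℕ) : ℝ := (r j + r' j) * c φ φ' j * sin (K j / 2)
noncomputable def a (φ φ' : ℕ → ℝ) (j : ℕ) : ℝ := 1 + 1 / c φ φ' j
noncomputable def P (φ φ' : ℕ → ℝ) (j : ℕ) : ℝ := ∏ i ∈ Ico 1 j, a φ φ' i

/-- the incoming width at collision `j+1` -/
noncomputable def Z (φ φ' T r r' : ℕ → ℝ) (j : ℕ) : ℝ :=
  r' (j + 1) * sin (φ' (j + 1) - T j / 2) - r (j + 1) * sin (φ (j + 1) + T j / 2)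

lemma rle (S : Sys m φ φ' T K r r' l l' D rm Lm L0) {j : ℕ} (hj : j ≤ m) : r j ≤ r' j := by
  rcases S.kick j hj with h | h
  · exact h.ge
  · linarith [S.D0]

lemma rm_pos (S : Sys m φ φ' T K r r' l l' D rm Lm L0) : 0 < rm := by
  have := S.r0 0 (Nat.zero_le _)
  have h1 := S.rle (Nat.zero_le _)
  have h2 := S.rrm 0 (Nat.zero_le _)
  linarith

lemma c_le (φ φ' : ℕ → ℝ) (j : ℕ) : c φ φ' j ≤ 1 := cos_le_one _

lemma c_nonneg (S : Sys m φ φ' T K r r' l l' D rm Lm L0) {j : ℕ} (hj : j ≤ m) :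
    0 ≤ c φ φ' j := by
  have h1 := abs_le.mp (S.bφ j hj)
  have h2 := abs_le.mp (S.bφ' j hj)
  exact cos_nonneg_of_mem_Icc ⟨by linarith, by linarith⟩

lemma a_ge {j : ℕ} (h : 0 < c φ φ' j) : 2 ≤ a φ φ' j := by
  have : 1 ≤ 1 / c φ φ' j := by
    rw [le_div_iff₀ h]; linarith [c_le φ φ' j]
  unfold a; linarith

/-- `K_j rm ≥ W_j / c_j` -/
lemma K_ge (S : Sys m φ φ' T K r r' l l' D rm Lm L0) {j : ℕ} (hj : j ≤ m)
    (hc : 0 < c φ φ' j) (hK : 0 < K j) : W φ φ' K r r' j / c φ φ' j ≤ rm * K j := by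
  have e : W φ φ' K r r' j / c φ φ' j = (r j + r' j) * sin (K j / 2) := by
    unfold W; field_simp
  rw [e]
  have h1 : sin (K j / 2) ≤ K j / 2 := sin_le (by linarith)
  have h2 : 0 ≤ sin (K j / 2) := by
    apply sin_nonneg_of_nonneg_of_le_pi (by linarith)
    have := (abs_le.mp (S.bK j hj)).2
    linarith [pi_gt_three]
  have h3 := S.rrm j hj
  have h4 := S.rle hj
  have h5 := S.r0 j hj
  nlinarith

lemma pos_of_W (S : Sys m φ φ' T K r r' l l' D rm Lm L0) {j : ℕ} (hj : j ≤ m)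
    (hW : 0 < W φ φ' K r r' j) : 0 < c φ φ' j ∧ 0 < K j := by
  have h5 := S.r0 j hj
  have h4 := S.rle hj
  have h6 := S.c_nonneg hj
  unfold W at hW
  have hc : 0 < c φ φ' j := by
    rcases h6.eq_or_lt with h | h
    · rw [← h] at hW; simp at hW
    · exact h
  refine ⟨hc, ?_⟩
  by_contra hK
  push Not at hK
  have : sin (K j / 2) ≤ 0 := by
    apply sin_nonpos_of_nonpos_of_neg_pi_le (by linarith)
    have := (abs_le.mp (S.bK j hj)).1
    linarith [pi_gt_three]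
  have h7 : 0 ≤ (r j + r' j) * c φ φ' j := mul_nonneg (by linarith) hc.le
  have : (r j + r' j) * c φ φ' j * sin (K j / 2) ≤ 0 :=
    mul_nonpos_of_nonneg_of_nonpos h7 this
  linarith

lemma Z_eq (S : Sys m φ φ' T K r r' l l' D rm Lm L0) {j : ℕ} (hj : j < m) :
    Z φ φ' T r r' j = W φ φ' K r r' j -
      (r' j - r j) * sin ((φ j + φ' j) / 2) * cos (K j / 2) + (l j + l' j) * sin (T j / 2) := by
  unfold Z
  rw [S.h3 j hj, out_id _ _ _ _ _ _ (S.h1 j hj)]
  rfl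

lemma Z_eq' (S : Sys m φ φ' T K r r' l l' D rm Lm L0) {j : ℕ} (hj : j < m) :
    Z φ φ' T r r' j = W φ φ' K r r' (j + 1) +
      (r' (j + 1) - r (j + 1)) * sin ((φ (j + 1) + φ' (j + 1)) / 2) * cos (K (j + 1) / 2) := by
  unfold Z
  rw [in_id _ _ _ _ _ _ (S.h2 j hj)]
  rfl

lemma abs_sc (x y : ℝ) : |sin x * cos y| ≤ 1 := by
  rw [abs_mul]
  have h1 := abs_sin_le_one x
  have h2 := abs_cos_le_one y
  nlinarith [abs_nonneg (sin x), abs_nonneg (cos y)]

/-- state of the induction -/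
structure St (φ φ' T K r r' : ℕ → ℝ) (D : ℝ) (j : ℕ) : Prop where
  c0 : 0 < c φ φ' j
  K0 : 0 < K j
  W0 : 0 < W φ φ' K r r' j
  T0 : 99 / 50 * K j ≤ T j
  P0 : 0 < P φ φ' j
  nk : r' j = r j → (3 / 4 + P φ φ' j / 10) * D ≤ W φ φ' K r r' j
  ki : r' j = r j + D → 2 ≤ j ∧ 0 < c φ φ' (j - 1) ∧ 0 < K (j - 1) ∧ 0 < P φ φ' (j - 1) ∧
    (3 / 4 + P φ φ' (j - 1) / 10) * D ≤ W φ φ' K r r' (j - 1) ∧
    a φ φ' (j - 1) * W φ φ' K r r' (j - 1) - D ≤ W φ φ' K r r' j ∧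
    99 / 50 * (K j + K (j - 1)) ≤ T j

lemma P_succ (φ φ' : ℕ → ℝ) {j : ℕ} (hj : 1 ≤ j) : P φ φ' (j + 1) = P φ φ' j * a φ φ' j := by
  unfold P; rw [Finset.prod_Ico_succ_top hj]

lemma flow (S : Sys m φ φ' T K r r' l l' D rm Lm L0) {j : ℕ} (hj : j < m) (hT : 0 ≤ T j) :
    99 / 100 * L0 * T j ≤ (l j + l' j) * sin (T j / 2) := by
  have h1 := sin_half_ge hT (abs_le.mp (S.bT j hj)).2
  have h2 := (S.bl j hj).1
  have h3 := (S.bl' j hj).1
  have h4 : 0 ≤ sin (T j / 2) := by linarith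
  have h5 := S.L0p
  nlinarith

lemma zlow (S : Sys m φ φ' T K r r' l l' D rm Lm L0) {j : ℕ} (hj1 : 1 ≤ j) (hj : j < m)
    (H : St φ φ' T K r r' D j) :
    (r' (j + 1) = r (j + 1) → (3 / 4 + P φ φ' (j + 1) / 10) * D ≤ Z φ φ' T r r' j) ∧
    (r' (j + 1) = r (j + 1) + D → r' j = r j ∧
      a φ φ' j * W φ φ' K r r' j ≤ Z φ φ' T r r' j) := by
  have hT : 0 ≤ T j := by linarith [H.T0, H.K0]
  have hfl := S.flow hj hT
  have hZ := S.Z_eq hj
  have hK := S.K_ge hj.le H.c0 H.K0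
  have ha := a_ge H.c0
  have hrm := S.rm_pos
  have hD := S.D0
  have hL := S.rL
  have hL0 := S.L0p
  have eaW : a φ φ' j * W φ φ' K r r' j = W φ φ' K r r' j + W φ φ' K r r' j / c φ φ' j := by
    unfold a; ring
  rcases S.kick j hj.le with hk | hk
  · -- no kick at j
    have hnk := H.nk hk
    have h1 : a φ φ' j * W φ φ' K r r' j ≤ Z φ φ' T r r' j := by
      rw [hZ, hk, eaW]
      have : rm * K j ≤ 99 / 100 * L0 * T j := by
        have := H.T0
        have h3 : 99 / 100 * L0 * (99 / 50 * K j) ≤ 99 / 100 * L0 * T j := by gcongr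
        have h4 : rm * K j ≤ 49 / 25 * L0 * K j := mul_le_mul_of_nonneg_right hL H.K0.le
        nlinarith [mul_pos hL0 H.K0]
      have e0 : (r j - r j) * sin ((φ j + φ' j) / 2) * cos (K j / 2) = 0 := by ring
      rw [e0]; linarith
    refine ⟨fun _ => ?_, fun _ => ⟨hk, h1⟩⟩
    rw [P_succ φ φ' hj1]
    refine le_trans ?_ h1
    calc (3 / 4 + P φ φ' j * a φ φ' j / 10) * D
        ≤ a φ φ' j * ((3 / 4 + P φ φ' j / 10) * D) := by nlinarith
      _ ≤ _ := by gcongr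
  · -- kick at j
    have hnext := S.kick2 j hj hk
    refine ⟨fun _ => ?_, fun h => by linarith⟩
    obtain ⟨j2, cm, Km, Pm, Wm, Wj, Tj⟩ := H.ki hk
    have hKm := S.K_ge (j := j - 1) (by omega) cm Km
    have ham := a_ge cm
    have eaWm : a φ φ' (j - 1) * W φ φ' K r r' (j - 1) = W φ φ' K r r' (j - 1) +
        W φ φ' K r r' (j - 1) / c φ φ' (j - 1) := by
      unfold a; ring
    have hf2 : rm * K j + rm * K (j - 1) ≤ 99 / 100 * L0 * T j := by
      have h3 : 99 / 100 * L0 * (99 / 50 * (K j + K (j - 1))) ≤ 99 / 100 * L0 * T j := by gcongr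
      have h4 : rm * K j ≤ 49 / 25 * L0 * K j := mul_le_mul_of_nonneg_right hL H.K0.le
      have h5 : rm * K (j - 1) ≤ 49 / 25 * L0 * K (j - 1) := mul_le_mul_of_nonneg_right hL Km.le
      nlinarith [mul_pos hL0 H.K0, mul_pos hL0 Km]
    have e0 : (r' j - r j) * sin ((φ j + φ' j) / 2) * cos (K j / 2) ≤ D := by
      have h6 : r' j - r j = D := by linarith
      rw [h6, mul_assoc]
      have := (abs_le.mp (abs_sc ((φ j + φ' j) / 2) (K j / 2))).2
      nlinarith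
    have hZ2 : a φ φ' j * W φ φ' K r r' j - D +
        (a φ φ' (j - 1) - 1) * W φ φ' K r r' (j - 1) ≤ Z φ φ' T r r' j := by
      rw [hZ, eaW]
      have : (a φ φ' (j - 1) - 1) * W φ φ' K r r' (j - 1) =
        W φ φ' K r r' (j - 1) / c φ φ' (j - 1) := by unfold a; ring
      rw [this]; linarith
    have hP : P φ φ' (j + 1) = P φ φ' (j - 1) * a φ φ' (j - 1) * a φ φ' j := by
      rw [P_succ φ φ' hj1]
      obtain ⟨i, rfl⟩ : ∃ i, j = i + 1 := ⟨j - 1, by omega⟩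
      rw [Nat.add_sub_cancel, P_succ φ φ' (by omega)]
    rw [hP]
    refine le_trans ?_ hZ2
    set w := W φ φ' K r r' (j - 1) with hw
    set wj := W φ φ' K r r' j with hwj
    set b := a φ φ' (j - 1) with hb
    set A := a φ φ' j with hA
    set p := P φ φ' (j - 1) with hp
    have s1 : A * (b * w - D) ≤ A * wj := mul_le_mul_of_nonneg_left Wj (by linarith)
    have s2 : (A * b + b - 1) * ((3 / 4 + p / 10) * D) ≤ (A * b + b - 1) * w :=
      mul_le_mul_of_nonneg_left Wm (by nlinarith)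
    have s3 : 0 ≤ (b - 1) * p * D := by
      apply mul_nonneg (mul_nonneg (by linarith) Pm.le) hD.le
    have s4 : 0 ≤ ((A + 1) * (3 / 4 * b - 1) - 3 / 2) * D := by
      apply mul_nonneg _ hD.le
      nlinarith [mul_nonneg (sub_nonneg.2 ha) (sub_nonneg.2 ham)]
    have key : A * wj - D + (b - 1) * w - (3 / 4 + p * b * A / 10) * D =
        (A * wj - A * (b * w - D)) +
        ((A * b + b - 1) * w - (A * b + b - 1) * ((3 / 4 + p / 10) * D)) +
        (b - 1) * p * D / 10 + ((A + 1) * (3 / 4 * b - 1) - 3 / 2) * D := by ring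
    linarith

lemma step (S : Sys m φ φ' T K r r' l l' D rm Lm L0) {j : ℕ} (hj1 : 1 ≤ j) (hj : j + 1 < m)
    (H : St φ φ' T K r r' D j) : St φ φ' T K r r' D (j + 1) := by
  obtain ⟨z1, z2⟩ := S.zlow hj1 (by omega) H
  have ha := a_ge H.c0
  have hD := S.D0
  have hZ := S.Z_eq' (j := j) (by omega)
  have hPs := P_succ φ φ' hj1
  have hP : 0 < P φ φ' (j + 1) := by rw [hPs]; exact mul_pos H.P0 (by linarith)
  have hTT : T (j + 1) = T j + 2 * K (j + 1) := by
    have e1 := S.h1 (j + 1) hj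
    have e2 := S.h2 j (by omega)
    linarith
  rcases S.kick (j + 1) hj.le with hk | hk
  · have z := z1 hk
    have e0 : W φ φ' K r r' (j + 1) = Z φ φ' T r r' j := by rw [hZ, hk]; ring
    have hWp : 0 < W φ φ' K r r' (j + 1) := by
      rw [e0]; refine lt_of_lt_of_le ?_ z; positivity
    obtain ⟨hc, hK⟩ := S.pos_of_W hj.le hWp
    refine ⟨hc, hK, hWp, by linarith [H.T0, H.K0], hP, fun _ => by rw [e0]; exact z,
      fun h => by linarith⟩
  · obtain ⟨hkj, z⟩ := z2 hk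
    have hnk := H.nk hkj
    have e0 : Z φ φ' T r r' j - D ≤ W φ φ' K r r' (j + 1) := by
      rw [hZ, hk, mul_assoc]
      have := (abs_le.mp (abs_sc ((φ (j + 1) + φ' (j + 1)) / 2) (K (j + 1) / 2))).2
      nlinarith
    have hWp : 0 < W φ φ' K r r' (j + 1) := by
      refine lt_of_lt_of_le ?_ e0
      have h3 : 2 * ((3 / 4 + P φ φ' j / 10) * D) ≤ a φ φ' j * W φ φ' K r r' j := by
        apply mul_le_mul ha hnk _ (by linarith)
        have := H.P0
        positivity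
      have h4 : 0 < P φ φ' j * D := mul_pos H.P0 hD
      nlinarith
    obtain ⟨hc, hK⟩ := S.pos_of_W hj.le hWp
    refine ⟨hc, hK, hWp, by linarith [H.T0, H.K0], hP, fun h => by linarith, fun _ => ?_⟩
    refine ⟨by omega, H.c0, H.K0, H.P0, hnk, ?_, ?_⟩
    · simp only [Nat.add_sub_cancel]; linarith
    · simp only [Nat.add_sub_cancel]; linarith [H.T0, H.K0]

lemma all_St (S : Sys m φ φ' T K r r' l l' D rm Lm L0) (H : St φ φ' T K r r' D 1) :
    ∀ j, 1 ≤ j → j < m → St φ φ' T K r r' D j := by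
  intro j hj1
  induction j, hj1 using Nat.le_induction with
  | base => intro _; exact H
  | succ j hj ih => intro h; exact S.step hj h (ih (by omega))

/-- the product of the mean cosines -/
lemma P_prod (S : Sys m φ φ' T K r r' l l' D rm Lm L0) (H : St φ φ' T K r r' D 1)
    (x : ℕ → ℝ) (hx : ∀ j, 1 ≤ j → j < m → 0 ≤ x j ∧ c φ φ' j ≤ 2 * x j) :
    1 ≤ P φ φ' m * ∏ j ∈ Ico 1 m, (2 * x j) := by
  unfold P
  rw [← Finset.prod_mul_distrib]
  have : (1 : ℝ) = ∏ j ∈ Ico 1 m, (1 : ℝ) := by simp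
  rw [this]
  apply Finset.prod_le_prod
  · intro i _; norm_num
  · intro i hi
    rw [Finset.mem_Ico] at hi
    have hc := (S.all_St H i hi.1 hi.2).c0
    have h1 := (hx i hi.1 hi.2)
    have : 1 / c φ φ' i * c φ φ' i = 1 := by field_simp
    unfold a
    have h2 : 0 < 1 / c φ φ' i := by positivity
    nlinarith

/-- lower bound at the end -/
lemma end_low (S : Sys m φ φ' T K r r' l l' D rm Lm L0) (hm : 2 ≤ m)
    (H : St φ φ' T K r r' D 1) :
    P φ φ' m / 10 * D ≤ r m * cos (φ m) ^ 2 + r' m * cos (φ' m) ^ 2 := by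
  obtain ⟨k, rfl⟩ : ∃ k, m = k + 1 := ⟨m - 1, by omega⟩
  have Hk := S.all_St H k (by omega) (by omega)
  obtain ⟨z1, z2⟩ := S.zlow (by omega) (by omega) Hk
  have hD := S.D0
  have hT : 0 ≤ T k := by linarith [Hk.T0, Hk.K0]
  have hTb := (abs_le.mp (S.bT k (by omega))).2
  have hd : |φ' (k + 1) - φ (k + 1)| ≤ 2 / 5 := by
    rw [S.h2 k (by omega)]
    calc |K (k + 1) + T k| ≤ |K (k + 1)| + |T k| := abs_add_le _ _
      _ ≤ 4 / 25 + 4 / 25 := add_le_add (S.bK _ le_rfl) (S.bT _ (by omega))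
      _ ≤ _ := by norm_num
  have he := end_ineq (S.r0 (k + 1) le_rfl) (S.rle le_rfl) (S.bφ _ le_rfl) (S.bφ' _ le_rfl) hd
  have hzu : Z φ φ' T r r' k ≤ (r' (k + 1) - r (k + 1)) + r (k + 1) * cos (φ (k + 1)) ^ 2 +
      r' (k + 1) * cos (φ' (k + 1)) ^ 2 := by
    refine le_trans ?_ he
    unfold Z
    have e : r' (k + 1) * sin (φ' (k + 1) - T k / 2) - r (k + 1) * sin (φ (k + 1) + T k / 2) =
      (r' (k + 1) * sin (φ' (k + 1)) - r (k + 1) * sin (φ (k + 1))) * cos (T k / 2) -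
      (r' (k + 1) * cos (φ' (k + 1)) + r (k + 1) * cos (φ (k + 1))) * sin (T k / 2) := by
      rw [sin_sub, sin_add]; ring
    rw [e]
    have c1 : 0 ≤ cos (φ (k + 1)) := by
      have := abs_le.mp (S.bφ (k + 1) le_rfl)
      exact cos_nonneg_of_mem_Icc ⟨by linarith, by linarith⟩
    have c2 : 0 ≤ cos (φ' (k + 1)) := by
      have := abs_le.mp (S.bφ' (k + 1) le_rfl)
      exact cos_nonneg_of_mem_Icc ⟨by linarith, by linarith⟩
    have s1 : 0 ≤ sin (T k / 2) :=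
      sin_nonneg_of_nonneg_of_le_pi (by linarith) (by linarith [pi_gt_three])
    have hr := S.r0 (k + 1) le_rfl
    have hr' : 0 < r' (k + 1) := lt_of_lt_of_le hr (S.rle le_rfl)
    have t1 : 0 ≤ (r' (k + 1) * cos (φ' (k + 1)) + r (k + 1) * cos (φ (k + 1))) * sin (T k / 2) := by
      positivity
    have t2 : (r' (k + 1) * sin (φ' (k + 1)) - r (k + 1) * sin (φ (k + 1))) * cos (T k / 2) ≤
        |r' (k + 1) * sin (φ' (k + 1)) - r (k + 1) * sin (φ (k + 1))| := by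
      have u1 := le_abs_self ((r' (k + 1) * sin (φ' (k + 1)) - r (k + 1) * sin (φ (k + 1))) *
        cos (T k / 2))
      rw [abs_mul] at u1
      refine le_trans u1 ?_
      have u2 := abs_cos_le_one (T k / 2)
      exact mul_le_of_le_one_right (abs_nonneg _) u2
    linarith
  rcases S.kick (k + 1) le_rfl with hk | hk
  · have := z1 hk
    rw [hk] at hzu ⊢
    nlinarith
  · obtain ⟨hkj, z⟩ := z2 hk
    have hnk := Hk.nk hkj
    have ha := a_ge Hk.c0
    have h3 : a φ φ' k * ((3 / 4 + P φ φ' k / 10) * D) ≤ a φ φ' k * W φ φ' K r r' k :=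
      mul_le_mul_of_nonneg_left hnk (by linarith)
    rw [P_succ φ φ' (by omega)]
    have h5 : 2 * (3 / 4 * D) ≤ a φ φ' k * (3 / 4 * D) := by
      apply mul_le_mul_of_nonneg_right ha (by positivity)
    nlinarith

lemma cosn (S : Sys m φ φ' T K r r' l l' D rm Lm L0) {j : ℕ} (hj : j ≤ m) :
    0 ≤ cos (φ j) := by
  have := abs_le.mp (S.bφ j hj)
  exact cos_nonneg_of_mem_Icc ⟨by linarith, by linarith⟩

lemma cosn' (S : Sys m φ φ' T K r r' l l' D rm Lm L0) {j : ℕ} (hj : j ≤ m) :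
    0 ≤ cos (φ' j) := by
  have := abs_le.mp (S.bφ' j hj)
  exact cos_nonneg_of_mem_Icc ⟨by linarith, by linarith⟩

lemma Lm_pos (S : Sys m φ φ' T K r r' l l' D rm Lm L0) (hm : 1 ≤ m) : 0 < Lm := by
  have := S.bl 0 (by omega)
  linarith [S.L0p, this.1, this.2]

/-- `sin (T₀/2)` is not very negative -/
lemma sinT0 (S : Sys m φ φ' T K r r' l l' D rm Lm L0) (hm : 1 ≤ m)
    (hT0 : -(D / (100 * (rm + Lm))) ≤ T 0) : -(D / (200 * (rm + Lm))) ≤ sin (T 0 / 2) := by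
  have hrm := S.rm_pos
  have hLm := S.Lm_pos hm
  have hD := S.D0
  have e : D / (200 * (rm + Lm)) = D / (100 * (rm + Lm)) / 2 := by field_simp; ring
  rcases le_total 0 (T 0) with h | h
  · have h1 : 0 ≤ sin (T 0 / 2) := by
      apply sin_nonneg_of_nonneg_of_le_pi (by linarith)
      have := (abs_le.mp (S.bT 0 (by omega))).2
      linarith [pi_gt_three]
    have : 0 ≤ D / (200 * (rm + Lm)) := by positivity
    linarith
  · have h1 : sin (-(T 0 / 2)) ≤ -(T 0 / 2) := sin_le (by linarith)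
    rw [sin_neg] at h1
    rw [e]; linarith

lemma cos_half_T (S : Sys m φ φ' T K r r' l l' D rm Lm L0) {j : ℕ} (hj : j < m) :
    99 / 100 ≤ cos (T j / 2) := by
  have h1 := one_sub_sq_div_two_le_cos (x := T j / 2)
  have h2 : (T j / 2) ^ 2 ≤ (2 / 25) ^ 2 := by
    rw [← sq_abs]
    apply pow_le_pow_left₀ (abs_nonneg _)
    rw [abs_div, abs_two]; linarith [S.bT j hj]
  linarith

lemma base_low (S : Sys m φ φ' T K r r' l l' D rm Lm L0) (hm : 1 ≤ m)
    (hT0 : -(D / (100 * (rm + Lm))) ≤ T 0) {η : ℝ} (hs : sin (φ' 0) ≤ 0)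
    (hc : cos (φ' 0) ≤ η) (hη : 20 * rm * η ^ 2 < D) : 93 / 100 * D ≤ Z φ φ' T r r' 0 := by
  have hrm := S.rm_pos
  have hLm := S.Lm_pos hm
  have hD := S.D0
  have hsT := S.sinT0 hm hT0
  have hcT := S.cos_half_T (j := 0) (by omega)
  have hr := S.r0 0 (Nat.zero_le _)
  have hr' := S.rrm 0 (Nat.zero_le _)
  have hk := S.kick0
  have e : Z φ φ' T r r' 0 = (r 0 * sin (φ 0) - r' 0 * sin (φ' 0)) * cos (T 0 / 2) +
      (r 0 * cos (φ 0) + r' 0 * cos (φ' 0) + l 0 + l' 0) * sin (T 0 / 2) := by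
    unfold Z
    rw [S.h3 0 (by omega), sin_add, sin_sub]; ring
  have h1 := one_sub_sin_le (x := -φ' 0) (by rw [sin_neg]; linarith)
  rw [sin_neg, cos_neg] at h1
  have h2 : cos (φ' 0) ^ 2 ≤ η ^ 2 := pow_le_pow_left₀ (S.cosn' (Nat.zero_le _)) hc 2
  have h3 : r' 0 * cos (φ' 0) ^ 2 ≤ rm * η ^ 2 := by
    apply mul_le_mul hr' h2 (by positivity) hrm.le
  have h4 : r' 0 * (1 - - sin (φ' 0)) ≤ r' 0 * cos (φ' 0) ^ 2 :=
    mul_le_mul_of_nonneg_left h1 (by linarith)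
  have h5 : -r 0 ≤ r 0 * sin (φ 0) := by nlinarith [neg_one_le_sin (φ 0)]
  have h6 : 95 / 100 * D ≤ r 0 * sin (φ 0) - r' 0 * sin (φ' 0) := by linarith
  have h7 : 95 / 100 * D * (99 / 100) ≤
      (r 0 * sin (φ 0) - r' 0 * sin (φ' 0)) * cos (T 0 / 2) :=
    mul_le_mul h6 hcT (by norm_num) (by linarith)
  have c1 := S.cosn (j := 0) (Nat.zero_le _)
  have c2 := S.cosn' (j := 0) (Nat.zero_le _)
  have c3 := cos_le_one (φ 0)
  have c4 := cos_le_one (φ' 0)
  have hl := S.bl 0 (by omega)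
  have hl' := S.bl' 0 (by omega)
  have hL0 := S.L0p
  have h8 : 0 ≤ r 0 * cos (φ 0) + r' 0 * cos (φ' 0) + l 0 + l' 0 := by
    have : 0 ≤ r' 0 := by linarith
    have := mul_nonneg hr.le c1
    have := mul_nonneg ‹0 ≤ r' 0› c2
    linarith
  have h9 : r 0 * cos (φ 0) + r' 0 * cos (φ' 0) + l 0 + l' 0 ≤ 2 * (rm + Lm) := by
    nlinarith
  have h10 : -(D / 100) ≤
      (r 0 * cos (φ 0) + r' 0 * cos (φ' 0) + l 0 + l' 0) * sin (T 0 / 2) := by
    have e1 : D / 100 = 2 * (rm + Lm) * (D / (200 * (rm + Lm))) := by field_simp; ring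
    have h11 : 0 ≤ D / (200 * (rm + Lm)) := by positivity
    have h12 : (r 0 * cos (φ 0) + r' 0 * cos (φ' 0) + l 0 + l' 0) * (-(D / (200 * (rm + Lm)))) ≤
      (r 0 * cos (φ 0) + r' 0 * cos (φ' 0) + l 0 + l' 0) * sin (T 0 / 2) :=
      mul_le_mul_of_nonneg_left hsT h8
    have h13 := mul_le_mul_of_nonneg_right h9 h11
    linarith
  rw [e]; linarith

/-- main estimate for one sided segments -/
theorem fd_future (S : Sys m φ φ' T K r r' l l' D rm Lm L0) (hm : 1 ≤ m)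
    (hT0 : -(D / (100 * (rm + Lm))) ≤ T 0) {η : ℝ} (hη1 : η ≤ 1) (hs : sin (φ' 0) ≤ 0)
    (hc : cos (φ' 0) ≤ η)
    (hcmp : ∀ j, 1 ≤ j → j < m → cos (φ' j) ≤ 11 / 4 * cos (φ j) ∧
      cos (φ j) ≤ 11 / 4 * cos (φ' j))
    (hend : cos (φ m) * ∏ j ∈ Ico 1 m, cos (φ j) ≤ η)
    (hend' : cos (φ' m) * ∏ j ∈ Ico 1 m, cos (φ' j) ≤ η) :
    D ≤ 20 * rm * 2 ^ m * η := by
  have hrm := S.rm_pos
  have hLm := S.Lm_pos hm
  have hD := S.D0
  have hη0 : 0 ≤ η := le_trans (S.cosn' (Nat.zero_le _)) hc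
  have h2m : (1 : ℝ) ≤ 2 ^ m := one_le_pow₀ (by norm_num)
  by_cases hη : D ≤ 20 * rm * η ^ 2
  · refine le_trans hη ?_
    have : η ^ 2 ≤ 2 ^ m * η := by nlinarith
    calc 20 * rm * η ^ 2 ≤ 20 * rm * (2 ^ m * η) := by gcongr
      _ = _ := by ring
  push Not at hη
  have hbase := S.base_low hm hT0 hs hc hη
  have hr1 : r' 1 = r 1 := S.kick2 0 (by omega) S.kick0
  have hsT := S.sinT0 hm hT0
  rcases Nat.lt_or_ge m 2 with hm2 | hm2
  · -- m = 1
    obtain rfl : m = 1 := by omega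
    simp only [Ico_self, prod_empty, mul_one] at hend hend'
    have hd : |φ' 1 - φ 1| ≤ 2 / 5 := by
      rw [S.h2 0 (by omega)]
      calc |K (0 + 1) + T 0| ≤ |K (0 + 1)| + |T 0| := abs_add_le _ _
        _ ≤ 4 / 25 + 4 / 25 := add_le_add (S.bK _ le_rfl) (S.bT _ (by omega))
        _ ≤ _ := by norm_num
    have he := end_ineq (S.r0 1 le_rfl) (S.rle le_rfl) (S.bφ _ le_rfl) (S.bφ' _ le_rfl) hd
    have e : Z φ φ' T r r' 0 =
      (r' 1 * sin (φ' 1) - r 1 * sin (φ 1)) * cos (T 0 / 2) -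
      (r' 1 * cos (φ' 1) + r 1 * cos (φ 1)) * sin (T 0 / 2) := by
      unfold Z
      rw [zero_add, sin_sub, sin_add]; ring
    have hr := S.r0 1 le_rfl
    have hrr := S.rrm 1 le_rfl
    have c1 := S.cosn (j := 1) le_rfl
    have c2 := S.cosn' (j := 1) le_rfl
    have c3 := cos_le_one (φ 1)
    have c4 := cos_le_one (φ' 1)
    have t2 : (r' 1 * sin (φ' 1) - r 1 * sin (φ 1)) * cos (T 0 / 2) ≤
        |r' 1 * sin (φ' 1) - r 1 * sin (φ 1)| := by
      have u1 := le_abs_self ((r' 1 * sin (φ' 1) - r 1 * sin (φ 1)) * cos (T 0 / 2))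
      rw [abs_mul] at u1
      refine le_trans u1 ?_
      have u2 := abs_cos_le_one (T 0 / 2)
      exact mul_le_of_le_one_right (abs_nonneg _) u2
    have t3 : -((r' 1 * cos (φ' 1) + r 1 * cos (φ 1)) * sin (T 0 / 2)) ≤ D / 100 := by
      have h11 : 0 ≤ D / (200 * (rm + Lm)) := by positivity
      have h8 : 0 ≤ r' 1 * cos (φ' 1) + r 1 * cos (φ 1) := by
        rw [hr1]; positivity
      have h9 : r' 1 * cos (φ' 1) + r 1 * cos (φ 1) ≤ 2 * (rm + Lm) := by
        rw [hr1]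
        rw [hr1] at hrr
        nlinarith
      have e1 : D / 100 = 2 * (rm + Lm) * (D / (200 * (rm + Lm))) := by field_simp; ring
      have h12 := mul_le_mul_of_nonneg_left hsT h8
      have h13 := mul_le_mul_of_nonneg_right h9 h11
      linarith
    have q1 : cos (φ 1) ^ 2 ≤ η := by nlinarith
    have q2 : cos (φ' 1) ^ 2 ≤ η := by nlinarith
    have q3 : r 1 * cos (φ 1) ^ 2 ≤ rm * η := by
      apply mul_le_mul (by linarith) q1 (by positivity) hrm.le
    have q4 : r' 1 * cos (φ' 1) ^ 2 ≤ rm * η := by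
      apply mul_le_mul (by linarith) q2 (by positivity) hrm.le
    have : 0 ≤ rm * η := by positivity
    nlinarith
  · -- m ≥ 2
    have hZ1 := S.Z_eq' (j := 0) (by omega)
    have hW1 : W φ φ' K r r' 1 = Z φ φ' T r r' 0 := by
      rw [hZ1, zero_add, hr1]; ring
    have hWp : 0 < W φ φ' K r r' 1 := by rw [hW1]; linarith
    obtain ⟨hc1, hK1⟩ := S.pos_of_W hm hWp
    have hKge := S.K_ge hm hc1 hK1
    have hWc : W φ φ' K r r' 1 ≤ W φ φ' K r r' 1 / c φ φ' 1 := by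
      rw [le_div_iff₀ hc1]
      nlinarith [c_le φ φ' 1]
    have hT1 : T 1 = T 0 + 2 * K 1 := by
      have e1 := S.h1 1 (by omega)
      have e2 := S.h2 0 (by omega)
      rw [zero_add] at e2
      linarith
    have hTK : -(K 1 / 50) ≤ T 0 := by
      refine le_trans ?_ hT0
      have h1 : 93 / 100 * D ≤ rm * K 1 := by linarith
      rw [neg_le_neg_iff, div_le_iff₀ (by positivity)]
      nlinarith [mul_pos hLm hK1]
    have H : St φ φ' T K r r' D 1 := by
      refine ⟨hc1, hK1, hWp, by linarith, by simp [P], fun _ => ?_, fun h => by linarith⟩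
      rw [hW1]
      simp only [P, Ico_self, prod_empty]
      linarith
    have hlow := S.end_low hm2 H
    have hcc : ∀ j, 1 ≤ j → j < m → c φ φ' j ≤ 2 * cos (φ j) ∧ c φ φ' j ≤ 2 * cos (φ' j) := by
      intro j h1 h2
      have hd : |φ' j - φ j| ≤ 2 / 5 := by
        rw [S.h1 j h2]
        calc |T j - K j| ≤ |T j| + |K j| := abs_sub _ _
          _ ≤ 4 / 25 + 4 / 25 := add_le_add (S.bT _ h2) (S.bK _ h2.le)
          _ ≤ _ := by norm_num
      constructor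
      · exact mean_cos_le hd (S.cosn h2.le) (hcmp j h1 h2).1
      · have := mean_cos_le (φ := φ' j) (φ' := φ j) (by rw [abs_sub_comm]; exact hd)
          (S.cosn' h2.le) (hcmp j h1 h2).2
        rw [add_comm] at this
        exact this
    have hp1 := S.P_prod H (fun j => cos (φ j))
      (fun j h1 h2 => ⟨S.cosn h2.le, (hcc j h1 h2).1⟩)
    have hp2 := S.P_prod H (fun j => cos (φ' j))
      (fun j h1 h2 => ⟨S.cosn' h2.le, (hcc j h1 h2).2⟩)
    rw [Finset.prod_mul_distrib, Finset.prod_const, Nat.card_Ico] at hp1 hp2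
    have h2m' : (2 : ℝ) ^ (m - 1) * 2 = 2 ^ m := by
      rw [← pow_succ]; congr 1; omega
    set p1 := ∏ j ∈ Ico 1 m, cos (φ j) with hp1d
    set p2 := ∏ j ∈ Ico 1 m, cos (φ' j) with hp2d
    have p1n : 0 ≤ p1 := Finset.prod_nonneg fun j hj => S.cosn (by
      rw [Finset.mem_Ico] at hj; omega)
    have p2n : 0 ≤ p2 := Finset.prod_nonneg fun j hj => S.cosn' (by
      rw [Finset.mem_Ico] at hj; omega)
    have cm := S.cosn (j := m) le_rfl
    have cm' := S.cosn' (j := m) le_rfl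
    have cm1 := cos_le_one (φ m)
    have cm1' := cos_le_one (φ' m)
    have hr := S.r0 m le_rfl
    have hrr := S.rrm m le_rfl
    have hrr2 := S.rle (j := m) le_rfl
    have hpow : (0 : ℝ) < 2 ^ (m - 1) := by positivity
    -- each term times the product is small
    have t1 : r m * cos (φ m) ^ 2 * (2 ^ (m - 1) * p1) ≤ rm * 2 ^ (m - 1) * η := by
      have u : cos (φ m) ^ 2 * p1 ≤ η := by
        have : cos (φ m) * (cos (φ m) * p1) ≤ 1 * η :=
          mul_le_mul cm1 hend (by positivity) (by norm_num)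
        nlinarith
      calc r m * cos (φ m) ^ 2 * (2 ^ (m - 1) * p1)
          = (r m * 2 ^ (m - 1)) * (cos (φ m) ^ 2 * p1) := by ring
        _ ≤ (rm * 2 ^ (m - 1)) * η := by
            apply mul_le_mul _ u (by positivity) (by positivity)
            apply mul_le_mul_of_nonneg_right (by linarith) hpow.le
    have t2 : r' m * cos (φ' m) ^ 2 * (2 ^ (m - 1) * p2) ≤ rm * 2 ^ (m - 1) * η := by
      have u : cos (φ' m) ^ 2 * p2 ≤ η := by
        have : cos (φ' m) * (cos (φ' m) * p2) ≤ 1 * η :=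
          mul_le_mul cm1' hend' (by positivity) (by norm_num)
        nlinarith
      calc r' m * cos (φ' m) ^ 2 * (2 ^ (m - 1) * p2)
          = (r' m * 2 ^ (m - 1)) * (cos (φ' m) ^ 2 * p2) := by ring
        _ ≤ (rm * 2 ^ (m - 1)) * η := by
            have h0 : 0 < r' m := by linarith
            apply mul_le_mul _ u (by positivity) (by positivity)
            apply mul_le_mul_of_nonneg_right (by linarith) hpow.le
    have key : ∀ E q : ℝ, 0 ≤ q → 1 ≤ P φ φ' m * (2 ^ (m - 1) * q) →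
        P φ φ' m / 20 * D ≤ E → E * (2 ^ (m - 1) * q) ≤ rm * 2 ^ (m - 1) * η →
        D ≤ 20 * rm * 2 ^ m * η := by
      intro E q hq h1 h2 h3
      have h4 : 0 ≤ 2 ^ (m - 1) * q := by positivity
      have h5 := mul_le_mul_of_nonneg_right h2 h4
      have h6 : D / 20 ≤ P φ φ' m / 20 * D * (2 ^ (m - 1) * q) := by
        have : P φ φ' m / 20 * D * (2 ^ (m - 1) * q) = D / 20 * (P φ φ' m * (2 ^ (m - 1) * q)) := by
          ring
        rw [this]
        nlinarith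
      have h7 : 0 ≤ rm * 2 ^ (m - 1) * η := by positivity
      rw [← h2m']
      nlinarith
    rcases le_total (P φ φ' m / 20 * D) (r m * cos (φ m) ^ 2) with h | h
    · exact key _ _ p1n hp1 h t1
    · have : P φ φ' m / 20 * D ≤ r' m * cos (φ' m) ^ 2 := by linarith
      exact key _ _ p2n hp2 this t2

end Sys

end Pool.Agent.Lib.MP_79f2f8_an.FD
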