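import Mathlib

/-!
# Formal orbits and rays (definitions)

`F` is the set of scatterers (disks), `c i` the centres, `ρ i` the radii.  A step from `i` to
`i'` has a translation vector `w`: the next disk is the one with centre `c i' + w`
in the frame in which the present disk has centre `c i`.
-/

open Finset

namespace Pool.Agent.Lib.MP_79f2f8_an

variable {F : Type}

/-- the flight vector from the point with normal `n` on disk `i` to the point with normal `n'`
on disk `i'` translated by `w` -/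
noncomputable def flightVec (c : F → ℂ) (ρ : F → ℝ) (i i' : F) (w n n' : ℂ) : ℂ :=
  c i' + w + ρ i' * n' - (c i + ρ i * n)

/-- A formal bi-infinite orbit: scatterers `I j`, translations `w j`, unit normals `n j`,
outgoing unit velocities `e j`; all steps lie in `S`. -/
structure Orb (c : F → ℂ) (ρ : F → ℝ) (S : Set (F × ℂ × F)) (I : ℤ → F) (w n e : ℤ → ℂ) :
    Prop where
  norm_n : ∀ j, ‖n j‖ = 1
  norm_e : ∀ j, ‖e j‖ = 1
  step : ∀ j, (I j, w j, I (j + 1)) ∈ S
  flight : ∀ j, flightVec c ρ (I j) (I (j + 1)) (w j) (n j) (n (j + 1)) =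
    (‖flightVec c ρ (I j) (I (j + 1)) (w j) (n j) (n (j + 1))‖ : ℝ) * e j
  refl : ∀ j, e (j + 1) = - n (j + 1) ^ 2 * (starRingEnd ℂ) (e j)
  out : ∀ j, 0 ≤ (e j * (starRingEnd ℂ) (n j)).re

/-- cosine of the angle of the collision with normal `n` and outgoing velocity `e` -/
noncomputable def cosC (n e : ℂ) : ℝ := (e * (starRingEnd ℂ) n).re

/-- A one sided formal ray with `m` flights (collisions `0, …, m`, velocities `0, …, m-1`). -/
structure Ray (c : F → ℂ) (ρ : F → ℝ) (m : ℕ) (I : ℕ → F) (w n e : ℕ → ℂ) : Prop where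
  norm_n : ∀ j ≤ m, ‖n j‖ = 1
  norm_e : ∀ j < m, ‖e j‖ = 1
  flight : ∀ j < m, flightVec c ρ (I j) (I (j + 1)) (w j) (n j) (n (j + 1)) =
    (‖flightVec c ρ (I j) (I (j + 1)) (w j) (n j) (n (j + 1))‖ : ℝ) * e j
  refl : ∀ j, j + 1 < m → e (j + 1) = - n (j + 1) ^ 2 * (starRingEnd ℂ) (e j)
  out : ∀ j < m, 0 ≤ cosC (n j) (e j)
  inc : ∀ j < m, 0 ≤ - cosC (n (j + 1)) (e j)

/-- cosine at collision `j` computed from the incoming velocity `e (j-1)` (for `j ≥ 1`) -/
noncomputable def cosI (n e : ℕ → ℂ) (j : ℕ) : ℝ := - cosC (n j) (e (j - 1))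

/-- `N` is reached at step `m` (first tangency of level `N`): the product of the cosines
at `1, …, m-1` is at least `exp (-N)`, and with the factor at `m` it is at most `exp (-N)`. -/
def Reach (C : ℕ → ℝ) (m N : ℕ) : Prop :=
  C m * ∏ j ∈ Ico 1 m, C j ≤ Real.exp (-N) ∧ Real.exp (-N) ≤ ∏ j ∈ Ico 1 m, C j

/-- the bad event at time `0` for a bi-infinite sequence of cosines -/
def BadAt (C : ℤ → ℝ) (m p N : ℕ) : Prop :=
  C 0 ≤ Real.exp (-N) ∧ Reach (fun j => C j) m N ∧ Reach (fun j => C (-j)) p N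

/-- no bad events (with constant `A`) for the table with radii `ρ` -/
def NoBad (c : F → ℂ) (ρ : F → ℝ) (S : Set (F × ℂ × F)) (A : ℝ) : Prop :=
  ∀ (I : ℤ → F) (w n e : ℤ → ℂ), Orb c ρ S I w n e → ∀ m p N : ℕ, 1 ≤ m → 1 ≤ p →
    BadAt (fun j => cosC (n j) (e j)) m p N → (N : ℝ) ≤ A * (m + p)

/-- truncated gain -/
noncomputable def gainK (K : ℕ) (C : ℝ) : ℝ := - Real.log (max C (Real.exp (-K)))

end Pool.Agent.Lib.MP_79f2f8_an
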