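import Pool.Agent.Lib.MP_79f2f8_an.FD
import Pool.Agent.Lib.MP_79f2f8_an.Rays

/-!
# From complex rays to the finite difference system; the pair estimate
-/

open Finset

namespace Pool.Agent.Lib.MP_79f2f8_an

namespace Geo

open Complex ComplexConjugate

/-- the unit complex number of angle `x` -/
noncomputable def E (x : ℝ) : ℂ := Complex.exp (x * Complex.I)

lemma E_re (x : ℝ) : (E x).re = Real.cos x := Complex.exp_ofReal_mul_I_re x
lemma E_im (x : ℝ) : (E x).im = Real.sin x := Complex.exp_ofReal_mul_I_im x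

lemma E_add (x y : ℝ) : E (x + y) = E x * E y := by
  unfold E; rw [← Complex.exp_add]; congr 1; push_cast; ring

lemma E_zero : E 0 = 1 := by simp [E]

lemma E_neg (x : ℝ) : E (-x) = conj (E x) := by
  unfold E; rw [← Complex.exp_conj]; congr 1; simp

lemma E_mul_conj (x : ℝ) : E x * conj (E x) = 1 := by
  rw [← E_neg, ← E_add, add_neg_cancel, E_zero]

lemma E_arg {z : ℂ} (h : ‖z‖ = 1) : E (arg z) = z := by
  have := Complex.norm_mul_exp_arg_mul_I z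
  rw [h] at this; simpa [E] using this

lemma E_inj {x y : ℝ} (h : E x = E y) (hd : |x - y| < 2 * Real.pi) : x = y := by
  have h1 : E (x - y) = 1 := by
    rw [sub_eq_add_neg, E_add, E_neg, h, E_mul_conj]
  have h2 : Real.cos (x - y) = 1 := by rw [← E_re, h1]; simp
  have h3 := abs_lt.mp hd
  have := (Real.cos_eq_one_iff_of_lt_of_lt h3.1 h3.2).1 h2
  linarith

lemma unit_mul_conj {z : ℂ} (h : ‖z‖ = 1) : z * conj z = 1 := by
  rw [Complex.mul_conj, Complex.normSq_eq_norm_sq, h]; simp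

lemma flight_id {d : ℂ} {r0 r1 s0 s1 l l' : ℝ} {e n m e' n' m' : ℂ} {a b a' b' t : ℝ}
    (he : ‖e‖ = 1) (he' : ‖e'‖ = 1)
    (h : d + r1 * m - r0 * n = l * e) (h' : d + s1 * m' - s0 * n' = l' * e')
    (ha : e * conj n = E a) (hb : -(m * conj e) = E b)
    (ha' : e' * conj n' = E a') (hb' : -(m' * conj e') = E b') (ht : e' * conj e = E t) :
    r1 * Real.sin (b - t / 2) - s1 * Real.sin (b' + t / 2) =
      r0 * Real.sin (a + t / 2) - s0 * Real.sin (a' - t / 2) + (l + l') * Real.sin (t / 2) := by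
  have ue := unit_mul_conj he
  have ue' := unit_mul_conj he'
  have hce : conj e = conj e' * E t := by
    rw [← ht]
    calc conj e = (e' * conj e') * conj e := by rw [ue', one_mul]
      _ = _ := by ring
  have hn : n * conj e = E (-a) := by
    rw [E_neg, ← ha]; simp [mul_comm]
  have hn' : n' * conj e' = E (-a') := by
    rw [E_neg, ← ha']; simp [mul_comm]
  have htt : E t = E (t / 2) * E (t / 2) := by rw [← E_add]; congr 1; ring
  have hth : E (t / 2) * E (-(t / 2)) = 1 := by rw [E_neg, E_mul_conj]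
  have key : (l : ℂ) * E (-(t / 2)) + r1 * E (b + -(t / 2)) + r0 * E (-a + -(t / 2)) =
      l' * E (t / 2) + s1 * E (b' + t / 2) + s0 * E (-a' + t / 2) := by
    have h0 : (l : ℂ) * e - r1 * m + r0 * n = l' * e' - s1 * m' + s0 * n' := by
      rw [← h, ← h']; ring
    have h1 : ((l : ℂ) * e - r1 * m + r0 * n) * conj e * E (-(t / 2)) =
      l * E (-(t / 2)) + r1 * E (b + -(t / 2)) + r0 * E (-a + -(t / 2)) := by
      rw [E_add, E_add, ← hb, ← hn]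
      linear_combination (l : ℂ) * E (-(t / 2)) * ue
    have h2 : ((l' : ℂ) * e' - s1 * m' + s0 * n') * conj e * E (-(t / 2)) =
      l' * E (t / 2) + s1 * E (b' + t / 2) + s0 * E (-a' + t / 2) := by
      rw [E_add, E_add, ← hb', ← hn', hce, htt]
      have : ((l' : ℂ) * e' - s1 * m' + s0 * n') * (conj e' * (E (t / 2) * E (t / 2))) *
          E (-(t / 2)) = ((l' : ℂ) * e' - s1 * m' + s0 * n') * conj e' * E (t / 2) *
          (E (t / 2) * E (-(t / 2))) := by ring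
      rw [this, hth]
      linear_combination (l' : ℂ) * E (t / 2) * ue'
    rw [← h1, ← h2, h0]
  have k2 := congrArg Complex.im key
  simp only [Complex.add_im, Complex.mul_im, Complex.ofReal_re, Complex.ofReal_im, zero_mul,
    add_zero, E_im] at k2
  have e1 : Real.sin (-a + -(t / 2)) = - Real.sin (a + t / 2) := by
    rw [← Real.sin_neg]; congr 1; ring
  have e2 : Real.sin (-a' + t / 2) = - Real.sin (a' - t / 2) := by
    rw [← Real.sin_neg]; congr 1; ring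
  have e3 : Real.sin (b + -(t / 2)) = Real.sin (b - t / 2) := by
    rw [← sub_eq_add_neg]
  rw [e1, e2, e3, Real.sin_neg] at k2
  linarith

/-- the extended velocities: at the last collision the velocity is the reflected one -/
noncomputable def ext (m : ℕ) (n e : ℕ → ℂ) (j : ℕ) : ℂ :=
  if j < m then e j else - n j ^ 2 * conj (e (j - 1))

noncomputable def Φ (m : ℕ) (n e : ℕ → ℂ) (j : ℕ) : ℝ := arg (ext m n e j * conj (n j))

noncomputable def ang (z z' : ℕ → ℂ) (j : ℕ) : ℝ := arg (z' j * conj (z j))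

lemma abs_ang {z z' : ℂ} (h : ‖z‖ = 1) (h' : ‖z'‖ = 1) (hc : ‖z' - z‖ ≤ 1 / 10) :
    |arg (z' * conj z)| ≤ 4 / 25 := by
  have hu : ‖z' * conj z‖ = 1 := by rw [norm_mul, h', one_mul, Complex.norm_conj, h]
  have hne : z' * conj z ≠ 0 := by
    intro h0; rw [h0] at hu; simp at hu
  have h1 := Complex.angle_le_mul_norm_sub (x := 1) (y := z' * conj z) (by simp) hu
  rw [Complex.angle_one_left hne] at h1
  have h2 : (1 : ℂ) - z' * conj z = (z - z') * conj z := by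
    rw [sub_mul, unit_mul_conj h]
  have h3 : ‖(1 : ℂ) - z' * conj z‖ ≤ 1 / 10 := by
    rw [h2, norm_mul, Complex.norm_conj, h, mul_one, norm_sub_rev]; exact hc
  have h4 := Real.pi_lt_d2
  have h5 := Real.pi_pos
  calc |arg (z' * conj z)| ≤ Real.pi / 2 * ‖(1 : ℂ) - z' * conj z‖ := h1
    _ ≤ Real.pi / 2 * (1 / 10) := by gcongr
    _ ≤ _ := by linarith

section

variable {F : Type} {c : F → ℂ} {ρ : F → ℝ} {m : ℕ} {I : ℕ → F} {w n e : ℕ → ℂ}

lemma norm_ext (R : Ray c ρ m I w n e) (hm : 1 ≤ m) {j : ℕ} (hj : j ≤ m) :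
    ‖ext m n e j‖ = 1 := by
  unfold ext
  split_ifs with h
  · exact R.norm_e j h
  · rw [norm_mul, norm_neg, norm_pow, R.norm_n j hj, Complex.norm_conj,
      R.norm_e (j - 1) (by omega)]
    norm_num

lemma norm_extn (R : Ray c ρ m I w n e) (hm : 1 ≤ m) {j : ℕ} (hj : j ≤ m) :
    ‖ext m n e j * conj (n j)‖ = 1 := by
  rw [norm_mul, norm_ext R hm hj, Complex.norm_conj, R.norm_n j hj, one_mul]

lemma E_Φ (R : Ray c ρ m I w n e) (hm : 1 ≤ m) {j : ℕ} (hj : j ≤ m) :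
    E (Φ m n e j) = ext m n e j * conj (n j) := E_arg (norm_extn R hm hj)

lemma ext_succ (R : Ray c ρ m I w n e) {j : ℕ} (hj : j < m) :
    ext m n e (j + 1) = - n (j + 1) ^ 2 * conj (e j) := by
  unfold ext
  split_ifs with h
  · exact R.refl j h
  · rw [Nat.add_sub_cancel]

lemma E_Φ_succ (R : Ray c ρ m I w n e) {j : ℕ} (hj : j < m) :
    -(n (j + 1) * conj (e j)) = E (Φ m n e (j + 1)) := by
  rw [E_Φ R (by omega) (by omega), ext_succ R hj]
  have := unit_mul_conj (R.norm_n (j + 1) (by omega))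
  linear_combination n (j + 1) * conj (e j) * this

lemma E_Φ_lt (R : Ray c ρ m I w n e) {j : ℕ} (hj : j < m) :
    e j * conj (n j) = E (Φ m n e j) := by
  rw [E_Φ R (by omega) hj.le]; unfold ext; rw [if_pos hj]

lemma cos_Φ_zero (R : Ray c ρ m I w n e) (hm : 1 ≤ m) :
    Real.cos (Φ m n e 0) = cosC (n 0) (e 0) := by
  rw [← E_re, ← E_Φ_lt R (by omega)]; rfl

lemma cos_Φ_succ (R : Ray c ρ m I w n e) {j : ℕ} (hj : j < m) :
    Real.cos (Φ m n e (j + 1)) = cosI n e (j + 1) := by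
  rw [← E_re, ← E_Φ_succ R hj]
  unfold cosI cosC
  rw [Nat.add_sub_cancel]
  simp only [Complex.neg_re, Complex.mul_re, Complex.conj_re, Complex.conj_im]
  ring

lemma cos_Φ (R : Ray c ρ m I w n e) {j : ℕ} (h1 : 1 ≤ j) (hj : j ≤ m) :
    Real.cos (Φ m n e j) = cosI n e j := by
  obtain ⟨i, rfl⟩ : ∃ i, j = i + 1 := ⟨j - 1, by omega⟩
  exact cos_Φ_succ R (by omega)

lemma abs_Φ (R : Ray c ρ m I w n e) (hm : 1 ≤ m) {j : ℕ} (hj : j ≤ m) :
    |Φ m n e j| ≤ Real.pi / 2 := by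
  unfold Φ
  rw [Complex.abs_arg_le_pi_div_two_iff, ← E_Φ R hm hj, E_re]
  rcases Nat.eq_zero_or_pos j with rfl | h
  · rw [cos_Φ_zero R hm]; exact R.out 0 (by omega)
  · rw [cos_Φ R h hj]; unfold cosI
    have := R.inc (j - 1) (by omega)
    rw [Nat.sub_add_cancel h] at this
    exact this

end

lemma sgn_cases {s : ℝ} (hs : s = 1 ∨ s = -1) (j : ℕ) : s * (-1) ^ j = 1 ∨ s * (-1) ^ j = -1 := by
  rcases neg_one_pow_eq_or ℝ j with h | h <;> rcases hs with h' | h' <;> rw [h, h'] <;> norm_num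

lemma abs_sgn {s : ℝ} (hs : s = 1 ∨ s = -1) (j : ℕ) (x : ℝ) : |s * (-1) ^ j * x| = |x| := by
  rcases sgn_cases hs j with h | h <;> rw [h] <;> simp

lemma cos_sgn {s : ℝ} (hs : s = 1 ∨ s = -1) (j : ℕ) (x : ℝ) :
    Real.cos (s * (-1) ^ j * x) = Real.cos x := by
  rcases sgn_cases hs j with h | h <;> rw [h] <;> simp

section

variable {F : Type} {c : F → ℂ} {ρ ρ' : F → ℝ} {i0 : F} {D rm Lm L0 : ℝ} {m : ℕ} {I : ℕ → F}
  {w n e n' e' : ℕ → ℂ}

/-- the flight lengths -/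
noncomputable def len (c : F → ℂ) (ρ : F → ℝ) (I : ℕ → F) (w n : ℕ → ℂ) (j : ℕ) : ℝ :=
  ‖flightVec c ρ (I j) (I (j + 1)) (w j) (n j) (n (j + 1))‖

lemma len_bounds {ρ1 : F → ℝ} (R : Ray c ρ1 m I w n e) (hpos : ∀ i, 0 < ρ1 i)
    (hle : ∀ i, ρ1 i ≤ ρ' i)
    (hgap : ∀ j < m, L0 + ρ' (I j) + ρ' (I (j + 1)) ≤ ‖c (I (j + 1)) + w j - c (I j)‖)
    (hup : ∀ j < m, ‖c (I (j + 1)) + w j - c (I j)‖ + ρ' (I j) + ρ' (I (j + 1)) ≤ Lm)
    {j : ℕ} (hj : j < m) : L0 ≤ len c ρ1 I w n j ∧ len c ρ1 I w n j ≤ Lm := by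
  have h1 := hgap j hj
  have h2 := hup j hj
  have a1 := hle (I j)
  have a2 := hle (I (j + 1))
  set d := c (I (j + 1)) + w j - c (I j) with hd
  have e0 : flightVec c ρ1 (I j) (I (j + 1)) (w j) (n j) (n (j + 1)) =
      d + (ρ1 (I (j + 1)) * n (j + 1) - ρ1 (I j) * n j) := by
    unfold flightVec; rw [hd]; ring
  have n1 : ‖(ρ1 (I (j + 1)) : ℂ) * n (j + 1)‖ = ρ1 (I (j + 1)) := by
    rw [norm_mul, R.norm_n (j + 1) (by omega), mul_one, Complex.norm_real,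
      Real.norm_of_nonneg (hpos _).le]
  have n2 : ‖(ρ1 (I j) : ℂ) * n j‖ = ρ1 (I j) := by
    rw [norm_mul, R.norm_n j (by omega), mul_one, Complex.norm_real,
      Real.norm_of_nonneg (hpos _).le]
  have n3 : ‖(ρ1 (I (j + 1)) : ℂ) * n (j + 1) - ρ1 (I j) * n j‖ ≤
      ρ1 (I (j + 1)) + ρ1 (I j) := by
    refine le_trans (norm_sub_le _ _) ?_
    rw [n1, n2]
  unfold len
  rw [e0]
  constructor
  · have := norm_sub_le_norm_add d ((ρ1 (I (j + 1)) : ℂ) * n (j + 1) - ρ1 (I j) * n j)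
    linarith
  · have := norm_add_le d ((ρ1 (I (j + 1)) : ℂ) * n (j + 1) - ρ1 (I j) * n j)
    linarith

theorem ray_sys (hD : 0 < D) (hρ : ρ' i0 = ρ i0 + D) (hρne : ∀ i, i ≠ i0 → ρ' i = ρ i)
    (hpos : ∀ i, 0 < ρ i) (hrm : ∀ i, ρ' i ≤ rm) (hL0 : 0 < L0) (hrL : rm ≤ 49 / 25 * L0)
    (hm : 1 ≤ m) (hI0 : I 0 = i0) (hI : ∀ j < m, I j ≠ I (j + 1))
    (hgap : ∀ j < m, L0 + ρ' (I j) + ρ' (I (j + 1)) ≤ ‖c (I (j + 1)) + w j - c (I j)‖)
    (hup : ∀ j < m, ‖c (I (j + 1)) + w j - c (I j)‖ + ρ' (I j) + ρ' (I (j + 1)) ≤ Lm)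
    (R : Ray c ρ m I w n e) (R' : Ray c ρ' m I w n' e')
    (cn : ∀ j ≤ m, ‖n' j - n j‖ ≤ 1 / 10) (ce : ∀ j < m, ‖e' j - e j‖ ≤ 1 / 10)
    {s : ℝ} (hs : s = 1 ∨ s = -1) :
    FD.Sys m (fun j => s * (-1) ^ j * Φ m n e j) (fun j => s * (-1) ^ j * Φ m n' e' j)
      (fun j => s * (-1) ^ j * ang e e' j) (fun j => s * (-1) ^ j * ang n n' j)
      (fun j => ρ (I j)) (fun j => ρ' (I j)) (len c ρ I w n) (len c ρ' I w n') D rm Lm L0 := by
  have hle : ∀ i, ρ i ≤ ρ' i := by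
    intro i
    by_cases h : i = i0
    · rw [h, hρ]; linarith
    · rw [hρne i h]
  have hpos' : ∀ i, 0 < ρ' i := fun i => lt_of_lt_of_le (hpos i) (hle i)
  have bT : ∀ j < m, |ang e e' j| ≤ 4 / 25 := fun j hj =>
    abs_ang (R.norm_e j hj) (R'.norm_e j hj) (ce j hj)
  have bK : ∀ j ≤ m, |ang n n' j| ≤ 4 / 25 := fun j hj =>
    abs_ang (R.norm_n j hj) (R'.norm_n j hj) (cn j hj)
  have bΦ : ∀ j ≤ m, |Φ m n e j| ≤ Real.pi / 2 := fun j hj => abs_Φ R hm hj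
  have bΦ' : ∀ j ≤ m, |Φ m n' e' j| ≤ Real.pi / 2 := fun j hj => abs_Φ R' hm hj
  have eT : ∀ j < m, e' j * conj (e j) = E (ang e e' j) := fun j hj => by
    unfold ang
    rw [E_arg]
    rw [norm_mul, Complex.norm_conj, R.norm_e j hj, R'.norm_e j hj, one_mul]
  have eK : ∀ j ≤ m, n' j * conj (n j) = E (ang n n' j) := fun j hj => by
    unfold ang
    rw [E_arg]
    rw [norm_mul, Complex.norm_conj, R.norm_n j hj, R'.norm_n j hj, one_mul]
  have hpi := Real.pi_gt_three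
  have d1 : ∀ j < m, Φ m n' e' j - Φ m n e j = ang e e' j - ang n n' j := by
    intro j hj
    apply E_inj
    · rw [sub_eq_add_neg, sub_eq_add_neg, E_add, E_add, E_neg, E_neg, ← E_Φ_lt R hj,
        ← E_Φ_lt R' hj, ← eT j hj, ← eK j hj.le]
      simp only [map_mul, Complex.conj_conj]
      ring
    · have t1 := abs_le.mp (bT j hj)
      have t2 := abs_le.mp (bK j hj.le)
      have t3 := abs_le.mp (bΦ j hj.le)
      have t4 := abs_le.mp (bΦ' j hj.le)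
      rw [abs_lt]; constructor <;> linarith
  have d2 : ∀ j < m, Φ m n' e' (j + 1) - Φ m n e (j + 1) =
      ang n n' (j + 1) - ang e e' j := by
    intro j hj
    apply E_inj
    · rw [sub_eq_add_neg, sub_eq_add_neg, E_add, E_add, E_neg, E_neg, ← E_Φ_succ R hj,
        ← E_Φ_succ R' hj, ← eT j hj, ← eK (j + 1) hj]
      simp only [map_mul, map_neg, Complex.conj_conj]
      ring
    · have t1 := abs_le.mp (bT j hj)
      have t2 := abs_le.mp (bK (j + 1) hj)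
      have t3 := abs_le.mp (bΦ (j + 1) hj)
      have t4 := abs_le.mp (bΦ' (j + 1) hj)
      rw [abs_lt]; constructor <;> linarith
  have d3 : ∀ j < m, ρ (I (j + 1)) * Real.sin (Φ m n e (j + 1) - ang e e' j / 2) -
      ρ' (I (j + 1)) * Real.sin (Φ m n' e' (j + 1) + ang e e' j / 2) =
      ρ (I j) * Real.sin (Φ m n e j + ang e e' j / 2) -
      ρ' (I j) * Real.sin (Φ m n' e' j - ang e e' j / 2) +
      (len c ρ I w n j + len c ρ' I w n' j) * Real.sin (ang e e' j / 2) := by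
    intro j hj
    apply flight_id (d := c (I (j + 1)) + w j - c (I j)) (R.norm_e j hj) (R'.norm_e j hj)
      (e := e j) (e' := e' j) (n := n j) (n' := n' j) (m := n (j + 1)) (m' := n' (j + 1))
    · have := R.flight j hj
      unfold len
      rw [← this]; unfold flightVec; ring
    · have := R'.flight j hj
      unfold len
      rw [← this]; unfold flightVec; ring
    · exact E_Φ_lt R hj
    · exact E_Φ_succ R hj
    · exact E_Φ_lt R' hj
    · exact E_Φ_succ R' hj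
    · exact eT j hj
  have kick : ∀ j, ρ' (I j) = ρ (I j) ∨ ρ' (I j) = ρ (I j) + D := by
    intro j
    by_cases h : I j = i0
    · right; rw [h, hρ]
    · left; exact hρne _ h
  refine ⟨?_, ?_, ?_, ?_, ?_, ?_, ?_, fun j _ => hpos _, fun j _ => hrm _, fun j _ => kick j,
    ?_, ?_, ?_, ?_, hD, hL0, hrL⟩
  · intro j hj
    have := d1 j hj
    linear_combination s * (-1) ^ j * this
  · intro j hj
    have := d2 j hj
    rw [pow_succ]
    linear_combination s * (-1) ^ j * (-1) * this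
  · intro j hj
    have h3 := d3 j hj
    rw [pow_succ]
    rcases sgn_cases hs j with h | h
    · have h' : s * ((-1) ^ j * -1) = -1 := by rw [← mul_assoc, h]; ring
      rw [h, h']
      have e1 : Real.sin (-1 * Φ m n' e' (j + 1) - 1 * ang e e' j / 2) =
          - Real.sin (Φ m n' e' (j + 1) + ang e e' j / 2) := by
        rw [← Real.sin_neg]; congr 1; ring
      have e2 : Real.sin (-1 * Φ m n e (j + 1) + 1 * ang e e' j / 2) =
          - Real.sin (Φ m n e (j + 1) - ang e e' j / 2) := by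
        rw [← Real.sin_neg]; congr 1; ring
      rw [e1, e2, one_mul, one_mul, one_mul]
      linarith
    · have h' : s * ((-1) ^ j * -1) = 1 := by rw [← mul_assoc, h]; ring
      rw [h, h']
      have e1 : Real.sin (-1 * Φ m n e j + -1 * ang e e' j / 2) =
          - Real.sin (Φ m n e j + ang e e' j / 2) := by
        rw [← Real.sin_neg]; congr 1; ring
      have e2 : Real.sin (-1 * Φ m n' e' j - -1 * ang e e' j / 2) =
          - Real.sin (Φ m n' e' j - ang e e' j / 2) := by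
        rw [← Real.sin_neg]; congr 1; ring
      have e3 : Real.sin (-1 * ang e e' j / 2) = - Real.sin (ang e e' j / 2) := by
        rw [← Real.sin_neg]; congr 1; ring
      have e4 : Real.sin (1 * Φ m n' e' (j + 1) - -1 * ang e e' j / 2) =
          Real.sin (Φ m n' e' (j + 1) + ang e e' j / 2) := by congr 1; ring
      have e5 : Real.sin (1 * Φ m n e (j + 1) + -1 * ang e e' j / 2) =
          Real.sin (Φ m n e (j + 1) - ang e e' j / 2) := by congr 1; ring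
      rw [e1, e2, e3, e4, e5]
      linarith
  · intro j hj; rw [abs_sgn hs]; exact bΦ j hj
  · intro j hj; rw [abs_sgn hs]; exact bΦ' j hj
  · intro j hj; rw [abs_sgn hs]; exact bT j hj
  · intro j hj; rw [abs_sgn hs]; exact bK j hj
  · simp only [hI0]; exact hρ
  · intro j hj h
    have hij : I j = i0 := by
      by_contra hne
      rw [hρne _ hne] at h
      linarith
    apply hρne
    intro h'
    exact hI j hj (hij.trans h'.symm)
  · intro j hj; exact len_bounds R hpos hle hgap hup hj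
  · intro j hj; exact len_bounds R' hpos' (fun _ => le_rfl) hgap hup hj

/-- one half of the pair estimate: either the bound holds, or the outgoing direction is turned
by a definite amount -/
theorem half_bound (hD : 0 < D) (hρ : ρ' i0 = ρ i0 + D) (hρne : ∀ i, i ≠ i0 → ρ' i = ρ i)
    (hpos : ∀ i, 0 < ρ i) (hrm : ∀ i, ρ' i ≤ rm) (hL0 : 0 < L0) (hrL : rm ≤ 49 / 25 * L0)
    {η : ℝ} (hη1 : η ≤ 1)
    (hm : 1 ≤ m) (hI0 : I 0 = i0) (hI : ∀ j < m, I j ≠ I (j + 1))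
    (hgap : ∀ j < m, L0 + ρ' (I j) + ρ' (I (j + 1)) ≤ ‖c (I (j + 1)) + w j - c (I j)‖)
    (hup : ∀ j < m, ‖c (I (j + 1)) + w j - c (I j)‖ + ρ' (I j) + ρ' (I (j + 1)) ≤ Lm)
    (R : Ray c ρ m I w n e) (R' : Ray c ρ' m I w n' e')
    (cn : ∀ j ≤ m, ‖n' j - n j‖ ≤ 1 / 10) (ce : ∀ j < m, ‖e' j - e j‖ ≤ 1 / 10)
    (C0' : cosC (n' 0) (e' 0) ≤ η)
    (cmp1 : ∀ j, 1 ≤ j → j < m → cosI n' e' j ≤ 11 / 4 * cosI n e j ∧
      cosI n e j ≤ 11 / 4 * cosI n' e' j)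
    (E1 : cosI n e m * ∏ j ∈ Ico 1 m, cosI n e j ≤ η)
    (E1' : cosI n' e' m * ∏ j ∈ Ico 1 m, cosI n' e' j ≤ η)
    {s : ℝ} (hs : s = 1 ∨ s = -1) (hsin : s * Real.sin (Φ m n' e' 0) ≤ 0)
    (hT : -(D / (100 * (rm + Lm))) ≤ s * ang e e' 0) :
    D ≤ 20 * rm * 2 ^ m * η := by
  have S := ray_sys hD hρ hρne hpos hrm hL0 hrL hm hI0 hI hgap hup R R' cn ce hs
  have P : ∏ j ∈ Ico 1 m, Real.cos (s * (-1) ^ j * Φ m n e j) = ∏ j ∈ Ico 1 m, cosI n e j := by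
    apply Finset.prod_congr rfl
    intro j hj
    rw [Finset.mem_Ico] at hj
    rw [cos_sgn hs, cos_Φ R hj.1 hj.2.le]
  have P' : ∏ j ∈ Ico 1 m, Real.cos (s * (-1) ^ j * Φ m n' e' j) =
      ∏ j ∈ Ico 1 m, cosI n' e' j := by
    apply Finset.prod_congr rfl
    intro j hj
    rw [Finset.mem_Ico] at hj
    rw [cos_sgn hs, cos_Φ R' hj.1 hj.2.le]
  apply S.fd_future hm (η := η)
  · simpa using hT
  · exact hη1
  · simp only [pow_zero, mul_one]
    rcases hs with h | h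
    · rw [h] at hsin ⊢; simpa using hsin
    · rw [h] at hsin ⊢; simpa using hsin
  · simp only [pow_zero, mul_one]
    have := cos_sgn hs 0 (Φ m n' e' 0)
    rw [pow_zero, mul_one] at this
    rw [this, cos_Φ_zero R' hm]; exact C0'
  · intro j h1 h2
    simp only [cos_sgn hs]
    rw [cos_Φ R h1 h2.le, cos_Φ R' h1 h2.le]
    exact cmp1 j h1 h2
  · rw [P, cos_sgn hs, cos_Φ R hm le_rfl]; exact E1
  · rw [P', cos_sgn hs, cos_Φ R' hm le_rfl]; exact E1'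

end

/-- the angle of the past ray at the common collision -/
theorem Φ_past {F : Type} {c : F → ℂ} {ρ1 : F → ℝ} {m p : ℕ} {I J : ℕ → F} {w u : ℕ → ℂ}
    {n e a b : ℕ → ℂ} (hm : 1 ≤ m) (hp : 1 ≤ p) (R1 : Ray c ρ1 m I w n e)
    (R2 : Ray c ρ1 p J u a b) (ha : a 0 = n 0) (hb : b 0 = n 0 ^ 2 * conj (e 0)) :
    Φ p a b 0 = - Φ m n e 0 := by
  apply E_inj
  · rw [E_neg, ← E_Φ_lt R1 (by omega), ← E_Φ_lt R2 (by omega), ha, hb]
    have u1 := unit_mul_conj (R1.norm_n 0 (Nat.zero_le _))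
    simp only [map_mul, Complex.conj_conj]
    linear_combination n 0 * conj (e 0) * u1
  · have t1 := abs_le.mp (abs_Φ R1 hm (Nat.zero_le _))
    have t2 := abs_le.mp (abs_Φ R2 hp (Nat.zero_le _))
    have := Real.pi_gt_three
    rw [abs_lt]; constructor <;> linarith

end Geo

open ComplexConjugate in
/-- the pair estimate when the first angle is nonnegative -/
theorem pair_bound_aux {F : Type} (c : F → ℂ) (ρ ρ' : F → ℝ) (i0 : F) (D rm Lm L0 η : ℝ)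
    (hD : 0 < D) (hρ : ρ' i0 = ρ i0 + D) (hρne : ∀ i, i ≠ i0 → ρ' i = ρ i)
    (hpos : ∀ i, 0 < ρ i) (hrm : ∀ i, ρ' i ≤ rm) (hL0 : 0 < L0) (hrL : rm ≤ 49 / 25 * L0)
    (hη1 : η ≤ 1) (m p : ℕ) (hm : 1 ≤ m) (hp : 1 ≤ p)
    (I : ℕ → F) (w : ℕ → ℂ) (hI0 : I 0 = i0) (hI : ∀ j < m, I j ≠ I (j + 1))
    (hgap : ∀ j < m, L0 + ρ' (I j) + ρ' (I (j + 1)) ≤ ‖c (I (j + 1)) + w j - c (I j)‖)
    (hup : ∀ j < m, ‖c (I (j + 1)) + w j - c (I j)‖ + ρ' (I j) + ρ' (I (j + 1)) ≤ Lm)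
    (J : ℕ → F) (u : ℕ → ℂ) (hJ0 : J 0 = i0) (hJ : ∀ j < p, J j ≠ J (j + 1))
    (hgapJ : ∀ j < p, L0 + ρ' (J j) + ρ' (J (j + 1)) ≤ ‖c (J (j + 1)) + u j - c (J j)‖)
    (hupJ : ∀ j < p, ‖c (J (j + 1)) + u j - c (J j)‖ + ρ' (J j) + ρ' (J (j + 1)) ≤ Lm)
    (n e n' e' a b a' b' : ℕ → ℂ)
    (R1 : Ray c ρ m I w n e) (R1' : Ray c ρ' m I w n' e')
    (R2 : Ray c ρ p J u a b) (R2' : Ray c ρ' p J u a' b')
    (ha : a 0 = n 0) (hb : b 0 = n 0 ^ 2 * (starRingEnd ℂ) (e 0))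
    (ha' : a' 0 = n' 0) (hb' : b' 0 = n' 0 ^ 2 * (starRingEnd ℂ) (e' 0))
    (cn : ∀ j ≤ m, ‖n' j - n j‖ ≤ 1 / 10) (ce : ∀ j < m, ‖e' j - e j‖ ≤ 1 / 10)
    (ca : ∀ j ≤ p, ‖a' j - a j‖ ≤ 1 / 10) (cb : ∀ j < p, ‖b' j - b j‖ ≤ 1 / 10)
    (C0 : cosC (n 0) (e 0) ≤ η) (C0' : cosC (n' 0) (e' 0) ≤ η)
    (cmp1 : ∀ j, 1 ≤ j → j < m → cosI n' e' j ≤ 11 / 4 * cosI n e j ∧
      cosI n e j ≤ 11 / 4 * cosI n' e' j)
    (cmp2 : ∀ j, 1 ≤ j → j < p → cosI a' b' j ≤ 11 / 4 * cosI a b j ∧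
      cosI a b j ≤ 11 / 4 * cosI a' b' j)
    (E1 : cosI n e m * ∏ j ∈ Ico 1 m, cosI n e j ≤ η)
    (E1' : cosI n' e' m * ∏ j ∈ Ico 1 m, cosI n' e' j ≤ η)
    (E2 : cosI a b p * ∏ j ∈ Ico 1 p, cosI a b j ≤ η)
    (E2' : cosI a' b' p * ∏ j ∈ Ico 1 p, cosI a' b' j ≤ η)
    (hsin : 0 ≤ Real.sin (Geo.Φ m n' e' 0)) :
    D ≤ 200 * (rm + Lm) * 2 ^ (m + p) * η := by
  have S1 := Geo.ray_sys hD hρ hρne hpos hrm hL0 hrL hm hI0 hI hgap hup R1 R1' cn ce
    (s := 1) (Or.inl rfl)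
  have S2 := Geo.ray_sys hD hρ hρne hpos hrm hL0 hrL hp hJ0 hJ hgapJ hupJ R2 R2' ca cb
    (s := 1) (Or.inl rfl)
  have hrmp : 0 < rm := S1.rm_pos
  have hLmp : 0 < Lm := S1.Lm_pos hm
  have hη0 : 0 ≤ η := le_trans (R1'.out 0 (by omega)) C0'
  have pm : (1 : ℝ) ≤ 2 ^ m := one_le_pow₀ (by norm_num)
  have pp : (1 : ℝ) ≤ 2 ^ p := one_le_pow₀ (by norm_num)
  have p1 : (2 : ℝ) ^ m ≤ 2 ^ (m + p) := pow_le_pow_right₀ (by norm_num) (by omega)
  have p2 : (2 : ℝ) ^ p ≤ 2 ^ (m + p) := pow_le_pow_right₀ (by norm_num) (by omega)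
  have fin : ∀ q : ℝ, q ≤ 2 ^ (m + p) → D ≤ 20 * rm * q * η →
      D ≤ 200 * (rm + Lm) * 2 ^ (m + p) * η := by
    intro q hq h
    refine le_trans h ?_
    have h1 : 20 * rm * q ≤ 20 * rm * 2 ^ (m + p) := by gcongr
    have h2 : 20 * rm * 2 ^ (m + p) ≤ 200 * (rm + Lm) * 2 ^ (m + p) := by
      have : (0 : ℝ) < 2 ^ (m + p) := by positivity
      have : 20 * rm ≤ 200 * (rm + Lm) := by linarith
      gcongr
    exact mul_le_mul_of_nonneg_right (h1.trans h2) hη0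
  -- the angle of the past ray
  have hn0 := R1.norm_n 0 (Nat.zero_le _)
  have hn0' := R1'.norm_n 0 (Nat.zero_le _)
  have u1 := Geo.unit_mul_conj hn0
  have u1' := Geo.unit_mul_conj hn0'
  have hΦ := Geo.Φ_past hm hp R1 R2 ha hb
  have hΦ' := Geo.Φ_past hm hp R1' R2' ha' hb'
  have hcosa' : cosC (a' 0) (b' 0) ≤ η := by
    rw [← Geo.cos_Φ_zero R2' hp, hΦ', Real.cos_neg, Geo.cos_Φ_zero R1' hm]; exact C0'
  -- the two halves
  by_cases hT1 : -(D / (100 * (rm + Lm))) ≤ (-1) * Geo.ang e e' 0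
  · exact fin _ p1 (Geo.half_bound hD hρ hρne hpos hrm hL0 hrL hη1 hm hI0 hI hgap hup R1 R1' cn
      ce C0' cmp1 E1 E1' (s := -1) (Or.inr rfl) (by linarith) hT1)
  by_cases hT2 : -(D / (100 * (rm + Lm))) ≤ 1 * Geo.ang b b' 0
  · exact fin _ p2 (Geo.half_bound hD hρ hρne hpos hrm hL0 hrL hη1 hp hJ0 hJ hgapJ hupJ R2 R2' ca
      cb hcosa' cmp2 E2 E2' (s := 1) (Or.inl rfl) (by rw [hΦ', Real.sin_neg]; linarith) hT2)
  push Not at hT1 hT2
  have e1 := S1.h1 0 (by omega)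
  have e2 := S2.h1 0 (by omega)
  simp only [pow_zero, mul_one, one_mul] at e1 e2
  have hang : Geo.ang a a' 0 = Geo.ang n n' 0 := by unfold Geo.ang; rw [ha, ha']
  rw [hΦ, hΦ', hang] at e2
  have hdiff : D / (100 * (rm + Lm)) < Geo.Φ m n' e' 0 - Geo.Φ m n e 0 := by linarith
  have b1 := abs_le.mp (Geo.abs_Φ R1 hm (Nat.zero_le _))
  have b1' := abs_le.mp (Geo.abs_Φ R1' hm (Nat.zero_le _))
  have bT := abs_le.mp (S1.bT 0 (by omega))
  have bK := abs_le.mp (S1.bK 0 (Nat.zero_le _))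
  simp only [pow_zero, mul_one, one_mul] at bT bK
  have c0 := Geo.cos_Φ_zero R1 hm
  have c0' := Geo.cos_Φ_zero R1' hm
  rw [← c0] at C0
  rw [← c0'] at C0'
  set x := Geo.Φ m n e 0 with hx
  set y := Geo.Φ m n' e' 0 with hy
  have hx25 : y - x ≤ 8 / 25 := by linarith
  have h200 : ∀ z : ℝ, D ≤ 200 * (rm + Lm) * z → 0 ≤ z → z ≤ η →
      D ≤ 200 * (rm + Lm) * 2 ^ (m + p) * η := by
    intro z h1 h0 h2
    refine le_trans h1 ?_
    have : (1 : ℝ) ≤ 2 ^ (m + p) := one_le_pow₀ (by norm_num)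
    calc 200 * (rm + Lm) * z ≤ 200 * (rm + Lm) * η := by gcongr
      _ = 200 * (rm + Lm) * 1 * η := by ring
      _ ≤ _ := by gcongr
  by_cases hη4 : 1 / 4 ≤ η
  · apply h200 (1 / 4) _ (by norm_num) hη4
    have h1 := hrm i0
    rw [hρ] at h1
    have h2 := hpos i0
    linarith
  push Not at hη4
  have hpi := Real.pi_gt_three
  have hpi2 := Real.pi_lt_d2
  have hy0 : 0 ≤ y := FD.nonneg_of_sin (by rw [abs_le]; exact b1') hsin
  have hx0 : 0 ≤ x := by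
    by_contra hc
    push Not at hc
    have h1 : |y| ≤ 8 / 25 := by rw [abs_of_nonneg hy0]; linarith
    have h2 := Real.one_sub_sq_div_two_le_cos (x := y)
    have h3 : y ^ 2 ≤ (8 / 25) ^ 2 := by
      rw [← sq_abs]; exact pow_le_pow_left₀ (abs_nonneg _) h1 2
    have h4 : (1 : ℝ) / 4 < 1 - y ^ 2 / 2 := by
      norm_num at h3; linarith
    linarith
  have hJ := Real.mul_le_sin (x := Real.pi / 2 - x) (by linarith) (by linarith)
  rw [Real.sin_pi_div_two_sub] at hJ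
  have h6 : Real.pi / 2 - x ≤ Real.pi / 2 * η := by
    have h7 : 2 / Real.pi * (Real.pi / 2 - x) ≤ η := hJ.trans C0
    have h8 : Real.pi / 2 - x = Real.pi / 2 * (2 / Real.pi * (Real.pi / 2 - x)) := by
      field_simp
    rw [h8]
    have h9 : 0 ≤ Real.pi / 2 := by positivity
    exact mul_le_mul_of_nonneg_left h7 h9
  have h10 : D / (100 * (rm + Lm)) < 2 * η := by
    have : Real.pi / 2 * η ≤ 2 * η := mul_le_mul_of_nonneg_right (by linarith) hη0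
    linarith
  apply h200 η _ hη0 le_rfl
  rw [div_lt_iff₀ (by positivity)] at h10
  linarith

open ComplexConjugate in
/-- MODULE G (Geo.lean). Two bad triples of the same type for two tables which differ only in the
radius of the middle scatterer. Future ray `(I,w,n,e)` / `(n',e')`, past ray `(J,u,a,b)` / `(a',b')`. -/
theorem pair_bound {F : Type} (c : F → ℂ) (ρ ρ' : F → ℝ) (i0 : F) (D rm Lm L0 η : ℝ)
    (hD : 0 < D) (hρ : ρ' i0 = ρ i0 + D) (hρne : ∀ i, i ≠ i0 → ρ' i = ρ i)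
    (hpos : ∀ i, 0 < ρ i) (hrm : ∀ i, ρ' i ≤ rm) (hL0 : 0 < L0) (hrL : rm ≤ 49 / 25 * L0)
    (hη1 : η ≤ 1) (m p : ℕ) (hm : 1 ≤ m) (hp : 1 ≤ p)
    (I : ℕ → F) (w : ℕ → ℂ) (hI0 : I 0 = i0) (hI : ∀ j < m, I j ≠ I (j + 1))
    (hgap : ∀ j < m, L0 + ρ' (I j) + ρ' (I (j + 1)) ≤ ‖c (I (j + 1)) + w j - c (I j)‖)
    (hup : ∀ j < m, ‖c (I (j + 1)) + w j - c (I j)‖ + ρ' (I j) + ρ' (I (j + 1)) ≤ Lm)
    (J : ℕ → F) (u : ℕ → ℂ) (hJ0 : J 0 = i0) (hJ : ∀ j < p, J j ≠ J (j + 1))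
    (hgapJ : ∀ j < p, L0 + ρ' (J j) + ρ' (J (j + 1)) ≤ ‖c (J (j + 1)) + u j - c (J j)‖)
    (hupJ : ∀ j < p, ‖c (J (j + 1)) + u j - c (J j)‖ + ρ' (J j) + ρ' (J (j + 1)) ≤ Lm)
    (n e n' e' a b a' b' : ℕ → ℂ)
    (R1 : Ray c ρ m I w n e) (R1' : Ray c ρ' m I w n' e')
    (R2 : Ray c ρ p J u a b) (R2' : Ray c ρ' p J u a' b')
    (ha : a 0 = n 0) (hb : b 0 = n 0 ^ 2 * (starRingEnd ℂ) (e 0))
    (ha' : a' 0 = n' 0) (hb' : b' 0 = n' 0 ^ 2 * (starRingEnd ℂ) (e' 0))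
    (cn : ∀ j ≤ m, ‖n' j - n j‖ ≤ 1 / 10) (ce : ∀ j < m, ‖e' j - e j‖ ≤ 1 / 10)
    (ca : ∀ j ≤ p, ‖a' j - a j‖ ≤ 1 / 10) (cb : ∀ j < p, ‖b' j - b j‖ ≤ 1 / 10)
    (C0 : cosC (n 0) (e 0) ≤ η) (C0' : cosC (n' 0) (e' 0) ≤ η)
    (cmp1 : ∀ j, 1 ≤ j → j < m → cosI n' e' j ≤ 11 / 4 * cosI n e j ∧
      cosI n e j ≤ 11 / 4 * cosI n' e' j)
    (cmp2 : ∀ j, 1 ≤ j → j < p → cosI a' b' j ≤ 11 / 4 * cosI a b j ∧
      cosI a b j ≤ 11 / 4 * cosI a' b' j)
    (E1 : cosI n e m * ∏ j ∈ Ico 1 m, cosI n e j ≤ η)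
    (E1' : cosI n' e' m * ∏ j ∈ Ico 1 m, cosI n' e' j ≤ η)
    (E2 : cosI a b p * ∏ j ∈ Ico 1 p, cosI a b j ≤ η)
    (E2' : cosI a' b' p * ∏ j ∈ Ico 1 p, cosI a' b' j ≤ η) :
    D ≤ 200 * (rm + Lm) * 2 ^ (m + p) * η := by
  rcases le_total 0 (Real.sin (Geo.Φ m n' e' 0)) with hsin | hsin
  · exact pair_bound_aux c ρ ρ' i0 D rm Lm L0 η hD hρ hρne hpos hrm hL0 hrL hη1 m p hm hp
      I w hI0 hI hgap hup J u hJ0 hJ hgapJ hupJ n e n' e' a b a' b' R1 R1' R2 R2' ha hb ha' hb'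
      cn ce ca cb C0 C0' cmp1 cmp2 E1 E1' E2 E2' hsin
  · have u1 := Geo.unit_mul_conj (R1.norm_n 0 (Nat.zero_le _))
    have u1' := Geo.unit_mul_conj (R1'.norm_n 0 (Nat.zero_le _))
    have sw : ∀ z v : ℂ, z * conj z = 1 → v = z ^ 2 * conj (z ^ 2 * conj v) := by
      intro z v hz
      simp only [map_mul, map_pow, Complex.conj_conj]
      linear_combination (-(v * (1 + z * conj z))) * hz
    have hcs : ∀ z v : ℂ, z * conj z = 1 → cosC z (z ^ 2 * conj v) = cosC z v := by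
      intro z v hz
      unfold cosC
      have : z ^ 2 * conj v * conj z = conj (v * conj z) := by
        simp only [map_mul, Complex.conj_conj]
        linear_combination z * conj v * hz
      rw [this, Complex.conj_re]
    have hΦ' := Geo.Φ_past hm hp R1' R2' ha' hb'
    have h := pair_bound_aux c ρ ρ' i0 D rm Lm L0 η hD hρ hρne hpos hrm hL0 hrL hη1 p m hp hm
      J u hJ0 hJ hgapJ hupJ I w hI0 hI hgap hup a b a' b' n e n' e' R2 R2' R1 R1' ha.symm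
      (by rw [ha, hb]; exact sw _ _ u1) ha'.symm (by rw [ha', hb']; exact sw _ _ u1')
      ca cb cn ce (by rw [ha, hb, hcs _ _ u1]; exact C0) (by rw [ha', hb', hcs _ _ u1']; exact C0')
      cmp2 cmp1 E2 E2' E1 E1' (by rw [hΦ', Real.sin_neg]; linarith)
    rw [add_comm m p]; exact h

end Pool.Agent.Lib.MP_79f2f8_an
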