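import Pool.Agent.Lib.MP_79f2f8_an.DefsP
import Pool.Agent.Lib.MP_79f2f8_an.Dyn

/-!
# Pointwise bound of the expansion factor (module Q1d, by helper32)
-/

open Complex Filter Topology

namespace Pool.Agent.Lib.MP_79f2f8_an
namespace DiskTable
variable {B : DiskTable}

lemma DT_one_bound (hfh : B.FiniteHorizon) : ∃ K : ℝ, 1 ≤ K ∧ ∀ x ∈ B.M, 0 < x.cosφ →
    0 < (B.T x).cosφ → ∀ w : ℝ × ℝ,
      (B.T x).len (B.DT 1 x w) ≤ K / (B.T x).cosφ * x.len w := by
  obtain ⟨l, hl⟩ := id hfh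
  obtain ⟨r, hr, hr1, hr'⟩ := B.exists_le_radius
  set H : ℝ := max 1 l with hH
  have hH1 : 1 ≤ H := le_max_left _ _
  -- `|w₂| ≤ (1 + 1/r) len`
  set A : ℝ := 1 + H * (1 + 1 / r) with hA
  have hA1 : 1 ≤ A := by
    have : 0 ≤ H * (1 + 1 / r) := by positivity
    linarith
  refine ⟨A + A / r + (1 + 1 / r), ?_, ?_⟩
  · have : 0 ≤ A / r + (1 + 1 / r) := by positivity
    linarith
  intro x hx h0 h1 w
  obtain ⟨L, t, k, ht, hk, hfree, hL, hLe, hLw⟩ := hasFDerivAt_T_aux hfh hx h0 h1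
  have hDT : B.DT 1 x = L := hL.fderiv
  rw [hDT]
  obtain ⟨e1, e2⟩ := hLw w
  have htH : t ≤ H := (flight_le hl hx.2.1 hfree).trans (le_max_right _ _)
  have hc1 := cosφ_le_one (T_mem hfh hx)
  have hc0 := cosφ_le_one hx
  have hr2 := hr' (B.T x).i
  have hr3 := hr' x.i
  set c := (B.T x).cosφ with hc
  set R := B.radius (B.T x).i with hR
  have hRpos : 0 < R := B.radius_pos _
  have hρ : 0 < B.radius x.i := B.radius_pos _
  set ℓ := x.len w with hℓ
  have a0 : 0 ≤ ℓ := Real.sqrt_nonneg _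
  have a1 : |B.radius x.i * w.1| ≤ ℓ := by
    rw [hℓ]; unfold State.len
    rw [← Real.sqrt_sq_eq_abs]
    exact Real.sqrt_le_sqrt (by nlinarith [sq_nonneg (w.2 - w.1)])
  have a2 : |w.2 - w.1| ≤ ℓ := by
    rw [hℓ]; unfold State.len
    rw [← Real.sqrt_sq_eq_abs]
    exact Real.sqrt_le_sqrt (by nlinarith [sq_nonneg (B.radius x.i * w.1)])
  have a3 : |w.1| ≤ ℓ / r := by
    rw [le_div_iff₀ hr]
    rw [abs_mul, abs_of_pos hρ] at a1
    nlinarith [abs_nonneg w.1]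
  have a4 : |w.2| ≤ (1 + 1 / r) * ℓ := by
    have h3 : |w.2| ≤ |w.2 - w.1| + |w.1| := by
      calc |w.2| = |(w.2 - w.1) + w.1| := by ring_nf
        _ ≤ _ := abs_add_le _ _
    have : (1 + 1 / r) * ℓ = ℓ + ℓ / r := by ring
    rw [this]; linarith
  have b1 : R * c * |(L w).1| ≤ A * ℓ := by
    have h2 : R * c * |(L w).1| = |B.radius x.i * x.cosφ * w.1 + t * w.2| := by
      rw [← abs_neg (B.radius x.i * x.cosφ * w.1 + t * w.2), ← e1, abs_mul,
        abs_of_pos (mul_pos hRpos h1)]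
    rw [h2]
    calc |B.radius x.i * x.cosφ * w.1 + t * w.2|
        ≤ |B.radius x.i * x.cosφ * w.1| + |t * w.2| := abs_add_le _ _
      _ = x.cosφ * |B.radius x.i * w.1| + t * |w.2| := by
        rw [abs_mul, abs_mul, abs_of_pos h0, abs_mul, abs_of_pos hρ, abs_mul, abs_of_pos ht,
          abs_of_pos hρ]
        ring
      _ ≤ 1 * ℓ + H * ((1 + 1 / r) * ℓ) := by
        have h3 : x.cosφ * |B.radius x.i * w.1| ≤ 1 * ℓ :=
          mul_le_mul hc0 a1 (abs_nonneg _) zero_le_one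
        have h4 : t * |w.2| ≤ H * ((1 + 1 / r) * ℓ) :=
          mul_le_mul htH a4 (abs_nonneg _) (by positivity)
        linarith
      _ = A * ℓ := by rw [hA]; ring
  have b2 : |R * (L w).1| ≤ A * ℓ / c := by
    rw [le_div_iff₀ h1, abs_mul, abs_of_pos hRpos]
    linarith
  have b3 : |(L w).1| ≤ A / r * ℓ / c := by
    rw [abs_mul, abs_of_pos hRpos] at b2
    have h3 : r * |(L w).1| ≤ A * ℓ / c := by
      have : r * |(L w).1| ≤ R * |(L w).1| := mul_le_mul_of_nonneg_right hr2 (abs_nonneg _)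
      linarith
    have h4 : A / r * ℓ / c = A * ℓ / c / r := by ring
    rw [h4, le_div_iff₀ hr]
    linarith
  have b4 : |(L w).2 - (L w).1| ≤ A / r * ℓ / c + (1 + 1 / r) * ℓ / c := by
    have h3 : (L w).2 - (L w).1 = (L w).1 - w.2 := by rw [e2]; ring
    rw [h3]
    have h4 : |(L w).1 - w.2| ≤ |(L w).1| + |w.2| := abs_sub _ _
    have h5 : (1 + 1 / r) * ℓ ≤ (1 + 1 / r) * ℓ / c := by
      rw [le_div_iff₀ h1]
      have : 0 ≤ (1 + 1 / r) * ℓ := by positivity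
      nlinarith
    linarith
  have b5 : (B.T x).len (L w) ≤ |R * (L w).1| + |(L w).2 - (L w).1| := by
    unfold State.len
    rw [← hR]
    rw [Real.sqrt_le_left (by positivity)]
    have := abs_nonneg (R * (L w).1)
    have := abs_nonneg ((L w).2 - (L w).1)
    have h3 := sq_abs (R * (L w).1)
    have h4 := sq_abs ((L w).2 - (L w).1)
    nlinarith
  calc (B.T x).len (L w) ≤ A * ℓ / c + (A / r * ℓ / c + (1 + 1 / r) * ℓ / c) := by linarith
    _ = _ := by ring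

/-- MODULE Q1d: pointwise bound of `J^u T`. -/
theorem JuT_bound (hfh : B.FiniteHorizon) : ∃ K : ℝ, 1 ≤ K ∧ ∀ x ∈ B.M, 0 < x.cosφ →
    0 < (B.T x).cosφ → Real.log (B.JuT x) ≤ Real.log K - Real.log (B.T x).cosφ := by
  obtain ⟨K, hK, hb⟩ := DT_one_bound hfh
  refine ⟨K, hK, ?_⟩
  intro x hx h0 h1
  have hc1 := cosφ_le_one (T_mem hfh hx)
  have hK0 : 0 < K := by linarith
  rw [← Real.log_div hK0.ne' h1.ne']
  have hKc : 1 ≤ K / (B.T x).cosφ := by
    rw [le_div_iff₀ h1]; linarith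
  have h3 : B.JuT x ≤ K / (B.T x).cosφ := by
    unfold JuT
    refine Real.sSup_le ?_ (by linarith)
    rintro r ⟨w, -, -, rfl⟩
    have h4 := hb x hx h0 h1 w
    have h5 : 0 ≤ x.len w := Real.sqrt_nonneg _
    exact div_le_of_le_mul₀ h5 (by linarith) h4
  have h4 : 0 ≤ B.JuT x := by
    unfold JuT
    refine Real.sSup_nonneg ?_
    rintro r ⟨w, -, -, rfl⟩
    exact div_nonneg (Real.sqrt_nonneg _) (Real.sqrt_nonneg _)
  rcases h4.eq_or_lt with h | h
  · rw [← h, Real.log_zero]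
    exact Real.log_nonneg hKc
  · exact Real.log_le_log h h3

end DiskTable
end Pool.Agent.Lib.MP_79f2f8_an
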