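import Pool.Agent.Lib.MP_79f2f8_an.DefsP
import Pool.Agent.Lib.MP_79f2f8_an.Dyn
import Pool.Agent.Lib.MP_79f2f8_an.JuBound
import Pool.Agent.Lib.MP_79f2f8_an.Rays

/-!
# Left continuity of the pressure (module Q1c)
-/

open Filter Topology MeasureTheory

namespace Pool.Agent.Lib.MP_79f2f8_an

namespace DiskTable

variable {B : DiskTable}

lemma measurable_n : Measurable (State.n : B.State → ℂ) := by
  have h : (borel ℂ).comap (State.n : B.State → ℂ) ≤
      (⊤ : MeasurableSpace B.ι).comap State.i ⊔ (borel ℂ).comap State.n ⊔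
        (borel ℂ).comap State.v := le_sup_of_le_left le_sup_right
  exact Measurable.mono (comap_measurable _) h le_rfl

lemma measurable_v : Measurable (State.v : B.State → ℂ) := by
  have h : (borel ℂ).comap (State.v : B.State → ℂ) ≤
      (⊤ : MeasurableSpace B.ι).comap State.i ⊔ (borel ℂ).comap State.n ⊔
        (borel ℂ).comap State.v := le_sup_right
  exact Measurable.mono (comap_measurable _) h le_rfl

lemma measurable_cosφ : Measurable (State.cosφ : B.State → ℝ) := by
  unfold State.cosφ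
  exact Complex.measurable_re.comp
    (measurable_v.mul (Complex.continuous_conj.measurable.comp measurable_n))

lemma measurable_gainK (K : ℕ) : Measurable (fun x : B.State => gainK K x.cosφ) := by
  unfold gainK
  exact (Real.measurable_log.comp (measurable_cosφ.max measurable_const)).neg

lemma gainK_nonneg (K : ℕ) {c : ℝ} (hc : c ≤ 1) : 0 ≤ gainK K c := by
  unfold gainK
  have h1 : max c (Real.exp (-K)) ≤ 1 :=
    max_le hc (Real.exp_le_one_iff.2 (neg_nonpos.2 (Nat.cast_nonneg K)))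
  have h2 : 0 ≤ max c (Real.exp (-K)) := (Real.exp_pos _).le.trans (le_max_right _ _)
  exact neg_nonneg.2 (Real.log_nonpos h2 h1)

lemma gainK_mono {K L : ℕ} (h : K ≤ L) (c : ℝ) : gainK K c ≤ gainK L c := by
  unfold gainK
  have h1 : Real.exp (-(L : ℝ)) ≤ Real.exp (-(K : ℝ)) :=
    Real.exp_le_exp.2 (neg_le_neg (by exact_mod_cast h))
  exact neg_le_neg (Real.log_le_log ((Real.exp_pos _).trans_le (le_max_right _ _))
    (max_le_max le_rfl h1))

lemma gainK_of_nonpos (K : ℕ) {c : ℝ} (hc : c ≤ 0) : gainK K c = K := by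
  unfold gainK
  rw [max_eq_right (hc.trans (Real.exp_pos _).le), Real.log_exp, neg_neg]

lemma gainK_of_pos {K : ℕ} {c : ℝ} (hc : 0 < c) (hK : -Real.log c ≤ K) :
    gainK K c = -Real.log c := by
  unfold gainK
  rw [max_eq_left]
  calc Real.exp (-(K : ℝ)) ≤ Real.exp (Real.log c) := Real.exp_le_exp.2 (by linarith)
    _ = c := Real.exp_log hc

section inv

variable {μ : Measure B.State}

lemma Invariant.aemeasurable (h : B.Invariant μ) : AEMeasurable B.T μ := by
  by_contra hcon
  have h1 := h.2.2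
  rw [Measure.map_of_not_aemeasurable hcon] at h1
  have := h.1.measure_univ
  rw [← h1] at this
  simp at this

lemma Invariant.lintegral_comp (h : B.Invariant μ) {f : B.State → ENNReal}
    (hf : AEMeasurable f μ) : AEMeasurable (fun x => f (B.T x)) μ ∧
      ∫⁻ x, f (B.T x) ∂μ = ∫⁻ x, f x ∂μ := by
  have hf' : AEMeasurable f (Measure.map B.T μ) := by rw [h.2.2]; exact hf
  refine ⟨hf'.comp_aemeasurable h.aemeasurable, ?_⟩
  rw [← lintegral_map' hf' h.aemeasurable, h.2.2]

lemma Invariant.lintegral_iterate (h : B.Invariant μ) {f : B.State → ENNReal}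
    (hf : AEMeasurable f μ) (j : ℕ) : AEMeasurable (fun x => f (B.T^[j] x)) μ ∧
      ∫⁻ x, f (B.T^[j] x) ∂μ = ∫⁻ x, f x ∂μ := by
  induction j with
  | zero => exact ⟨by simpa using hf, by simp⟩
  | succ j ih =>
    have h1 := h.lintegral_comp ih.1
    simp only [Function.iterate_succ_apply]
    exact ⟨h1.1, h1.2.trans ih.2⟩

lemma Invariant.ae_mem (h : B.Invariant μ) : ∀ᵐ x ∂μ, x ∈ B.M := by
  rw [ae_iff]
  exact h.2.1

/-- the mean truncated gain is bounded by the window constant -/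
lemma Invariant.lintegral_gainK (h : B.Invariant μ) {C : ℝ}
    (hwin : ∀ x ∈ B.M, ∀ K b : ℕ,
      ∑ j ∈ Finset.range b, gainK K (B.T^[j] x).cosφ ≤ C * (b + K + 1))
    (hfh : B.FiniteHorizon) (K : ℕ) :
    ∫⁻ x, ENNReal.ofReal (gainK K x.cosφ) ∂μ ≤ ENNReal.ofReal C := by
  have := h.1
  set I := ∫⁻ x, ENNReal.ofReal (gainK K x.cosφ) ∂μ with hI
  have hmeas : AEMeasurable (fun x : B.State => ENNReal.ofReal (gainK K x.cosφ)) μ :=
    (measurable_gainK K).ennreal_ofReal.aemeasurable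
  have hb : ∀ b : ℕ, (b : ENNReal) * I ≤ ENNReal.ofReal (C * (b + K + 1)) := by
    intro b
    have h1 : ∫⁻ x, ∑ j ∈ Finset.range b, ENNReal.ofReal (gainK K (B.T^[j] x).cosφ) ∂μ =
        (b : ENNReal) * I := by
      rw [lintegral_finsetSum' _ (fun j _ => (h.lintegral_iterate hmeas j).1)]
      rw [Finset.sum_congr rfl (fun j _ => (h.lintegral_iterate hmeas j).2)]
      simp [hI]
    rw [← h1]
    calc ∫⁻ x, ∑ j ∈ Finset.range b, ENNReal.ofReal (gainK K (B.T^[j] x).cosφ) ∂μ
        ≤ ∫⁻ _x, ENNReal.ofReal (C * (b + K + 1)) ∂μ := by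
          refine lintegral_mono_ae ?_
          filter_upwards [h.ae_mem] with x hx
          rw [← ENNReal.ofReal_sum_of_nonneg
            (fun j _ => gainK_nonneg K (cosφ_le_one (iterate_mem hfh hx j)))]
          exact ENNReal.ofReal_le_ofReal (hwin x hx K b)
      _ = ENNReal.ofReal (C * (b + K + 1)) := by simp
  have hfin : I ≠ ⊤ := by
    intro htop
    have := hb 1
    rw [htop] at this
    simp at this
  have hreal : ∀ b : ℕ, 0 < b → I.toReal ≤ C + C * (K + 1) / b := by
    intro b hb0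
    have h1 := hb b
    have hbpos : (0 : ℝ) < b := by exact_mod_cast hb0
    have h2 : ((b : ENNReal) * I).toReal ≤ (ENNReal.ofReal (C * (b + K + 1))).toReal :=
      ENNReal.toReal_mono ENNReal.ofReal_ne_top h1
    rw [ENNReal.toReal_mul, ENNReal.toReal_natCast] at h2
    have h3 : (ENNReal.ofReal (C * (b + K + 1))).toReal = C * (b + K + 1) := by
      refine ENNReal.toReal_ofReal ?_
      by_contra hneg
      have h4 : ENNReal.ofReal (C * (b + K + 1)) = 0 := ENNReal.ofReal_of_nonpos (not_le.1 hneg).le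
      -- the set `M` has full measure, so it is nonempty
      have hne : ∃ x, x ∈ B.M := by
        have := h.ae_mem.exists
        exact this
      obtain ⟨x, hx⟩ := hne
      have h5 := hwin x hx K b
      have h6 : 0 ≤ ∑ j ∈ Finset.range b, gainK K (B.T^[j] x).cosφ :=
        Finset.sum_nonneg (fun j _ => gainK_nonneg K (cosφ_le_one (iterate_mem hfh hx j)))
      exact hneg (h6.trans h5)
    rw [h3] at h2
    have h7 : I.toReal ≤ C * (b + K + 1) / b := by
      rw [le_div_iff₀ hbpos, mul_comm]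
      exact h2
    calc I.toReal ≤ C * (b + K + 1) / b := h7
      _ = C + C * (K + 1) / b := by field_simp; ring
  have hlim : Tendsto (fun b : ℕ => C + C * (K + 1) / (b : ℝ)) atTop (𝓝 (C + 0)) :=
    tendsto_const_nhds.add (tendsto_const_div_atTop_nhds_zero_nat _)
  have hle : I.toReal ≤ C + 0 := by
    refine ge_of_tendsto hlim ?_
    filter_upwards [eventually_gt_atTop 0] with b hb0
    exact hreal b hb0
  rw [add_zero] at hle
  rw [← ENNReal.ofReal_toReal hfin]
  exact ENNReal.ofReal_le_ofReal hle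

/-- the mean gain is bounded; grazing collisions have measure zero -/
lemma Invariant.mean_gain (h : B.Invariant μ) {C : ℝ}
    (hwin : ∀ x ∈ B.M, ∀ K b : ℕ,
      ∑ j ∈ Finset.range b, gainK K (B.T^[j] x).cosφ ≤ C * (b + K + 1))
    (hfh : B.FiniteHorizon) :
    (∀ᵐ x ∂μ, 0 < x.cosφ) ∧
      ∫⁻ x, ENNReal.ofReal (-Real.log x.cosφ) ∂μ ≤ ENNReal.ofReal C := by
  have hsup : ∫⁻ x, ⨆ K : ℕ, ENNReal.ofReal (gainK K x.cosφ) ∂μ ≤ ENNReal.ofReal C := by
    rw [lintegral_iSup' (fun K => (measurable_gainK K).ennreal_ofReal.aemeasurable)]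
    · exact iSup_le fun K => h.lintegral_gainK hwin hfh K
    · exact Filter.Eventually.of_forall fun x K L hKL =>
        ENNReal.ofReal_le_ofReal (gainK_mono hKL _)
  have hpos : ∀ᵐ x ∂μ, 0 < x.cosφ := by
    have h1 : ∀ᵐ x ∂μ, ⨆ K : ℕ, ENNReal.ofReal (gainK K x.cosφ) < ⊤ := by
      refine ae_lt_top' ?_ (hsup.trans_lt ENNReal.ofReal_lt_top).ne
      exact AEMeasurable.iSup (fun K => (measurable_gainK K).ennreal_ofReal.aemeasurable)
    filter_upwards [h1] with x hx
    by_contra hneg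
    rw [not_lt] at hneg
    have h2 : ⨆ K : ℕ, ENNReal.ofReal (gainK K x.cosφ) = ⊤ := by
      simp_rw [gainK_of_nonpos _ hneg, ENNReal.ofReal_natCast]
      exact ENNReal.iSup_natCast
    rw [h2] at hx
    exact lt_irrefl _ hx
  refine ⟨hpos, le_trans (lintegral_mono_ae ?_) hsup⟩
  filter_upwards [hpos] with x hx
  obtain ⟨K, hK⟩ := exists_nat_ge (-Real.log x.cosφ)
  rw [← gainK_of_pos hx hK]
  exact le_iSup (fun K : ℕ => ENNReal.ofReal (gainK K x.cosφ)) K

/-- the integral of `log J^u T` is bounded uniformly over the invariant measures -/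
lemma integral_log_le {C : ℝ}
    (hwin : ∀ x ∈ B.M, ∀ K b : ℕ,
      ∑ j ∈ Finset.range b, gainK K (B.T^[j] x).cosφ ≤ C * (b + K + 1))
    (hfh : B.FiniteHorizon) {K₀ : ℝ}
    (hJ : ∀ x ∈ B.M, 0 < x.cosφ → 0 < (B.T x).cosφ →
      Real.log (B.JuT x) ≤ Real.log K₀ - Real.log (B.T x).cosφ)
    (hμ : μ ∈ B.MStar) :
    ∫ x, Real.log (B.JuT x) ∂μ ≤ Real.log K₀ + max C 0 := by
  obtain ⟨h, -, hint⟩ := hμ
  have := h.1
  obtain ⟨hpos, hmean⟩ := h.mean_gain hwin hfh
  set g : B.State → ℝ := fun x => -Real.log x.cosφ with hg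
  have hgm : Measurable g := (Real.measurable_log.comp measurable_cosφ).neg
  have hgm' : AEMeasurable (fun x => ENNReal.ofReal (g x)) μ := hgm.ennreal_ofReal.aemeasurable
  have hT := h.lintegral_comp hgm'
  have hposT : ∀ᵐ x ∂μ, 0 < (B.T x).cosφ := by
    have h1 : ∀ᵐ x ∂(Measure.map B.T μ), 0 < x.cosφ := by rw [h.2.2]; exact hpos
    exact ae_of_ae_map h.aemeasurable h1
  have hle : ∀ᵐ x ∂μ, Real.log (B.JuT x) - Real.log K₀ ≤ g (B.T x) := by
    filter_upwards [h.ae_mem, hpos, hposT] with x hx h1 h2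
    have := hJ x hx h1 h2
    simp only [hg]
    linarith
  have hint2 : Integrable (fun x => Real.log (B.JuT x) - Real.log K₀) μ :=
    hint.sub (integrable_const _)
  have h1 : ∫ x, (Real.log (B.JuT x) - Real.log K₀) ∂μ ≤
      (∫⁻ x, ENNReal.ofReal (Real.log (B.JuT x) - Real.log K₀) ∂μ).toReal := by
    rw [integral_eq_lintegral_pos_part_sub_lintegral_neg_part hint2]
    have : 0 ≤ (∫⁻ x, ENNReal.ofReal (-(Real.log (B.JuT x) - Real.log K₀)) ∂μ).toReal :=
      ENNReal.toReal_nonneg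
    linarith
  have h2 : ∫⁻ x, ENNReal.ofReal (Real.log (B.JuT x) - Real.log K₀) ∂μ ≤ ENNReal.ofReal C := by
    calc ∫⁻ x, ENNReal.ofReal (Real.log (B.JuT x) - Real.log K₀) ∂μ
        ≤ ∫⁻ x, ENNReal.ofReal (g (B.T x)) ∂μ := by
          refine lintegral_mono_ae ?_
          filter_upwards [hle] with x hx
          exact ENNReal.ofReal_le_ofReal hx
      _ = ∫⁻ x, ENNReal.ofReal (g x) ∂μ := hT.2
      _ ≤ ENNReal.ofReal C := hmean
  have h3 : (∫⁻ x, ENNReal.ofReal (Real.log (B.JuT x) - Real.log K₀) ∂μ).toReal ≤ max C 0 := by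
    have := ENNReal.toReal_mono ENNReal.ofReal_ne_top h2
    rwa [ENNReal.toReal_ofReal'] at this
  rw [integral_sub hint (integrable_const _)] at h1
  simp only [integral_const, probReal_univ, one_smul] at h1
  linarith

end inv

lemma tendsto_add_real (P : EReal) (c : ℝ) :
    Tendsto (fun q : ℝ => P + ((-q * c : ℝ) : EReal)) (𝓝[<] 0) (𝓝 P) := by
  have h1 : Tendsto (fun q : ℝ => ((-q * c : ℝ) : EReal)) (𝓝[<] 0)
      (𝓝 ((-(0 : ℝ) * c : ℝ) : EReal)) := by
    refine (continuous_coe_real_ereal.tendsto _).comp ?_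
    refine Tendsto.mono_left ?_ nhdsWithin_le_nhds
    exact (continuous_neg.tendsto 0).mul_const _
  simp only [neg_zero, zero_mul, EReal.coe_zero] at h1
  have h2 : Tendsto (fun p : EReal × EReal => p.1 + p.2) (𝓝 (P, 0)) (𝓝 (P + 0)) :=
    EReal.continuousAt_add (p := (P, 0)) (Or.inr (by simp)) (Or.inr (by simp))
  have h3 := h2.comp ((tendsto_const_nhds (x := P)).prodMk_nhds h1)
  rw [add_zero] at h3
  exact h3

/-- left continuity of the pressure at `0`, from a pointwise bound of `J^u T` and the window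
bound -/
theorem pressure_limit_of (hfh : B.FiniteHorizon) (C : ℝ)
    (hwin : ∀ x ∈ B.M, ∀ K b : ℕ,
      ∑ j ∈ Finset.range b, gainK K (B.T^[j] x).cosφ ≤ C * (b + K + 1)) {K₀ : ℝ}
    (hJ : ∀ x ∈ B.M, 0 < x.cosφ → 0 < (B.T x).cosφ →
      Real.log (B.JuT x) ≤ Real.log K₀ - Real.log (B.T x).cosφ) :
    Tendsto (fun q : ℝ => B.pressure (fun x => q * B.geoPot x)) (𝓝[<] 0)
      (𝓝 (B.pressure (fun _ => 0))) := by
  set C' : ℝ := Real.log K₀ + max C 0 with hC'
  have hval : ∀ μ : Measure B.State, ∀ q : ℝ, ∫ x, q * B.geoPot x ∂μ =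
      -q * ∫ x, Real.log (B.JuT x) ∂μ := by
    intro μ q
    rw [integral_const_mul]
    unfold geoPot
    rw [integral_neg]
    ring
  have hks : ∀ μ ∈ B.MStar, ksEntropy μ B.T ≤ B.pressure (fun _ => 0) := by
    intro μ hμ
    unfold pressure
    have h1 := le_iSup₂ (f := fun (μ : Measure B.State) (_ : μ ∈ B.MStar) =>
      (ksEntropy μ B.T + ((∫ _x, (0 : ℝ) ∂μ : ℝ) : EReal))) μ hμ
    simpa using h1
  -- upper bound
  have hupper : ∀ q : ℝ, q < 0 → B.pressure (fun x => q * B.geoPot x) ≤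
      B.pressure (fun _ => 0) + ((-q * C' : ℝ) : EReal) := by
    intro q hq
    unfold pressure
    refine iSup₂_le fun μ hμ => ?_
    rw [hval μ q]
    refine add_le_add (hks μ hμ) ?_
    rw [EReal.coe_le_coe_iff]
    exact mul_le_mul_of_nonneg_left (integral_log_le hwin hfh hJ hμ) (by linarith)
  refine tendsto_order.2 ⟨fun a ha => ?_, fun a ha => ?_⟩
  · -- lower bound
    unfold pressure at ha
    rw [lt_iSup_iff] at ha
    obtain ⟨μ, ha⟩ := ha
    rw [lt_iSup_iff] at ha
    obtain ⟨hμ, ha⟩ := ha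
    simp only [integral_zero, EReal.coe_zero, add_zero] at ha
    have hlim := tendsto_add_real (ksEntropy μ B.T) (∫ x, Real.log (B.JuT x) ∂μ)
    filter_upwards [hlim.eventually_const_lt ha] with q hq
    refine hq.trans_le ?_
    rw [← hval μ q]
    unfold pressure
    exact le_iSup₂ (f := fun (μ : Measure B.State) (_ : μ ∈ B.MStar) =>
      (ksEntropy μ B.T + ((∫ x, q * B.geoPot x ∂μ : ℝ) : EReal))) μ hμ
  · have hlim := tendsto_add_real (B.pressure (fun _ => 0)) C'
    filter_upwards [hlim.eventually_lt_const ha, self_mem_nhdsWithin] with q hq hq0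
    exact (hupper q hq0).trans_lt hq

/-- MODULE Q1c (Press.lean): the pressure is left continuous at `0` if all forward orbits satisfy
the window bound. -/
theorem pressure_limit (hfh : B.FiniteHorizon) (C : ℝ)
    (hwin : ∀ x ∈ B.M, ∀ K b : ℕ,
      ∑ j ∈ Finset.range b, gainK K (B.T^[j] x).cosφ ≤ C * (b + K + 1)) :
    Tendsto (fun q : ℝ => B.pressure (fun x => q * B.geoPot x)) (𝓝[<] 0)
      (𝓝 (B.pressure (fun _ => 0))) := by
  obtain ⟨K, _, hK⟩ := JuT_bound hfh
  exact pressure_limit_of hfh C hwin hK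

end DiskTable

end Pool.Agent.Lib.MP_79f2f8_an
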