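import Pool.Agent.Lib.MP_79f2f8_an.Asm
import Pool.Agent.Lib.MP_79f2f8_an.Press

/-!
# The definitions are not vacuous for the explicit tables

Between two neighbouring big disks there is an orbit of period two which hits both disks
orthogonally.
-/

open Complex MeasureTheory

namespace Pool.Agent.Lib.MP_79f2f8_an

open DiskTable

namespace NonVac

variable (x : Idx → unitInterval)

/-- the big disk at the origin -/
def i0 : Idx := ((0, 0), false)
/-- the big disk at `1/4` -/
def i1 : Idx := ((1, 0), false)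

lemma ctr_i0 : ctr i0 = 0 := by
  simp [ctr, cx, cy, i0]

lemma ctr_i1 : ctr i1 = ((1 / 4 : ℝ) : ℂ) := by
  simp [ctr, cx, cy, i1]

/-- radius of a disk -/
noncomputable abbrev rr (i : Idx) : ℝ := radx rad0 (1 / 1000) x i

lemma rr_le (i : Idx) : rr x i ≤ 91 / 1000 := by
  have h1 := radx_le setup x i
  have h2 := rad0_le i
  unfold rr; linarith

lemma rr_pos (i : Idx) : 0 < rr x i := lt_of_lt_of_le (rad0_pos _) (le_radx setup x _)

lemma free_aux (X : ℝ) (h0 : rr x i0 < X) (h1 : X < 1 / 4 - rr x i1) (i : Idx) (k : ℤ × ℤ) :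
    rr x i < ‖(X : ℂ) - (ctr i + lat k)‖ := by
  have p0 := rr_pos x i0
  have p1 := rr_pos x i1
  have hre : ((X : ℂ) - (ctr i + lat k)).re = X - ((ix i + 8 * k.1 : ℤ) : ℝ) / 8 := by
    simp only [sub_re, add_re, ctr_re, tlat_re, cx_eq, ofReal_re]
    push_cast; ring
  have him : ((X : ℂ) - (ctr i + lat k)).im = - (((iy i + 8 * k.2 : ℤ) : ℝ) / 8) := by
    simp only [sub_im, add_im, ctr_im, tlat_im, cy_eq, ofReal_im]
    push_cast; ring
  have nre := abs_re_le_norm ((X : ℂ) - (ctr i + lat k))
  have nim := abs_im_le_norm ((X : ℂ) - (ctr i + lat k))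
  rw [hre] at nre
  rw [him, abs_neg] at nim
  have hr := rr_le x i
  by_cases hb : iy i + 8 * k.2 = 0
  · -- big disk in the row of the origin
    have hbig : i.2 = false := by
      rcases i with ⟨⟨a, b⟩, c⟩
      cases c
      · rfl
      · exfalso
        unfold iy at hb
        simp only [if_true] at hb
        omega
    have hi2 : i.1.2 = 0 ∧ k.2 = 0 := by
      rcases i with ⟨⟨a, b⟩, c⟩
      simp only at hbig
      subst hbig
      unfold iy at hb
      have hb4 : (b : ℕ) < 4 := b.2
      simp only [Bool.false_eq_true, if_false] at hb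
      constructor
      · apply Fin.ext
        simp only [Fin.val_zero]
        omega
      · omega
    have hpar : ix i = 2 * (i.1.1 : ℕ) := by
      unfold ix
      rw [hbig]; simp
    have ha4 : (i.1.1 : ℕ) < 4 := i.1.1.2
    rcases lt_trichotomy (ix i + 8 * k.1) 0 with h | h | h
    · have h2 : ix i + 8 * k.1 ≤ -2 := by omega
      have h3 : ((ix i + 8 * k.1 : ℤ) : ℝ) ≤ -2 := by exact_mod_cast h2
      have := le_abs_self (X - ((ix i + 8 * k.1 : ℤ) : ℝ) / 8)
      linarith
    · -- it is the disk `i0`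
      have h1' : (i.1.1 : ℕ) = 0 ∧ k.1 = 0 := by omega
      have hi : i = i0 := by
        rcases i with ⟨⟨a, b⟩, c⟩
        simp only at hbig hi2 h1'
        have ha : a = 0 := Fin.ext (by simpa using h1'.1)
        rw [ha, hi2.1, hbig]; rfl
      rw [h] at nre
      have := le_abs_self (X - ((0 : ℤ) : ℝ) / 8)
      subst hi
      push_cast at this nre
      linarith
    · rcases lt_or_ge (ix i + 8 * k.1) 4 with h' | h'
      · have h2 : ix i + 8 * k.1 = 2 := by omega
        have h1' : (i.1.1 : ℕ) = 1 ∧ k.1 = 0 := by omega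
        have hi : i = i1 := by
          rcases i with ⟨⟨a, b⟩, c⟩
          simp only at hbig hi2 h1'
          have ha : a = 1 := Fin.ext (by simpa using h1'.1)
          rw [ha, hi2.1, hbig]; rfl
        rw [h2] at nre
        have := neg_le_abs (X - ((2 : ℤ) : ℝ) / 8)
        subst hi
        push_cast at this nre
        linarith
      · have h3 : (4 : ℝ) ≤ ((ix i + 8 * k.1 : ℤ) : ℝ) := by exact_mod_cast h'
        have := neg_le_abs (X - ((ix i + 8 * k.1 : ℤ) : ℝ) / 8)
        linarith
  · have h2 : 1 ≤ |iy i + 8 * k.2| := Int.one_le_abs hb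
    have h3 : (1 : ℝ) ≤ |((iy i + 8 * k.2 : ℤ) : ℝ)| := by exact_mod_cast h2
    rw [abs_div, abs_of_pos (show (0 : ℝ) < 8 by norm_num)] at nim
    linarith

/-- the two states of the orbit -/
def x0 : (tab x).State := ⟨i0, 1, 1⟩
/-- second state -/
def x1 : (tab x).State := ⟨i1, -1, -1⟩

lemma x0_ne_x1 : x0 x ≠ x1 x := by
  intro h
  have h1 : i0 = i1 := congrArg State.i h
  have h2 : i0.1.1 = i1.1.1 := by rw [h1]
  revert h2
  decide

lemma x0_mem : x0 x ∈ (tab x).M := by
  refine ⟨?_, ?_, ?_⟩ <;> simp [x0, State.cosφ]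

lemma x1_mem : x1 x ∈ (tab x).M := by
  refine ⟨?_, ?_, ?_⟩ <;> simp [x1, State.cosφ]

lemma cos_x0 : (x0 x).cosφ = 1 := by simp [x0, State.cosφ]
lemma cos_x1 : (x1 x).cosφ = 1 := by simp [x1, State.cosφ]

lemma pos_x0 : (x0 x).pos = ((rr x i0 : ℝ) : ℂ) := by
  change ctr i0 + ((rr x i0 : ℝ) : ℂ) * 1 = _
  rw [ctr_i0]; ring

lemma pos_x1 : (x1 x).pos = ((1 / 4 - rr x i1 : ℝ) : ℂ) := by
  change ctr i1 + ((rr x i1 : ℝ) : ℂ) * (-1) = _
  rw [ctr_i1]; push_cast; ring

lemma next01 : (tab x).Next (x0 x) (x1 x) := by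
  have r0 := rr_le x i0
  have r1 := rr_le x i1
  refine ⟨x1_mem x, 1 / 4 - rr x i0 - rr x i1, by linarith, ⟨0, ?_⟩, ?_, ?_⟩
  · rw [pos_x0, pos_x1, lat_zero]
    change ((rr x i0 : ℝ) : ℂ) + _ * 1 = _
    push_cast; ring
  · intro s hs hst i k h
    have e : (x0 x).pos + (s : ℂ) * (x0 x).v = ((rr x i0 + s : ℝ) : ℂ) := by
      rw [pos_x0]
      change ((rr x i0 : ℝ) : ℂ) + (s : ℂ) * 1 = _
      push_cast; ring
    rw [e] at h
    have := free_aux x (rr x i0 + s) (by linarith) (by linarith) i k
    exact absurd h (not_le.mpr this)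
  · change (-1 : ℂ) = 1 - (2 * ((1 : ℂ) * (starRingEnd ℂ) (-1)).re : ℝ) * (-1)
    simp; norm_num

lemma next10 : (tab x).Next (x1 x) (x0 x) := by
  have r0 := rr_le x i0
  have r1 := rr_le x i1
  refine ⟨x0_mem x, 1 / 4 - rr x i0 - rr x i1, by linarith, ⟨0, ?_⟩, ?_, ?_⟩
  · rw [pos_x0, pos_x1, lat_zero]
    change ((1 / 4 - rr x i1 : ℝ) : ℂ) + _ * (-1) = _
    push_cast; ring
  · intro s hs hst i k h
    have e : (x1 x).pos + (s : ℂ) * (x1 x).v = ((1 / 4 - rr x i1 - s : ℝ) : ℂ) := by
      rw [pos_x1]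
      change ((1 / 4 - rr x i1 : ℝ) : ℂ) + (s : ℂ) * (-1) = _
      push_cast; ring
    rw [e] at h
    have := free_aux x (1 / 4 - rr x i1 - s) (by linarith) (by linarith) i k
    exact absurd h (not_le.mpr this)
  · change (1 : ℂ) = -1 - (2 * ((-1 : ℂ) * (starRingEnd ℂ) 1).re : ℝ) * 1
    simp; norm_num

lemma T_x0 : (tab x).T (x0 x) = x1 x :=
  next_unique (x0_mem x) (next_T (tab_fh x) (x0_mem x)) (next01 x)

lemma T_x1 : (tab x).T (x1 x) = x0 x :=
  next_unique (x1_mem x) (next_T (tab_fh x) (x1_mem x)) (next10 x)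

lemma iter_x0 (j : ℕ) : (tab x).T^[j] (x0 x) = x0 x ∨ (tab x).T^[j] (x0 x) = x1 x := by
  induction j with
  | zero => exact Or.inl rfl
  | succ j ih =>
    rw [Function.iterate_succ_apply']
    rcases ih with h | h
    · rw [h, T_x0]; exact Or.inr rfl
    · rw [h, T_x1]; exact Or.inl rfl

end NonVac

open NonVac

/-- there are non-grazing periodic points -/
theorem exists_periodic (x : Idx → unitInterval) : ∃ y ∈ (tab x).M,
    y ∈ Function.periodicPts (tab x).T ∧ (tab x).NonGrazing y := by
  refine ⟨x0 x, x0_mem x, ⟨2, by norm_num, ?_⟩, ?_⟩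
  · change (tab x).T^[2] (x0 x) = x0 x
    rw [show (2 : ℕ) = 1 + 1 from rfl, Function.iterate_succ_apply', Function.iterate_one, T_x0,
      T_x1]
  · intro j
    rcases iter_x0 x j with h | h
    · rw [h, cos_x0]; norm_num
    · rw [h, cos_x1]; norm_num

namespace DiskTable

variable {B : DiskTable}

instance : MeasurableSingletonClass B.State where
  measurableSet_singleton y := by
    have hi : Measurable[_, ⊤] (State.i : B.State → B.ι) :=
      Measurable.of_comap_le (le_sup_of_le_left le_sup_left)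
    have e : ({y} : Set B.State) = State.i ⁻¹' {y.i} ∩ (State.n ⁻¹' {y.n} ∩ State.v ⁻¹' {y.v}) := by
      ext z
      rcases z with ⟨a, b, c⟩
      rcases y with ⟨a', b', c'⟩
      simp
    rw [e]
    refine MeasurableSet.inter (hi ?_) (MeasurableSet.inter ?_ ?_)
    · exact trivial
    · exact measurable_n (measurableSet_singleton _)
    · exact measurable_v (measurableSet_singleton _)

end DiskTable

/-- the class `M*` is not empty -/
theorem mstar_nonempty (x : Idx → unitInterval) : (tab x).MStar.Nonempty := by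
  classical
  set a := x0 x with ha
  set b := x1 x with hb
  have hab : a ≠ b := x0_ne_x1 x
  set μ : Measure (tab x).State :=
    (2⁻¹ : ENNReal) • Measure.dirac a + (2⁻¹ : ENNReal) • Measure.dirac b with hμ
  have happly : ∀ s : Set (tab x).State, a ∉ s → b ∉ s → μ s = 0 := by
    intro s h1 h2
    rw [hμ, Measure.add_apply, Measure.smul_apply, Measure.smul_apply, Measure.dirac_apply,
      Measure.dirac_apply, Set.indicator_of_notMem h1, Set.indicator_of_notMem h2]
    simp
  have hprob : IsProbabilityMeasure μ := by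
    constructor
    rw [hμ, Measure.add_apply, Measure.smul_apply, Measure.smul_apply, measure_univ, measure_univ]
    simp only [smul_eq_mul, mul_one]
    exact ENNReal.inv_two_add_inv_two
  refine ⟨μ, ⟨hprob, ?_, ?_⟩, ?_, ?_⟩
  · exact happly _ (fun h => h (x0_mem x)) (fun h => h (x1_mem x))
  · set g : (tab x).State → (tab x).State := fun y => if y = a then b else a with hg
    have hgm : Measurable g :=
      Measurable.ite (measurableSet_singleton a) measurable_const measurable_const
    have hae : (tab x).T =ᵐ[μ] g := by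
      rw [Filter.EventuallyEq, ae_iff]
      apply happly
      · simp only [Set.mem_ofPred_eq, not_not, hg, if_true, ha]
        exact T_x0 x
      · simp only [Set.mem_ofPred_eq, not_not, hg, if_neg hab.symm]
        exact T_x1 x
    rw [Measure.map_congr hae, hμ, Measure.map_add _ _ hgm, Measure.map_smul, Measure.map_smul,
      Measure.map_dirac' hgm, Measure.map_dirac' hgm]
    have e1 : g a = b := by simp [hg]
    have e2 : g b = a := by simp [hg, hab.symm]
    rw [e1, e2, add_comm]
  · apply happly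
    · simp only [Set.mem_ofPred_eq, ha, cos_x0]; norm_num
    · simp only [Set.mem_ofPred_eq, hb, cos_x1]; norm_num
  · rw [hμ]
    refine Integrable.add_measure ?_ ?_
    · exact (integrable_dirac (by simp)).smul_measure (by simp)
    · exact (integrable_dirac (by simp)).smul_measure (by simp)

end Pool.Agent.Lib.MP_79f2f8_an
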