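import Pool.Agent.Lib.MP_79f2f8_an.Asm
import Pool.Agent.Lib.MP_79f2f8_an.BiOrb
import Pool.Agent.Lib.MP_79f2f8_an.JuBound
import Pool.Agent.Lib.MP_79f2f8_an.Press
import Pool.Agent.Lib.MP_79f2f8_an.NonVac

/-!
# Left continuity of the pressure at `0` for the good tables
-/

open Complex Finset Filter Topology

namespace Pool.Agent.Lib.MP_79f2f8_an

/-- the window bound for all forward orbits of a good table -/
theorem window_tab {A : ℝ} (hA : 1 ≤ A) {x : Idx → unitInterval}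
    (h : NoBad ctr (radx rad0 (1 / 1000) x) (stepSet : Set (Idx × ℂ × Idx)) A) :
    ∃ C : ℝ, 0 < C ∧ ∀ y ∈ (tab x).M, ∀ K b : ℕ,
      ∑ j ∈ range b, gainK K ((tab x).T^[j] y).cosφ ≤ C * (b + K + 1) := by
  obtain ⟨C, hC, hwin⟩ := window_of_noBad _ _ _ A hA h
  refine ⟨C, hC, fun y hy K b => ?_⟩
  obtain ⟨X, hMX, hNX, hX⟩ := DiskTable.exists_biorbit (tab_fh x) hy
  obtain ⟨w, O⟩ := orb_of hMX hNX
  have := hwin _ _ _ _ O K 0 b
  refine le_trans (le_of_eq ?_) this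
  apply Finset.sum_congr rfl
  intro j _
  rw [← hX j, zero_add]
  rfl

/-- **Q1, negative answer.** -/
theorem q1 : ∃ B : DiskTable, B.FiniteHorizon ∧ B.MStar.Nonempty ∧
    Tendsto (fun q : ℝ => B.pressure (fun x => q * B.geoPot x)) (𝓝[<] 0)
      (𝓝 (B.pressure (fun _ => 0))) := by
  obtain ⟨A, hA, x, hNB⟩ := exists_noBad setup
  obtain ⟨C, hC, hwin⟩ := window_tab hA hNB
  obtain ⟨K, hK1, hK⟩ := DiskTable.JuT_bound (tab_fh x)
  exact ⟨tab x, tab_fh x, mstar_nonempty x, DiskTable.pressure_limit_of (tab_fh x) C hwin hK⟩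

end Pool.Agent.Lib.MP_79f2f8_an
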