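import Pool.Agent.Lib.MP_79f2f8_an.NonVac

/-!
# Periodic orbits of the good tables have bounded exponents
-/

open Complex Finset

namespace Pool.Agent.Lib.MP_79f2f8_an

namespace DiskTable
variable {B : DiskTable}

/-- the periodic bi-infinite orbit of a periodic point -/
noncomputable def perOrb (B : DiskTable) (y : B.State) (N : ℕ) (j : ℤ) : B.State :=
  B.T^[(j % N).toNat] y

lemma perOrb_succ {y : B.State} {N : ℕ} (hN : 0 < N) (hp : B.T^[N] y = y) (j : ℤ) :
    B.perOrb y N (j + 1) = B.T (B.perOrb y N j) := by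
  unfold perOrb
  have hN' : (0 : ℤ) < N := by exact_mod_cast hN
  have h1 := Int.emod_nonneg j hN'.ne'
  have h2 := Int.emod_lt_of_pos j hN'
  obtain ⟨r, hr⟩ : ∃ r : ℕ, j % N = r := ⟨(j % N).toNat, (Int.toNat_of_nonneg h1).symm⟩
  have hrN : r < N := by rw [hr] at h2; exact_mod_cast h2
  have e : (j + 1) % N = ((r : ℤ) + 1) % N := by
    rw [Int.add_emod, hr]; rw [Int.add_emod (r : ℤ) 1]
    congr 2
    rw [← hr, Int.emod_emod_of_dvd _ dvd_rfl]
  rw [hr, e, Int.toNat_natCast, ← Function.iterate_succ_apply' B.T r y]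
  rcases Nat.lt_or_ge (r + 1) N with h | h
  · rw [Int.emod_eq_of_lt (by positivity) (by exact_mod_cast h)]
    congr 1
  · have h3 : r + 1 = N := by omega
    have h4 : ((r : ℤ) + 1) % N = 0 := by
      have : ((r : ℤ) + 1) = N := by exact_mod_cast h3
      rw [this]; simp
    rw [h4, Nat.succ_eq_add_one, h3, hp]; rfl

lemma perOrb_add {y : B.State} {N : ℕ} (j : ℤ) : B.perOrb y N (j + N) = B.perOrb y N j := by
  unfold perOrb; rw [Int.add_emod_right]

lemma perOrb_nat {y : B.State} {N : ℕ} {j : ℕ} (hj : j < N) :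
    B.perOrb y N (j : ℤ) = B.T^[j] y := by
  unfold perOrb
  rw [Int.emod_eq_of_lt (by positivity) (by exact_mod_cast hj), Int.toNat_natCast]

end DiskTable

/-- products of cosines along periodic orbits -/
theorem prod_cos_tab {A : ℝ} (hA : 1 ≤ A) {x : Idx → unitInterval}
    (h : NoBad ctr (radx rad0 (1 / 1000) x) (stepSet : Set (Idx × ℂ × Idx)) A) :
    ∃ C : ℝ, 0 < C ∧ ∀ y ∈ (tab x).M, (tab x).NonGrazing y → ∀ N : ℕ, 0 < N →
      (tab x).T^[N] y = y → Real.exp (-(C * N)) ≤ ∏ j ∈ range N, ((tab x).T^[j] y).cosφ := by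
  obtain ⟨C, hC, hprod⟩ := prod_cos_periodic _ _ _ A hA h
  refine ⟨C, hC, fun y hy hng N hN hp => ?_⟩
  set X : ℤ → (tab x).State := (tab x).perOrb y N with hX
  have hMX : ∀ j, X j ∈ (tab x).M := fun j => DiskTable.iterate_mem (tab_fh x) hy _
  have hNX : ∀ j, (tab x).Next (X j) (X (j + 1)) := by
    intro j
    rw [hX, DiskTable.perOrb_succ hN hp]
    exact DiskTable.next_T (tab_fh x) (hMX j)
  obtain ⟨w, O⟩ := orb_of hMX hNX
  have := hprod _ _ _ _ O N hN (fun j => by
      have := DiskTable.perOrb_add (B := tab x) (y := y) (N := N) j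
      constructor
      · simp only [hX, this]
      · simp only [hX, this])
    (fun j => hng _)
  refine le_trans this (le_of_eq ?_)
  apply Finset.prod_congr rfl
  intro j hj
  rw [Finset.mem_range] at hj
  simp only [hX, DiskTable.perOrb_nat hj]
  rfl

/-- the bound for the expansion factor of a periodic point -/
theorem Ju_bound {A : ℝ} (hA : 1 ≤ A) {x : Idx → unitInterval}
    (h : NoBad ctr (radx rad0 (1 / 1000) x) (stepSet : Set (Idx × ℂ × Idx)) A) :
    ∃ C : ℝ, 0 < C ∧ ∀ y ∈ (tab x).M, (tab x).NonGrazing y → ∀ N : ℕ, 0 < N →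
      (tab x).T^[N] y = y → Real.log ((tab x).Ju N y) ≤ C * N := by
  obtain ⟨C, hC, hprod⟩ := prod_cos_tab hA h
  obtain ⟨K, hK, hev⟩ := DiskTable.eigen_bound (tab_fh x)
  refine ⟨Real.log K + C, by have := Real.log_nonneg hK; linarith, fun y hy hng N hN hp => ?_⟩
  have h1 := hprod y hy hng N hN hp
  have hK0 : 0 < K := by linarith
  have hpos : 0 < ∏ j ∈ range N, ((tab x).T^[j] y).cosφ := lt_of_lt_of_le (Real.exp_pos _) h1
  have hbd : ∀ r ∈ {r : ℝ | ∃ (μ : ℝ) (w : ℝ × ℝ), w ≠ 0 ∧ (tab x).DT N y w = μ • w ∧ r = |μ|},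
      r ≤ K ^ N * Real.exp (C * N) := by
    rintro r ⟨μ, w, hw, hD, rfl⟩
    refine le_trans (hev y hy hng N hN hp μ w hw hD) ?_
    rw [Finset.prod_div_distrib, Finset.prod_const, Finset.card_range, div_le_iff₀ hpos]
    have : 1 ≤ Real.exp (C * N) * ∏ j ∈ range N, ((tab x).T^[j] y).cosφ := by
      calc (1 : ℝ) = Real.exp (C * N) * Real.exp (-(C * N)) := by
            rw [← Real.exp_add]; simp
        _ ≤ _ := mul_le_mul_of_nonneg_left h1 (Real.exp_pos _).le
    calc K ^ N = K ^ N * 1 := by ring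
      _ ≤ K ^ N * (Real.exp (C * N) * ∏ j ∈ range N, ((tab x).T^[j] y).cosφ) := by gcongr
      _ = _ := by ring
  have hsup : (tab x).Ju N y ≤ K ^ N * Real.exp (C * N) := by
    unfold DiskTable.Ju
    apply Real.sSup_le hbd (by positivity)
  have hJ0 : 0 ≤ (tab x).Ju N y := by
    unfold DiskTable.Ju
    apply Real.sSup_nonneg
    rintro r ⟨μ, w, -, -, rfl⟩
    exact abs_nonneg μ
  rcases hJ0.eq_or_lt with h0 | h0
  · rw [← h0, Real.log_zero]
    have := Real.log_nonneg hK
    positivity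
  · refine le_trans (Real.log_le_log h0 hsup) ?_
    rw [Real.log_mul (by positivity) (Real.exp_pos _).ne', Real.log_pow, Real.log_exp]
    linarith

/-- **Q2, negative answer.** -/
theorem q2 : ∃ B : DiskTable, B.FiniteHorizon ∧
    (∃ x ∈ B.M, x ∈ Function.periodicPts B.T ∧ B.NonGrazing x) ∧ ∃ C : ℝ,
    ∀ x ∈ B.M, x ∈ Function.periodicPts B.T → B.NonGrazing x → B.lyapunov x ≤ C := by
  obtain ⟨A, hA, x, hNB⟩ := exists_noBad setup
  obtain ⟨C, hC, hJ⟩ := Ju_bound hA hNB
  refine ⟨tab x, tab_fh x, exists_periodic x, C, fun y hy hper hng => ?_⟩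
  have hN := Function.minimalPeriod_pos_of_mem_periodicPts hper
  have hp : (tab x).T^[Function.minimalPeriod (tab x).T y] y = y :=
    Function.isPeriodicPt_minimalPeriod _ _
  have := hJ y hy hng _ hN hp
  unfold DiskTable.lyapunov
  rw [div_le_iff₀ (by exact_mod_cast hN)]
  exact this

end Pool.Agent.Lib.MP_79f2f8_an
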