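import Mathlib

/-!
# Sets with small sections in one direction have small measure (module C1)
-/

open MeasureTheory Set

namespace Pool.Agent.Lib.MP_79f2f8_an

/-- A subset of the unit interval of diameter at most `δ` has measure at most `δ`. -/
lemma volume_unitInterval_le_of_diam (S : Set unitInterval) (δ : ℝ)
    (h : ∀ x ∈ S, ∀ y ∈ S, |(x : ℝ) - y| ≤ δ) : volume S ≤ ENNReal.ofReal δ := by
  rw [unitInterval.volume_apply]
  refine (Real.volume_le_diam _).trans (Metric.ediam_le ?_)
  rintro _ ⟨x, hx, rfl⟩ _ ⟨y, hy, rfl⟩
  rw [edist_dist, Real.dist_eq]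
  exact ENNReal.ofReal_le_ofReal (h x hx y hy)

/-- module C1, file Sect.lean -/
theorem volume_le_of_section {F : Type} [Fintype F] [DecidableEq F] (i : F)
    (E : Set (F → unitInterval)) (hE : MeasurableSet E) (δ : ℝ) (_hδ : 0 ≤ δ)
    (h : ∀ x ∈ E, ∀ y ∈ E, (∀ j, j ≠ i → x j = y j) → |(x i : ℝ) - y i| ≤ δ) :
    volume E ≤ ENNReal.ofReal δ := by
  have hf : Measurable (E.indicator (fun _ => (1 : ENNReal))) :=
    measurable_const.indicator hE
  have key := lintegral_le_of_lmarginal_le (μ := fun _ : F => (volume : Measure unitInterval)) {i}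
    (f := E.indicator (fun _ => (1 : ENNReal))) (g := fun _ => ENNReal.ofReal δ)
    hf measurable_const ?_
  · rw [← volume_pi, lintegral_indicator hE] at key
    simpa using key
  · intro x
    rw [lmarginal_singleton, lmarginal_singleton]
    have h1 : ∀ t : unitInterval, E.indicator (fun _ => (1 : ENNReal)) (Function.update x i t) =
        ((Function.update x i) ⁻¹' E).indicator (fun _ => (1 : ENNReal)) t := fun t => rfl
    simp_rw [h1]
    rw [lintegral_indicator (measurable_update x (a := i) hE)]
    simp only [lintegral_const, one_mul, MeasurableSet.univ, Measure.restrict_apply, univ_inter,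
      measure_univ, mul_one]
    refine volume_unitInterval_le_of_diam _ δ ?_
    intro s hs t ht
    have := h _ hs _ ht (fun j hj => by simp [Function.update_of_ne hj])
    simpa using this

end Pool.Agent.Lib.MP_79f2f8_an
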