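import Pool.Agent.Lib.MP_79f2f8_an.Defs

set_option autoImplicit false

open Complex
namespace Pool.Agent.Lib.MP_79f2f8_an

/-- index set of the table: 16 big disks (`false`) and 16 small disks (`true`) -/
abbrev Idx : Type := (Fin 4 × Fin 4) × Bool

/-- real coordinates of the centres: `a/4` or `(a + 1/2)/4` -/
noncomputable def cx (i : Idx) : ℝ := (((i.1.1 : ℕ) : ℝ) + (if i.2 then 1/2 else 0)) / 4
noncomputable def cy (i : Idx) : ℝ := (((i.1.2 : ℕ) : ℝ) + (if i.2 then 1/2 else 0)) / 4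
noncomputable def ctr (i : Idx) : ℂ := (cx i : ℂ) + (cy i : ℂ) * I

/-- base radii -/
noncomputable def rad0 (i : Idx) : ℝ := if i.2 then 29/800 else 9/100

theorem ctr_re (i : Idx) : (ctr i).re = cx i := by simp [ctr]
theorem ctr_im (i : Idx) : (ctr i).im = cy i := by simp [ctr]
theorem tlat_re (k : ℤ × ℤ) : (lat k).re = k.1 := by simp [lat]
theorem tlat_im (k : ℤ × ℤ) : (lat k).im = k.2 := by simp [lat]

theorem normSq_eq (z : ℂ) : ‖z‖ ^ 2 = z.re ^ 2 + z.im ^ 2 := by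
  rw [← Complex.normSq_eq_norm_sq, Complex.normSq_apply]; ring

/-- twice the integer coordinate in units of 1/8 -/
def ix (i : Idx) : ℤ := 2 * (i.1.1 : ℕ) + (if i.2 then 1 else 0)
def iy (i : Idx) : ℤ := 2 * (i.1.2 : ℕ) + (if i.2 then 1 else 0)

theorem cx_eq (i : Idx) : cx i = (ix i : ℝ) / 8 := by
  unfold cx ix
  rcases i with ⟨⟨a, b⟩, c⟩
  cases c <;> simp <;> ring
theorem cy_eq (i : Idx) : cy i = (iy i : ℝ) / 8 := by
  unfold cy iy
  rcases i with ⟨⟨a, b⟩, c⟩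
  cases c <;> simp <;> ring

/-- gaps between the lifts -/
theorem gap (i j : Idx) (k : ℤ × ℤ) (h : i ≠ j ∨ k ≠ 0) :
    rad0 i + rad0 j + 2/1000 + 97/2000 ≤ ‖ctr j + lat k - ctr i‖ := by
  set P : ℤ := ix j + 8 * k.1 - ix i with hP
  set Q : ℤ := iy j + 8 * k.2 - iy i with hQ
  have hre : (ctr j + lat k - ctr i).re = (P : ℝ) / 8 := by
    simp only [sub_re, add_re, ctr_re, tlat_re, cx_eq, hP]
    push_cast; ring
  have him : (ctr j + lat k - ctr i).im = (Q : ℝ) / 8 := by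
    simp only [sub_im, add_im, ctr_im, tlat_im, cy_eq, hQ]
    push_cast; ring
  have hn : ‖ctr j + lat k - ctr i‖ ^ 2 = ((P : ℝ) ^ 2 + (Q : ℝ) ^ 2) / 64 := by
    rw [normSq_eq, hre, him]; ring
  have hnn : 0 ≤ ‖ctr j + lat k - ctr i‖ := norm_nonneg _
  -- at least 2
  have key : (i.2 = j.2 → 4 ≤ P ^ 2 + Q ^ 2) ∧ (2 ≤ P ^ 2 + Q ^ 2) := by
    rcases i with ⟨⟨a, b⟩, c⟩
    rcases j with ⟨⟨a', b'⟩, c'⟩
    rcases k with ⟨k1, k2⟩
    have ha : (a : ℕ) < 4 := a.2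
    have hb : (b : ℕ) < 4 := b.2
    have ha' : (a' : ℕ) < 4 := a'.2
    have hb' : (b' : ℕ) < 4 := b'.2
    simp only [ix, iy] at hP hQ
    by_cases hc : c = c'
    · subst hc
      have hne : ¬ (P = 0 ∧ Q = 0) := by
        rintro ⟨h1, h2⟩
        rw [h1] at hP
        rw [h2] at hQ
        have e1 : (a : ℕ) = a' := by omega
        have e2 : (b : ℕ) = b' := by omega
        have e3 : k1 = 0 := by omega
        have e4 : k2 = 0 := by omega
        rcases h with h | h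
        · apply h
          have e1' : a = a' := Fin.ext e1
          have e2' : b = b' := Fin.ext e2
          rw [e1', e2']
        · apply h; simp [e3, e4]
      obtain ⟨p, hp⟩ : ∃ p, P = 2 * p := ⟨(a' : ℕ) + 4 * k1 - (a : ℕ), by rw [hP]; ring⟩
      obtain ⟨q, hq⟩ : ∃ q, Q = 2 * q := ⟨(b' : ℕ) + 4 * k2 - (b : ℕ), by rw [hQ]; ring⟩
      have : p ≠ 0 ∨ q ≠ 0 := by
        by_contra hcon
        push Not at hcon
        exact hne ⟨by rw [hp, hcon.1]; rfl, by rw [hq, hcon.2]; rfl⟩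
      have h4 : 4 ≤ P ^ 2 + Q ^ 2 := by
        rw [hp, hq]
        rcases this with h' | h'
        · have : 1 ≤ p ^ 2 := by
            have := sq_pos_of_ne_zero h'
            omega
          nlinarith [sq_nonneg q]
        · have : 1 ≤ q ^ 2 := by
            have := sq_pos_of_ne_zero h'
            omega
          nlinarith [sq_nonneg p]
      exact ⟨fun _ => h4, by omega⟩
    · have hcc : (if c = true then (1:ℤ) else 0) + (if c' = true then (1:ℤ) else 0) = 1 := by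
        cases c <;> cases c' <;> first | rfl | (exact absurd rfl hc)
      generalize (if c = true then (1:ℤ) else 0) = z at hcc hP hQ
      generalize (if c' = true then (1:ℤ) else 0) = z' at hcc hP hQ
      have hP0 : P ≠ 0 := by omega
      have hQ0 : Q ≠ 0 := by omega
      have h1 := sq_pos_of_ne_zero hP0
      have h2 := sq_pos_of_ne_zero hQ0
      exact ⟨fun h => absurd h hc, by omega⟩
  have k2 : (2 : ℝ) ≤ (P : ℝ) ^ 2 + (Q : ℝ) ^ 2 := by exact_mod_cast key.2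
  have k1 : i.2 = j.2 → (4 : ℝ) ≤ (P : ℝ) ^ 2 + (Q : ℝ) ^ 2 := fun h => by exact_mod_cast key.1 h
  unfold rad0
  rcases hi : i.2 with _ | _ <;> rcases hj : j.2 with _ | _
  · have := k1 (by rw [hi, hj])
    simp only [Bool.false_eq_true, if_false]
    nlinarith
  · simp only [Bool.false_eq_true, if_false, if_true]
    nlinarith
  · simp only [Bool.false_eq_true, if_false, if_true]
    nlinarith
  · have := k1 (by rw [hi, hj])
    simp only [if_true]
    nlinarith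

/-- every integer point over 4 is a centre of a big disk -/
theorem exists_big (m n : ℤ) : ∃ (i : Idx) (k : ℤ × ℤ), rad0 i = 9/100 ∧
    (ctr i + lat k).re = (m : ℝ) / 4 ∧ (ctr i + lat k).im = (n : ℝ) / 4 := by
  have h1 : (m % 4).toNat < 4 := by omega
  have h2 : (n % 4).toNat < 4 := by omega
  refine ⟨((⟨(m % 4).toNat, h1⟩, ⟨(n % 4).toNat, h2⟩), false), (m / 4, n / 4), by simp [rad0], ?_, ?_⟩
  · simp only [add_re, ctr_re, tlat_re, cx]
    have : (((m % 4).toNat : ℤ)) = m - 4 * (m / 4) := by omega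
    have h' : (((m % 4).toNat : ℕ) : ℝ) = m - 4 * ((m / 4 : ℤ) : ℝ) := by exact_mod_cast this
    simp only [Bool.false_eq_true, if_false, h']
    ring
  · simp only [add_im, ctr_im, tlat_im, cy]
    have : (((n % 4).toNat : ℤ)) = n - 4 * (n / 4) := by omega
    have h' : (((n % 4).toNat : ℕ) : ℝ) = n - 4 * ((n / 4 : ℤ) : ℝ) := by exact_mod_cast this
    simp only [Bool.false_eq_true, if_false, h']
    ring

theorem exists_small (m n : ℤ) : ∃ (i : Idx) (k : ℤ × ℤ), rad0 i = 29/800 ∧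
    (ctr i + lat k).re = ((m : ℝ) + 1/2) / 4 ∧ (ctr i + lat k).im = ((n : ℝ) + 1/2) / 4 := by
  have h1 : (m % 4).toNat < 4 := by omega
  have h2 : (n % 4).toNat < 4 := by omega
  refine ⟨((⟨(m % 4).toNat, h1⟩, ⟨(n % 4).toNat, h2⟩), true), (m / 4, n / 4), by simp [rad0], ?_, ?_⟩
  · simp only [add_re, ctr_re, tlat_re, cx]
    have : (((m % 4).toNat : ℤ)) = m - 4 * (m / 4) := by omega
    have h' : (((m % 4).toNat : ℕ) : ℝ) = m - 4 * ((m / 4 : ℤ) : ℝ) := by exact_mod_cast this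
    simp only [if_true, h']
    ring
  · simp only [add_im, ctr_im, tlat_im, cy]
    have : (((n % 4).toNat : ℤ)) = n - 4 * (n / 4) := by omega
    have h' : (((n % 4).toNat : ℕ) : ℝ) = n - 4 * ((n / 4 : ℤ) : ℝ) := by exact_mod_cast this
    simp only [if_true, h']
    ring

/-- foot of the perpendicular -/
theorem foot (σ e ρ : ℝ) (hρ : 0 < ρ) (h : e ^ 2 < ρ ^ 2 * (1 + σ ^ 2)) :
    ∃ d : ℝ, |d| < ρ ∧ d ^ 2 + (e + σ * d) ^ 2 < ρ ^ 2 := by
  have hw : 0 < 1 + σ ^ 2 := by positivity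
  refine ⟨- σ * e / (1 + σ ^ 2), ?_, ?_⟩
  · refine abs_lt_of_sq_lt_sq ?_ hρ.le
    rw [div_pow, div_lt_iff₀ (by positivity)]
    nlinarith [sq_nonneg σ, sq_nonneg (σ * e), sq_nonneg ρ, mul_nonneg (sq_nonneg σ) (sub_nonneg.mpr h.le),
      mul_pos (pow_pos hρ 2) hw]
  · have h1 : (- σ * e / (1 + σ ^ 2)) ^ 2 + (e + σ * (- σ * e / (1 + σ ^ 2))) ^ 2
      = e ^ 2 / (1 + σ ^ 2) := by
      field_simp
      ring
    rw [h1, div_lt_iff₀ hw]
    exact h

/-- three consecutive columns cannot all be missed -/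
theorem column (A σ : ℝ) (hσ : |σ| ≤ 1) :
    (∃ n : ℤ, (A - n) ^ 2 < (36/100) ^ 2 * (1 + σ ^ 2)) ∨
    (∃ n : ℤ, (A + σ - n) ^ 2 < (36/100) ^ 2 * (1 + σ ^ 2)) ∨
    (∃ n : ℤ, (A + σ / 2 - 1/2 - n) ^ 2 < (145/1000) ^ 2 * (1 + σ ^ 2)) := by
  by_contra hcon
  push Not at hcon
  obtain ⟨h1, h2, h3⟩ := hcon
  obtain ⟨hσ1, hσ2⟩ := abs_le.mp hσ
  have hσσ : σ ^ 2 ≤ 1 := by nlinarith
  set w := Real.sqrt (1 + σ ^ 2) with hw
  have hww : w ^ 2 = 1 + σ ^ 2 := Real.sq_sqrt (by positivity)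
  have hw0 : 0 ≤ w := Real.sqrt_nonneg _
  have hw1 : 1 ≤ w := by nlinarith [sq_nonneg σ]
  have big : ∀ z : ℝ, (∀ n : ℤ, (36/100) ^ 2 * (1 + σ ^ 2) ≤ (z - n) ^ 2) →
      36/100 * w ≤ z - ⌊z⌋ ∧ 36/100 * w ≤ ⌊z⌋ + 1 - z := by
    intro z hz
    have hf1 : (⌊z⌋ : ℝ) ≤ z := Int.floor_le z
    have hf2 : z < ⌊z⌋ + 1 := Int.lt_floor_add_one z
    constructor
    · have := hz ⌊z⌋
      rw [← hww] at this
      refine abs_le_of_sq_le_sq' ?_ (by linarith) |>.2
      nlinarith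
    · have := hz (⌊z⌋ + 1)
      rw [← hww] at this
      push_cast at this
      refine abs_le_of_sq_le_sq' ?_ (by linarith) |>.2
      nlinarith
  obtain ⟨a1, a2⟩ := big A h1
  obtain ⟨b1, b2⟩ := big (A + σ) h2
  set p := ⌊A⌋
  set p' := ⌊A + σ⌋
  have c1 : (p' : ℝ) - p < 2 := by linarith
  have c2 : (-2 : ℝ) < (p' : ℝ) - p := by linarith
  have c1' : p' - p < 2 := by exact_mod_cast c1
  have c2' : -2 < p' - p := by exact_mod_cast c2
  have hcases : p' = p ∨ p' = p + 1 ∨ p' = p - 1 := by omega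
  rcases hcases with h | h | h
  · rw [h] at b1 b2
    have := h3 p
    rw [← hww] at this
    have e1 : A + σ / 2 - 1/2 - p ≤ 1/2 - 36/100 * w := by linarith
    have e2 : -(1/2 - 36/100 * w) ≤ A + σ / 2 - 1/2 - p := by linarith
    nlinarith
  · have h' : (p' : ℝ) = p + 1 := by exact_mod_cast h
    rw [h'] at b1 b2
    have : 72/100 * w ≤ σ := by linarith
    nlinarith
  · have h' : (p' : ℝ) = p - 1 := by exact_mod_cast h
    rw [h'] at b1 b2
    have : 72/100 * w ≤ -σ := by linarith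
    nlinarith

/-- a segment of horizontal extent at least 2.72 (in units of 1/4) meets a disk -/
theorem core_pos (X Y a b : ℝ) (ha : 272/100 ≤ a) (hab : |b| ≤ a) :
    ∃ s : ℝ, 0 < s ∧ s < 1 ∧ ((∃ m n : ℤ, (X + s * a - m) ^ 2 + (Y + s * b - n) ^ 2 < (36/100) ^ 2) ∨
      (∃ m n : ℤ, (X + s * a - (m + 1/2)) ^ 2 + (Y + s * b - (n + 1/2)) ^ 2 < (145/1000) ^ 2)) := by
  have ha0 : 0 < a := by linarith
  set σ := b / a with hσ
  have hb : b = σ * a := by rw [hσ]; field_simp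
  have hσ1 : |σ| ≤ 1 := by
    rw [hσ, abs_div, abs_of_pos ha0, div_le_one ha0]; exact hab
  set m : ℤ := ⌈X + 36/100⌉ with hm
  have hm1 : X + 36/100 ≤ m := Int.le_ceil _
  have hm2 : (m : ℝ) < X + 36/100 + 1 := Int.ceil_lt_add_one _
  set A := Y + σ * (m - X) with hA
  have mk : ∀ (c cy ρ : ℝ), 0 < ρ → ρ ≤ 36/100 → (m : ℝ) ≤ c → c ≤ m + 1 →
      (Y + σ * (c - X) - cy) ^ 2 < ρ ^ 2 * (1 + σ ^ 2) →
      ∃ s : ℝ, 0 < s ∧ s < 1 ∧ (X + s * a - c) ^ 2 + (Y + s * b - cy) ^ 2 < ρ ^ 2 := by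
    intro c cy ρ hρ hρ' hc1 hc2 h
    obtain ⟨d, hd1, hd2⟩ := foot σ _ ρ hρ h
    obtain ⟨hd3, hd4⟩ := abs_lt.mp hd1
    refine ⟨(c + d - X) / a, div_pos (by linarith) ha0, ?_, ?_⟩
    · rw [div_lt_one ha0]; linarith
    · have e1 : X + (c + d - X) / a * a - c = d := by field_simp; ring
      have e2 : Y + (c + d - X) / a * b - cy = (Y + σ * (c - X) - cy) + σ * d := by
        rw [hb]; field_simp; ring
      rw [e1, e2]; exact hd2
  rcases column A σ hσ1 with ⟨n, hn⟩ | ⟨n, hn⟩ | ⟨n, hn⟩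
  · obtain ⟨s, h1, h2, h3⟩ := mk m n (36/100) (by norm_num) (by norm_num) le_rfl (by linarith)
      (by rw [← hA]; exact hn)
    exact ⟨s, h1, h2, Or.inl ⟨m, n, h3⟩⟩
  · obtain ⟨s, h1, h2, h3⟩ := mk (m + 1) n (36/100) (by norm_num) (by norm_num) (by linarith) le_rfl
      (by
        have : Y + σ * (m + 1 - X) - n = A + σ - n := by rw [hA]; ring
        rw [this]; exact hn)
    exact ⟨s, h1, h2, Or.inl ⟨m + 1, n, by push_cast; exact h3⟩⟩
  · obtain ⟨s, h1, h2, h3⟩ := mk (m + 1/2) (n + 1/2) (145/1000) (by norm_num) (by norm_num) (by linarith)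
      (by linarith) (by
        have : Y + σ * (m + 1/2 - X) - (n + 1/2) = A + σ / 2 - 1/2 - n := by rw [hA]; ring
        rw [this]; exact hn)
    exact ⟨s, h1, h2, Or.inr ⟨m, n, h3⟩⟩

theorem core_abs (X Y a b : ℝ) (ha : 272/100 ≤ |a|) (hab : |b| ≤ |a|) :
    ∃ s : ℝ, 0 < s ∧ s < 1 ∧ ((∃ m n : ℤ, (X + s * a - m) ^ 2 + (Y + s * b - n) ^ 2 < (36/100) ^ 2) ∨
      (∃ m n : ℤ, (X + s * a - (m + 1/2)) ^ 2 + (Y + s * b - (n + 1/2)) ^ 2 < (145/1000) ^ 2)) := by
  rcases le_or_gt 0 a with h | h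
  · rw [abs_of_nonneg h] at ha hab
    exact core_pos X Y a b ha hab
  · rw [abs_of_neg h] at ha hab
    obtain ⟨s, h1, h2, h3⟩ := core_pos (X + a) (Y + b) (-a) (-b) ha (by rw [abs_neg]; exact hab)
    have e1 : X + a + s * -a = X + (1 - s) * a := by ring
    have e2 : Y + b + s * -b = Y + (1 - s) * b := by ring
    rw [e1, e2] at h3
    exact ⟨1 - s, by linarith, by linarith, h3⟩

theorem core_sym (X Y a b : ℝ) (ha : 272/100 ≤ |a| ∨ 272/100 ≤ |b|) :
    ∃ s : ℝ, 0 < s ∧ s < 1 ∧ ((∃ m n : ℤ, (X + s * a - m) ^ 2 + (Y + s * b - n) ^ 2 < (36/100) ^ 2) ∨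
      (∃ m n : ℤ, (X + s * a - (m + 1/2)) ^ 2 + (Y + s * b - (n + 1/2)) ^ 2 < (145/1000) ^ 2)) := by
  rcases le_total |b| |a| with hab | hab
  · refine core_abs X Y a b ?_ hab
    rcases ha with h | h
    · exact h
    · exact h.trans hab
  · obtain ⟨s, h1, h2, h3⟩ := core_abs Y X b a (by
      rcases ha with h | h
      · exact h.trans hab
      · exact h) hab
    refine ⟨s, h1, h2, ?_⟩
    rcases h3 with ⟨m, n, h⟩ | ⟨m, n, h⟩
    · exact Or.inl ⟨n, m, by linarith⟩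
    · exact Or.inr ⟨n, m, by linarith⟩

/-- a long segment meets the interior of a base disk -/
theorem long_meets (q v : ℂ) (h : 68/100 ≤ |v.re| ∨ 68/100 ≤ |v.im|) :
    ∃ s : ℝ, 0 < s ∧ s < 1 ∧ ∃ (i : Idx) (k : ℤ × ℤ), ‖q + s * v - (ctr i + lat k)‖ < rad0 i := by
  have h' : 272/100 ≤ |4 * v.re| ∨ 272/100 ≤ |4 * v.im| := by
    rw [abs_mul, abs_mul, abs_of_pos (by norm_num : (0:ℝ) < 4)]
    rcases h with h | h
    · left; linarith
    · right; linarith
  obtain ⟨s, h1, h2, h3⟩ := core_sym (4 * q.re) (4 * q.im) (4 * v.re) (4 * v.im) h'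
  refine ⟨s, h1, h2, ?_⟩
  rcases h3 with ⟨m, n, h⟩ | ⟨m, n, h⟩
  · obtain ⟨i, k, hr, hx, hy⟩ := exists_big m n
    refine ⟨i, k, ?_⟩
    rw [hr]
    apply lt_of_pow_lt_pow_left₀ 2 (by norm_num)
    rw [normSq_eq]
    have e1 : (q + s * v - (ctr i + lat k)).re = q.re + s * v.re - (m : ℝ) / 4 := by
      rw [sub_re, hx]; simp
    have e2 : (q + s * v - (ctr i + lat k)).im = q.im + s * v.im - (n : ℝ) / 4 := by
      rw [sub_im, hy]; simp
    rw [e1, e2]
    nlinarith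
  · obtain ⟨i, k, hr, hx, hy⟩ := exists_small m n
    refine ⟨i, k, ?_⟩
    rw [hr]
    apply lt_of_pow_lt_pow_left₀ 2 (by norm_num)
    rw [normSq_eq]
    have e1 : (q + s * v - (ctr i + lat k)).re = q.re + s * v.re - ((m : ℝ) + 1/2) / 4 := by
      rw [sub_re, hx]; simp
    have e2 : (q + s * v - (ctr i + lat k)).im = q.im + s * v.im - ((n : ℝ) + 1/2) / 4 := by
      rw [sub_im, hy]; simp
    rw [e1, e2]
    nlinarith

/-- finite horizon, already for the base radii -/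
theorem horizon (q u : ℂ) (hu : ‖u‖ = 1) :
    ∃ t : ℝ, 0 ≤ t ∧ t ≤ 1 ∧ ∃ (i : Idx) (k : ℤ × ℤ), ‖q + t * u - (ctr i + lat k)‖ < rad0 i := by
  have h : 68/100 ≤ |u.re| ∨ 68/100 ≤ |u.im| := by
    by_contra hcon
    push Not at hcon
    obtain ⟨h1, h2⟩ := hcon
    have h3 := normSq_eq u
    rw [hu, ← sq_abs u.re, ← sq_abs u.im] at h3
    nlinarith [abs_nonneg u.re, abs_nonneg u.im]
  obtain ⟨s, h1, h2, h3⟩ := long_meets q u h
  exact ⟨s, h1.le, h2.le, h3⟩

set_option linter.unusedVariables false in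
/-- no free flight from a scatterer to a different lift of itself -/
theorem flight_ne (q u : ℂ) (hu : ‖u‖ = 1) (t : ℝ) (ht : 0 ≤ t)
    (free : ∀ s : ℝ, 0 < s → s < t → ∀ (i : Idx) (k : ℤ × ℤ),
      rad0 i ≤ ‖q + s * u - (ctr i + lat k)‖)
    (i : Idx) (k : ℤ × ℤ) (hq : ‖q - ctr i‖ ≤ rad0 i + 1/1000)
    (hq' : ‖q + t * u - (ctr i + lat k)‖ ≤ rad0 i + 1/1000) : k = 0 := by
  have hr : rad0 i ≤ 9/100 := by
    unfold rad0; split_ifs <;> norm_num
  have hdiff : ‖(t : ℂ) * u - lat k‖ ≤ 182/1000 := by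
    have : (t : ℂ) * u - lat k = (q + t * u - (ctr i + lat k)) - (q - ctr i) := by ring
    rw [this]
    refine (norm_sub_le _ _).trans ?_
    linarith
  have hre : |((t : ℂ) * u).re - k.1| ≤ 182/1000 := by
    have := (abs_re_le_norm ((t : ℂ) * u - lat k)).trans hdiff
    rwa [sub_re, tlat_re] at this
  have him : |((t : ℂ) * u).im - k.2| ≤ 182/1000 := by
    have := (abs_im_le_norm ((t : ℂ) * u - lat k)).trans hdiff
    rwa [sub_im, tlat_im] at this
  by_contra hk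
  have hk' : k.1 ≠ 0 ∨ k.2 ≠ 0 := by
    by_contra hcon
    push Not at hcon
    exact hk (Prod.ext hcon.1 hcon.2)
  have one_le : ∀ z : ℤ, z ≠ 0 → (1 : ℝ) ≤ |(z : ℝ)| := by
    intro z hz
    have := Int.one_le_abs hz
    exact_mod_cast this
  have hlong : 68/100 ≤ |((t : ℂ) * u).re| ∨ 68/100 ≤ |((t : ℂ) * u).im| := by
    rcases hk' with h | h
    · left
      have h1 := one_le _ h
      have h2 : |(k.1 : ℝ)| ≤ |((t : ℂ) * u).re - k.1| + |((t : ℂ) * u).re| := by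
        have := abs_sub_abs_le_abs_sub ((k.1 : ℝ)) (((t : ℂ) * u).re)
        rw [abs_sub_comm] at this
        linarith
      linarith
    · right
      have h1 := one_le _ h
      have h2 : |(k.2 : ℝ)| ≤ |((t : ℂ) * u).im - k.2| + |((t : ℂ) * u).im| := by
        have := abs_sub_abs_le_abs_sub ((k.2 : ℝ)) (((t : ℂ) * u).im)
        rw [abs_sub_comm] at this
        linarith
      linarith
  obtain ⟨s, h1, h2, j, l, hjl⟩ := long_meets q ((t : ℂ) * u) hlong
  have ht0 : 0 < t := by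
    rcases lt_or_eq_of_le ht with h | h
    · exact h
    · exfalso
      rw [← h] at hlong
      simp at hlong
      norm_num at hlong
  have := free (s * t) (by positivity) (by nlinarith) j l
  have e : q + ((s * t : ℝ) : ℂ) * u = q + s * (t * u) := by push_cast; ring
  rw [e] at this
  linarith

end Pool.Agent.Lib.MP_79f2f8_an
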