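import Pool.Agent.Lib.MP_79f2f8_an.Rays

/-!
# Combinatorial types of bad triples
-/

open Finset

namespace Pool.Agent.Lib.MP_79f2f8_an

/-- data of a one sided type: word, translations, cell centres for normals and velocities,
integer parts of the gains -/
structure HalfType (F : Type) where
  I : ℕ → F
  w : ℕ → ℂ
  u : ℕ → ℂ
  v : ℕ → ℂ
  g : ℕ → ℕ

/-- radii for the parameter `x` -/
noncomputable def radx {F : Type} (R : F → ℝ) (η0 : ℝ) (x : F → unitInterval) (i : F) : ℝ :=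
  R i + η0 * (x i : ℝ)

/-- the ray `(n, e)` of length `m` has type `τ` and reaches level `N` at `m` -/
def Match {F : Type} (c : F → ℂ) (ρ : F → ℝ) (m N : ℕ) (τ : HalfType F) (n e : ℕ → ℂ) : Prop :=
  Ray c ρ m τ.I τ.w n e ∧ (∀ j ≤ m, ‖n j - τ.u j‖ ≤ 1 / 20) ∧ (∀ j < m, ‖e j - τ.v j‖ ≤ 1 / 20) ∧
  (∀ j, 1 ≤ j → j < m → Real.exp (-((τ.g j : ℝ) + 1)) ≤ cosI n e j ∧
    cosI n e j ≤ Real.exp (-(τ.g j : ℝ))) ∧
  Reach (cosI n e) m N

/-- parameters for which there is a bad triple of given type -/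
def TypeSet {F : Type} (c : F → ℂ) (R : F → ℝ) (η0 : ℝ) (m p N : ℕ) (τ σ : HalfType F) :
    Set (F → unitInterval) :=
  {x | ∃ n e a b : ℕ → Circle,
    Match c (radx R η0 x) m N τ (fun j => (n j : ℂ)) (fun j => (e j : ℂ)) ∧
    Match c (radx R η0 x) p N σ (fun j => (a j : ℂ)) (fun j => (b j : ℂ)) ∧
    (a 0 : ℂ) = n 0 ∧ (b 0 : ℂ) = (n 0 : ℂ) ^ 2 * (starRingEnd ℂ) (e 0) ∧
    cosC (n 0) (e 0) ≤ Real.exp (-(N : ℝ))}

end Pool.Agent.Lib.MP_79f2f8_an
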