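import Pool.Agent.Lib.MP_79f2f8_an.Types
import Pool.Agent.Lib.MP_79f2f8_an.Geo
import Pool.Agent.Lib.MP_79f2f8_an.Closed
import Pool.Agent.Lib.MP_79f2f8_an.Sect

/-!
# Volume of a type set
-/

open Finset MeasureTheory

namespace Pool.Agent.Lib.MP_79f2f8_an

/-- the geometric hypotheses for the abstract argument -/
structure Setup {F : Type} (c : F → ℂ) (R : F → ℝ) (η0 L0 rm Lm : ℝ) (S : Finset (F × ℂ × F)) :
    Prop where
  hη : 0 < η0
  hR : ∀ i, 0 < R i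
  hrm : ∀ i, R i + η0 ≤ rm
  hL0 : 0 < L0
  hrL : rm ≤ 49 / 25 * L0
  ne : ∀ s ∈ S, s.1 ≠ s.2.2
  gap : ∀ s ∈ S, L0 + (R s.1 + η0) + (R s.2.2 + η0) ≤ ‖c s.2.2 + s.2.1 - c s.1‖
  up : ∀ s ∈ S, ‖c s.2.2 + s.2.1 - c s.1‖ + (R s.1 + η0) + (R s.2.2 + η0) ≤ Lm
  sym : ∀ s ∈ S, (s.2.2, -s.2.1, s.1) ∈ S

variable {F : Type} [Fintype F] [DecidableEq F] {c : F → ℂ} {R : F → ℝ} {η0 L0 rm Lm : ℝ}
  {S : Finset (F × ℂ × F)}

lemma radx_le (H : Setup c R η0 L0 rm Lm S) (x : F → unitInterval) (i : F) :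
    radx R η0 x i ≤ R i + η0 := by
  unfold radx
  have := (x i).2.2
  have h := H.hη
  nlinarith

lemma le_radx (H : Setup c R η0 L0 rm Lm S) (x : F → unitInterval) (i : F) :
    R i ≤ radx R η0 x i := by
  unfold radx
  have := (x i).2.1
  have h := H.hη
  nlinarith

/-- the constant -/
lemma rm_pos (H : Setup c R η0 L0 rm Lm S) (i : F) : 0 < rm := by
  linarith [H.hrm i, H.hR i, H.hη]

lemma cmp_of_cells {x y g : ℝ} (h1 : Real.exp (-(g + 1)) ≤ x) (h2 : y ≤ Real.exp (-g)) :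
    y ≤ 11 / 4 * x := by
  have e : Real.exp (-g) = Real.exp 1 * Real.exp (-(g + 1)) := by
    rw [← Real.exp_add]; congr 1; ring
  have h3 : Real.exp 1 ≤ 11 / 4 := by
    have := Real.exp_one_lt_d9; linarith
  have h4 : 0 < Real.exp (-(g + 1)) := Real.exp_pos _
  calc y ≤ Real.exp (-g) := h2
    _ = Real.exp 1 * Real.exp (-(g + 1)) := e
    _ ≤ 11 / 4 * Real.exp (-(g + 1)) := by gcongr
    _ ≤ 11 / 4 * x := by gcongr

lemma section_aux (H : Setup c R η0 L0 rm Lm S) {m p N : ℕ} (hm : 1 ≤ m) (hp : 1 ≤ p)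
    {τ σ : HalfType F} (hi : σ.I 0 = τ.I 0)
    (hτ : ∀ j < m, (τ.I j, τ.w j, τ.I (j + 1)) ∈ S) (hσ : ∀ j < p, (σ.I j, σ.w j, σ.I (j + 1)) ∈ S)
    {x y : F → unitInterval} (hx : x ∈ TypeSet c R η0 m p N τ σ)
    (hy : y ∈ TypeSet c R η0 m p N τ σ) (hxy : ∀ j, j ≠ τ.I 0 → x j = y j)
    (hlt : (x (τ.I 0) : ℝ) < y (τ.I 0)) :
    (y (τ.I 0) : ℝ) - x (τ.I 0) ≤ 200 * (rm + Lm) * 2 ^ (m + p) * Real.exp (-(N : ℝ)) / η0 := by
  obtain ⟨n, e, a, b, M1, M2, ha, hb, hC⟩ := hx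
  obtain ⟨n', e', a', b', M1', M2', ha', hb', hC'⟩ := hy
  have hη := H.hη
  rw [le_div_iff₀ hη]
  have key := pair_bound c (radx R η0 x) (radx R η0 y) (τ.I 0)
    (η0 * ((y (τ.I 0) : ℝ) - x (τ.I 0))) rm Lm L0 (Real.exp (-(N : ℝ)))
    (mul_pos hη (by linarith)) (by unfold radx; ring)
    (fun i hi => by unfold radx; rw [hxy i hi]) (fun i => lt_of_lt_of_le (H.hR i) (le_radx H x i))
    (fun i => le_trans (radx_le H y i) (H.hrm i)) H.hL0 H.hrL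
    (by rw [Real.exp_le_one_iff]; simp) m p hm hp
    τ.I τ.w rfl (fun j hj => H.ne _ (hτ j hj))
    (fun j hj => by
      have := H.gap _ (hτ j hj)
      have h1 := radx_le H y (τ.I j)
      have h2 := radx_le H y (τ.I (j + 1))
      simp only at this
      linarith)
    (fun j hj => by
      have := H.up _ (hτ j hj)
      have h1 := radx_le H y (τ.I j)
      have h2 := radx_le H y (τ.I (j + 1))
      simp only at this
      linarith)
    σ.I σ.w hi (fun j hj => H.ne _ (hσ j hj))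
    (fun j hj => by
      have := H.gap _ (hσ j hj)
      have h1 := radx_le H y (σ.I j)
      have h2 := radx_le H y (σ.I (j + 1))
      simp only at this
      linarith)
    (fun j hj => by
      have := H.up _ (hσ j hj)
      have h1 := radx_le H y (σ.I j)
      have h2 := radx_le H y (σ.I (j + 1))
      simp only at this
      linarith)
    (fun j => (n j : ℂ)) (fun j => (e j : ℂ)) (fun j => (n' j : ℂ)) (fun j => (e' j : ℂ))
    (fun j => (a j : ℂ)) (fun j => (b j : ℂ)) (fun j => (a' j : ℂ)) (fun j => (b' j : ℂ))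
    M1.1 M1'.1 M2.1 M2'.1 ha hb ha' hb'
    (fun j hj => by
      have h1 := M1.2.1 j hj
      have h2 := M1'.2.1 j hj
      calc ‖(n' j : ℂ) - n j‖ = ‖((n' j : ℂ) - τ.u j) - (n j - τ.u j)‖ := by congr 1; ring
        _ ≤ ‖(n' j : ℂ) - τ.u j‖ + ‖(n j : ℂ) - τ.u j‖ := norm_sub_le _ _
        _ ≤ 1 / 20 + 1 / 20 := add_le_add h2 h1
        _ = 1 / 10 := by norm_num)
    (fun j hj => by
      have h1 := M1.2.2.1 j hj
      have h2 := M1'.2.2.1 j hj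
      calc ‖(e' j : ℂ) - e j‖ = ‖((e' j : ℂ) - τ.v j) - (e j - τ.v j)‖ := by congr 1; ring
        _ ≤ ‖(e' j : ℂ) - τ.v j‖ + ‖(e j : ℂ) - τ.v j‖ := norm_sub_le _ _
        _ ≤ 1 / 20 + 1 / 20 := add_le_add h2 h1
        _ = 1 / 10 := by norm_num)
    (fun j hj => by
      have h1 := M2.2.1 j hj
      have h2 := M2'.2.1 j hj
      calc ‖(a' j : ℂ) - a j‖ = ‖((a' j : ℂ) - σ.u j) - (a j - σ.u j)‖ := by congr 1; ring
        _ ≤ ‖(a' j : ℂ) - σ.u j‖ + ‖(a j : ℂ) - σ.u j‖ := norm_sub_le _ _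
        _ ≤ 1 / 20 + 1 / 20 := add_le_add h2 h1
        _ = 1 / 10 := by norm_num)
    (fun j hj => by
      have h1 := M2.2.2.1 j hj
      have h2 := M2'.2.2.1 j hj
      calc ‖(b' j : ℂ) - b j‖ = ‖((b' j : ℂ) - σ.v j) - (b j - σ.v j)‖ := by congr 1; ring
        _ ≤ ‖(b' j : ℂ) - σ.v j‖ + ‖(b j : ℂ) - σ.v j‖ := norm_sub_le _ _
        _ ≤ 1 / 20 + 1 / 20 := add_le_add h2 h1
        _ = 1 / 10 := by norm_num)
    hC hC'
    (fun j h1 h2 => ⟨cmp_of_cells (M1.2.2.2.1 j h1 h2).1 (M1'.2.2.2.1 j h1 h2).2,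
      cmp_of_cells (M1'.2.2.2.1 j h1 h2).1 (M1.2.2.2.1 j h1 h2).2⟩)
    (fun j h1 h2 => ⟨cmp_of_cells (M2.2.2.2.1 j h1 h2).1 (M2'.2.2.2.1 j h1 h2).2,
      cmp_of_cells (M2'.2.2.2.1 j h1 h2).1 (M2.2.2.2.1 j h1 h2).2⟩)
    M1.2.2.2.2.1 M1'.2.2.2.2.1 M2.2.2.2.2.1 M2'.2.2.2.2.1
  linarith

theorem volume_typeSet_le (H : Setup c R η0 L0 rm Lm S) {m p N : ℕ} (hm : 1 ≤ m) (hp : 1 ≤ p)
    {τ σ : HalfType F} (hi : σ.I 0 = τ.I 0)
    (hτ : ∀ j < m, (τ.I j, τ.w j, τ.I (j + 1)) ∈ S)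
    (hσ : ∀ j < p, (σ.I j, σ.w j, σ.I (j + 1)) ∈ S) :
    volume (TypeSet c R η0 m p N τ σ) ≤
      ENNReal.ofReal (200 * (rm + Lm) * 2 ^ (m + p) * Real.exp (-(N : ℝ)) / η0) := by
  have hη := H.hη
  have hrm := rm_pos H (τ.I 0)
  have hLm : 0 < Lm := by
    have h1 := H.up _ (hτ 0 (by omega))
    have h2 := H.hR (τ.I 0)
    have h3 := H.hR (τ.I (0 + 1))
    have h4 := norm_nonneg (c (τ.I (0 + 1)) + τ.w 0 - c (τ.I 0))
    simp only at h1
    linarith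
  apply volume_le_of_section (τ.I 0) _ (isClosed_typeSet c R η0 m p N τ σ).measurableSet
  · positivity
  · intro x hx y hy hxy
    rcases lt_trichotomy (x (τ.I 0) : ℝ) (y (τ.I 0)) with h | h | h
    · rw [abs_sub_comm, abs_of_pos (by linarith)]
      exact section_aux H hm hp hi hτ hσ hx hy hxy h
    · rw [h, sub_self, abs_zero]; positivity
    · rw [abs_of_pos (by linarith)]
      exact section_aux H hm hp hi hτ hσ hy hx (fun j hj => (hxy j hj).symm) h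

end Pool.Agent.Lib.MP_79f2f8_an
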